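import Mathlib

/-! Lacunary sequences: a real number `θ` with prescribed fractional parts of `θ a_L`. -/

set_option autoImplicit false

open Set

namespace Pool.Agent.T9h50.PE

/-- refinement of an interval -/
lemma nest_step {l r : ℝ} (hl : 0 < l) (hr : 1 + l ≤ r * l) (x m M t : ℝ) (hm : 0 < m)
    (hM : r * m ≤ M) : ∃ x' : ℝ, x ≤ x' ∧ x' + l / M ≤ x + l / m ∧
      ∀ θ ∈ Icc x' (x' + l / M), ∃ k : ℤ, |θ * M - t - k| ≤ l / 2 := by
  have hr0 : 0 < r := by
    by_contra h
    push Not at h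
    nlinarith
  have hM0 : 0 < M := lt_of_lt_of_le (by positivity) hM
  set k : ℤ := ⌈x * M - t + l / 2⌉ with hk
  have h1 : x * M - t + l / 2 ≤ k := Int.le_ceil _
  have h2 : (k : ℝ) < x * M - t + l / 2 + 1 := Int.ceil_lt_add_one _
  refine ⟨(k + t - l / 2) / M, ?_, ?_, ?_⟩
  · rw [le_div_iff₀ hM0]
    linarith
  · have h3 : (k + t - l / 2) / M + l / M ≤ x + (1 + l) / M := by
      rw [← add_div, ← sub_le_iff_le_add', ]
      have : (↑k + t - l / 2 + l) / M - x = (↑k + t - l / 2 + l - x * M) / M := by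
        field_simp
      rw [this]
      gcongr
      linarith
    have h4 : (1 + l) / M ≤ l / m := by
      rw [div_le_div_iff₀ hM0 hm]
      nlinarith
    linarith
  · intro θ hθ
    refine ⟨k, ?_⟩
    have h3 := hθ.1
    have h4 := hθ.2
    rw [div_le_iff₀ hM0] at h3
    rw [← add_div, le_div_iff₀ hM0] at h4
    rw [abs_le]
    constructor <;> linarith

/-- for lacunary `a_L` the numbers `θ a_L` can be prescribed modulo one up to `l / 2` -/
theorem nest {l r : ℝ} (hl : 0 < l) (hr : 1 + l ≤ r * l) (a t : ℕ → ℝ) (S : Set ℕ)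
    (h1 : ∀ L ∈ S, 1 ≤ a L) (h2 : ∀ L ∈ S, ∀ L' ∈ S, L < L' → r * a L ≤ a L') :
    ∃ θ : ℝ, ∀ L ∈ S, ∃ k : ℤ, |θ * a L - t L - k| ≤ l / 2 := by
  classical
  have hr0 : 0 < r := by
    by_contra h
    push Not at h
    nlinarith
  -- states
  choose! f hf1 hf2 hf3 using fun (x m M t : ℝ) (h : 0 < m ∧ r * m ≤ M) =>
    nest_step hl hr x m M t h.1 h.2
  let st : ℕ → ℝ × ℝ := fun n => Nat.rec (0, 1 / r) (fun n p =>
    if n ∈ S then (f p.1 p.2 (a n) (t n), a n) else p) n
  have st0 : st 0 = (0, 1 / r) := rfl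
  have sts : ∀ n, st (n + 1) = if n ∈ S then (f (st n).1 (st n).2 (a n) (t n), a n) else st n :=
    fun n => rfl
  have inv : ∀ n, 0 < (st n).2 ∧ ∀ L ∈ S, n ≤ L → r * (st n).2 ≤ a L := by
    intro n
    induction n with
    | zero =>
      rw [st0]
      refine ⟨by positivity, fun L hL _ => ?_⟩
      have := h1 L hL
      field_simp
      exact this
    | succ n ih =>
      rw [sts]
      split_ifs with h
      · exact ⟨lt_of_lt_of_le one_pos (h1 n h), fun L hL hn => h2 n h L hL (by omega)⟩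
      · exact ⟨ih.1, fun L hL hn => ih.2 L hL (by omega)⟩
  have hanti : Antitone fun n => Icc (st n).1 ((st n).1 + l / (st n).2) := by
    refine antitone_nat_of_succ_le fun n => ?_
    rw [sts]
    split_ifs with h
    · have h3 := (inv n).1
      have h4 := (inv n).2 n h le_rfl
      exact Icc_subset_Icc (hf1 _ _ _ _ ⟨h3, h4⟩) (hf2 _ _ _ _ ⟨h3, h4⟩)
    · exact le_rfl
  have hne : ∀ n, (st n).1 ≤ (st n).1 + l / (st n).2 := by
    intro n
    have := (inv n).1
    have : 0 < l / (st n).2 := by positivity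
    linarith
  have hθ := ciSup_mem_iInter_Icc_of_antitone_Icc hanti hne
  refine ⟨⨆ n, (st n).1, fun L hL => ?_⟩
  have h5 := mem_iInter.1 hθ (L + 1)
  rw [sts, if_pos hL] at h5
  exact hf3 _ _ _ _ ⟨(inv L).1, (inv L).2 L hL le_rfl⟩ _ h5

end Pool.Agent.T9h50.PE
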