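import Mathlib

/-! Sets of binary sequences of polynomial growth along a set of indices are null sets. -/

set_option autoImplicit false

open MeasureTheory
open scoped ENNReal

noncomputable section

namespace Pool.Agent.T9h50.PE

/-- independent fair coin tosses -/
def coin : Measure (ℕ → Bool) :=
  Measure.infinitePi (fun _ : ℕ => (PMF.uniformOfFintype Bool).toMeasure)

lemma coin_cyl (W : Finset ℕ) (τ : ℕ → Bool) :
    coin {c | ∀ L ∈ W, c L = τ L} = (2⁻¹ : ℝ≥0∞) ^ W.card := by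
  have h1 : {c : ℕ → Bool | ∀ L ∈ W, c L = τ L} = Set.pi (W : Set ℕ) (fun L => {τ L}) := by
    ext c
    simp [Set.mem_pi]
  have h2 : ∀ b : Bool, (PMF.uniformOfFintype Bool).toMeasure {b} = 2⁻¹ := by
    intro b
    rw [PMF.toMeasure_apply_singleton _ _ (MeasurableSet.singleton b)]
    simp
  rw [h1, coin, Measure.infinitePi_pi _ (fun L _ => MeasurableSet.singleton _)]
  rw [Finset.prod_congr rfl fun L _ => h2 (τ L), Finset.prod_const]

/-- The number of the patterns of the sequences in `E` on finite subsets of `𝓛 ∩ [0, N]` is bounded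
by a polynomial in `N`. -/
def PolyGrowth (𝓛 : Set ℕ) (E : Set (ℕ → Bool)) : Prop :=
  ∃ (K : ℕ) (C : ℝ), ∀ (N : ℕ) (W : Finset ℕ), (∀ L ∈ W, L ∈ 𝓛 ∧ 1 ≤ L ∧ L ≤ N) →
    ∀ S : Finset (W → Bool), (∀ τ ∈ S, ∃ c ∈ E, ∀ L : W, c L = τ L) →
      (S.card : ℝ) ≤ C * (N + 1 : ℝ) ^ K

/-- the number of the elements of `𝓛` in `[1, N]` is not `O(log N)` -/
def SuperLog (𝓛 : Set ℕ) : Prop :=
  ∀ C : ℝ, ∃ N : ℕ, 2 ≤ N ∧ C * Real.log N ≤ ((𝓛 ∩ Set.Icc 1 N).ncard : ℝ)

lemma superLog_tail (𝓛 : Set ℕ) (h : SuperLog 𝓛) (n : ℕ) : SuperLog (𝓛 ∩ Set.Ici n) := by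
  intro C
  obtain ⟨N, hN, h1⟩ := h (|C| + n / Real.log 2)
  refine ⟨N, hN, ?_⟩
  have hl2 : 0 < Real.log 2 := Real.log_pos (by norm_num)
  have hlN : Real.log 2 ≤ Real.log N := Real.log_le_log (by norm_num) (by exact_mod_cast hN)
  have h2 : (𝓛 ∩ Set.Icc 1 N) ⊆ (𝓛 ∩ Set.Ici n ∩ Set.Icc 1 N) ∪ (Finset.range n : Set ℕ) := by
    intro x hx
    by_cases hxn : n ≤ x
    · exact Or.inl ⟨⟨hx.1, hxn⟩, hx.2⟩
    · right
      simpa using hxn
  have h3 : (𝓛 ∩ Set.Icc 1 N).ncard ≤ (𝓛 ∩ Set.Ici n ∩ Set.Icc 1 N).ncard + n := by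
    refine (Set.ncard_le_ncard h2 ?_).trans ((Set.ncard_union_le _ _).trans ?_)
    · exact ((Set.finite_Icc 1 N).subset Set.inter_subset_right).union (Finset.finite_toSet _)
    · rw [Set.ncard_coe_finset, Finset.card_range]
  have h4 : ((𝓛 ∩ Set.Icc 1 N).ncard : ℝ) ≤ (𝓛 ∩ Set.Ici n ∩ Set.Icc 1 N).ncard + n := by
    exact_mod_cast h3
  have h5 : (n : ℝ) ≤ n / Real.log 2 * Real.log N := by
    rw [div_mul_eq_mul_div, le_div_iff₀ hl2]
    exact mul_le_mul_of_nonneg_left hlN (Nat.cast_nonneg n)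
  have h6 : C * Real.log N ≤ |C| * Real.log N :=
    mul_le_mul_of_nonneg_right (le_abs_self C) (hl2.le.trans hlN)
  nlinarith

theorem null_of_polyGrowth (𝓛 : Set ℕ) (hL : SuperLog 𝓛) (E : Set (ℕ → Bool))
    (hE : PolyGrowth 𝓛 E) : coin E = 0 := by
  classical
  obtain ⟨K, C, hC⟩ := hE
  have hl2 : 0 < Real.log 2 := Real.log_pos (by norm_num)
  have hC0 : 0 ≤ C := by
    have := hC 0 ∅ (by simp) ∅ (by simp)
    simpa using this
  -- the main estimate
  have key : ∀ T : ℝ, 0 ≤ T → coin E ≤ ENNReal.ofReal (C * Real.exp (-T)) := by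
    intro T hT
    set C₀ : ℝ := 4 * K / Real.log 2 + 2 * T / Real.log 2 ^ 2 with hC₀
    have hC₀0 : 0 ≤ C₀ := by positivity
    obtain ⟨N, hN, h1⟩ := hL C₀
    have hfin : (𝓛 ∩ Set.Icc 1 N).Finite := (Set.finite_Icc 1 N).subset Set.inter_subset_right
    set W : Finset ℕ := hfin.toFinset with hW
    have hWc : (𝓛 ∩ Set.Icc 1 N).ncard = W.card := Set.ncard_eq_toFinset_card _ hfin
    rw [hWc] at h1
    have hWm : ∀ L ∈ W, L ∈ 𝓛 ∧ 1 ≤ L ∧ L ≤ N := by
      intro L hL
      rw [hW, Set.Finite.mem_toFinset] at hL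
      exact ⟨hL.1, hL.2.1, hL.2.2⟩
    let S : Finset (W → Bool) := Finset.univ.filter fun τ => ∃ c ∈ E, ∀ L : W, c L = τ L
    have hS := hC N W hWm S (fun τ hτ => (Finset.mem_filter.1 hτ).2)
    have hsub : E ⊆ ⋃ τ ∈ S, {c : ℕ → Bool | ∀ L ∈ W, c L = (fun n => if h : n ∈ W then τ ⟨n, h⟩
        else false) L} := by
      intro c hc
      rw [Set.mem_iUnion₂]
      refine ⟨fun L => c L, Finset.mem_filter.2 ⟨Finset.mem_univ _, c, hc, fun L => rfl⟩, ?_⟩
      intro L hL
      simp [hL]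
    have h2 : coin E ≤ S.card • (2⁻¹ : ℝ≥0∞) ^ W.card := by
      refine (measure_mono hsub).trans ((measure_biUnion_finset_le _ _).trans ?_)
      rw [← Finset.sum_const]
      exact Finset.sum_le_sum fun τ _ => (coin_cyl W _).le
    have h3 : (S.card • (2⁻¹ : ℝ≥0∞) ^ W.card) = ENNReal.ofReal (S.card * (2⁻¹ : ℝ) ^ W.card) := by
      rw [ENNReal.ofReal_mul (by positivity), ENNReal.ofReal_natCast, nsmul_eq_mul,
        ENNReal.ofReal_pow (by positivity), ENNReal.ofReal_inv_of_pos (by norm_num)]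
      norm_num
    rw [h3] at h2
    refine h2.trans (ENNReal.ofReal_le_ofReal ?_)
    -- real estimate
    have hlN : Real.log 2 ≤ Real.log N := Real.log_le_log (by norm_num) (by exact_mod_cast hN)
    have hN0 : (0 : ℝ) < N := by exact_mod_cast (by omega : 0 < N)
    have hN2 : (2 : ℝ) ≤ N := by exact_mod_cast hN
    have e1 : (2⁻¹ : ℝ) ^ W.card = Real.exp (-(W.card * Real.log 2)) := by
      rw [Real.exp_neg, mul_comm, Real.exp_mul, Real.exp_log (by norm_num), inv_pow,
        Real.rpow_natCast]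
    have e2 : (N + 1 : ℝ) ^ K ≤ Real.exp (2 * K * Real.log N) := by
      have h4 : (N + 1 : ℝ) ≤ N ^ 2 := by nlinarith
      calc (N + 1 : ℝ) ^ K ≤ ((N : ℝ) ^ 2) ^ K := by gcongr
        _ = (N : ℝ) ^ (2 * K) := by rw [← pow_mul]
        _ = Real.exp (2 * K * Real.log N) := by
            rw [mul_comm (2 * (K : ℝ)), Real.exp_mul, Real.exp_log hN0]
            rw [← Real.rpow_natCast]
            push_cast
            rfl
    have e3 : 2 * K * Real.log N ≤ W.card * Real.log 2 / 2 := by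
      have h5 : 4 * K / Real.log 2 * Real.log N ≤ W.card := by
        refine le_trans ?_ h1
        refine mul_le_mul_of_nonneg_right ?_ (hl2.le.trans hlN)
        rw [hC₀]
        have : 0 ≤ 2 * T / Real.log 2 ^ 2 := by positivity
        linarith
      rw [div_mul_eq_mul_div, div_le_iff₀ hl2] at h5
      linarith
    have e4 : T ≤ W.card * Real.log 2 / 2 := by
      have h5 : 2 * T / Real.log 2 ^ 2 * Real.log 2 ≤ W.card := by
        refine le_trans ?_ h1
        have h6 : 2 * T / Real.log 2 ^ 2 ≤ C₀ := by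
          rw [hC₀]
          have : 0 ≤ 4 * K / Real.log 2 := by positivity
          linarith
        exact mul_le_mul h6 hlN hl2.le hC₀0
      have h7 : 2 * T / Real.log 2 ^ 2 * Real.log 2 = 2 * T / Real.log 2 := by
        field_simp
      rw [h7, div_le_iff₀ hl2] at h5
      linarith
    calc (S.card : ℝ) * (2⁻¹ : ℝ) ^ W.card ≤ (C * (N + 1 : ℝ) ^ K) * (2⁻¹ : ℝ) ^ W.card := by gcongr
      _ ≤ (C * Real.exp (2 * K * Real.log N)) * Real.exp (-(W.card * Real.log 2)) := by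
          rw [e1]; gcongr
      _ = C * Real.exp (2 * K * Real.log N - W.card * Real.log 2) := by
          rw [mul_assoc, ← Real.exp_add]; congr 2
      _ ≤ C * Real.exp (-T) := by
          gcongr
          linarith
  -- let `T → ∞`
  refine le_antisymm ?_ bot_le
  refine ENNReal.le_of_forall_pos_le_add ?_
  intro ε hε _
  rw [zero_add]
  by_cases hC1 : C = 0
  · have := key 0 le_rfl
    rw [hC1] at this
    simp at this
    rw [this]
    exact bot_le
  · have hCpos : 0 < C := lt_of_le_of_ne hC0 (Ne.symm hC1)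
    have hεr : (0 : ℝ) < ε := hε
    refine (key (max 0 (Real.log (C / ε))) (le_max_left _ _)).trans ?_
    rw [← ENNReal.ofReal_coe_nnreal]
    refine ENNReal.ofReal_le_ofReal ?_
    have h8 : Real.exp (-(max 0 (Real.log (C / ε)))) ≤ ε / C := by
      rw [← Real.exp_log (show (0 : ℝ) < ε / C by positivity)]
      refine Real.exp_le_exp.2 ?_
      have h9 : Real.log (ε / C) = -Real.log (C / ε) := by
        rw [← Real.log_inv, inv_div]
      rw [h9]
      exact neg_le_neg (le_max_right _ _)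
    calc C * Real.exp (-(max 0 (Real.log (C / ε)))) ≤ C * (ε / C) := by gcongr
      _ = ε := by field_simp

end Pool.Agent.T9h50.PE
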