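import Pool.Agent.T9h50.PE.Sign
import Pool.Agent.T9h50.PE.AE

/-! The patterns which PEPS tensors can follow (library copy of a part of `SizeDependence`). -/

set_option autoImplicit false

open MeasureTheory

noncomputable section

namespace Pool.Agent.T9h50.PE

/-- For the sizes `L ∈ 𝓛` the vector `Ψ L` is nonzero and its one-site state is supported on the basis
states with the value `c L` of `P`. -/
def HasPattern {α : Type} [Fintype α] (P : α → Bool) (𝓛 : Set ℕ) (c : ℕ → Bool)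
    (Ψ : ∀ (L : ℕ) [NeZero L], Conf α L → ℂ) : Prop :=
  ∀ (L : ℕ) [NeZero L], L ∈ 𝓛 → nrm (Ψ L) ≠ 0 ∧ ∀ s, Ψ L s ≠ 0 → P (s (0, 0)) = c L

lemma growth {α : Type} [Fintype α] (P : α → Bool) (𝓛 : Set ℕ) (D n : ℕ) :
    PolyGrowth (𝓛 ∩ Set.Ici n) {c | ∃ A : Tensor α D, ∀ (L : ℕ) [NeZero L], n ≤ L → L ∈ 𝓛 →
      Sgn (c L) (bias P (peps A L))} := by
  refine ⟨6 * (2 * Fintype.card α * D ^ 4), 1, fun N W hW S hS => ?_⟩
  have h1 := pattern_count (α := α) P D N W (fun L hL => ⟨(hW L hL).2.1, (hW L hL).2.2⟩) S (by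
    intro τ hτ
    obtain ⟨c, ⟨A, hA⟩, hc⟩ := hS τ hτ
    refine ⟨A, fun L _ hL => ?_⟩
    have := hA L (hW L hL).1.2 (hW L hL).1.1
    rwa [hc ⟨L, hL⟩] at this)
  have h2 : W.card ≤ N := by
    have h3 : W ⊆ Finset.Icc 1 N := fun L hL => Finset.mem_Icc.2 ⟨(hW L hL).2.1, (hW L hL).2.2⟩
    simpa using Finset.card_le_card h3
  have h3 : 8 * W.card * N ^ 2 + 1 ≤ (N + 1) ^ 6 := by
    have h4 : 8 * W.card * N ^ 2 ≤ 8 * N ^ 3 := by
      calc 8 * W.card * N ^ 2 ≤ 8 * N * N ^ 2 := by gcongr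
        _ = 8 * N ^ 3 := by ring
    rcases Nat.eq_zero_or_pos N with h5 | h5
    · subst h5
      simp
    · have h6 : 8 * (N ^ 3 + 1) ≤ (N + 1) ^ 6 := by
        have h7 : 2 ^ 3 ≤ (N + 1) ^ 3 := Nat.pow_le_pow_left (by omega) 3
        have h8 : N ^ 3 + 1 ≤ (N + 1) ^ 3 := by nlinarith
        calc 8 * (N ^ 3 + 1) ≤ (N + 1) ^ 3 * (N + 1) ^ 3 := Nat.mul_le_mul h7 h8
          _ = (N + 1) ^ 6 := by ring
      omega
  have h4 : S.card ≤ (N + 1) ^ (6 * (2 * Fintype.card α * D ^ 4)) := by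
    rw [pow_mul]
    exact h1.trans (Nat.pow_le_pow_left h3 _)
  rw [one_mul]
  exact_mod_cast h4

theorem part1 {α : Type} [Fintype α] (P : α → Bool) (𝓛 : Set ℕ) (h𝓛 : SuperLog 𝓛) :
    ∀ᵐ c ∂coin, ∀ Ψ : ∀ (L : ℕ) [NeZero L], Conf α L → ℂ, HasPattern P 𝓛 c Ψ →
      ∀ (D : ℕ) (A : Tensor α D) (ε : ℝ), ε < 1 → ¬ ApproxOn 𝓛 origin A Ψ ε := by
  have h1 : ∀ D n : ℕ, ∀ᵐ c ∂coin, ¬ ∃ A : Tensor α D, ∀ (L : ℕ) [NeZero L], n ≤ L → L ∈ 𝓛 →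
      Sgn (c L) (bias P (peps A L)) := by
    intro D n
    have h2 := null_of_polyGrowth _ (superLog_tail 𝓛 h𝓛 n) _ (growth P 𝓛 D n)
    rw [ae_iff]
    simpa only [not_not] using h2
  have h2 : ∀ᵐ c ∂coin, ∀ D n : ℕ, ¬ ∃ A : Tensor α D, ∀ (L : ℕ) [NeZero L], n ≤ L → L ∈ 𝓛 →
      Sgn (c L) (bias P (peps A L)) := by
    rw [ae_all_iff]
    intro D
    rw [ae_all_iff]
    exact h1 D
  filter_upwards [h2] with c hc
  rintro Ψ hΨ D A ε hε ⟨n, hn⟩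
  refine hc D n ⟨A, fun L _ hL hL' => ?_⟩
  exact sgn_of_close P (c L) (Ψ L) (peps A L) ε hε (hΨ L hL').1 (hΨ L hL').2 (hn L hL hL').1
    (hn L hL hL').2

end Pool.Agent.T9h50.PE
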