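import Pool.Agent.T9h50.PE.Defs

/-! Local states of superpositions of two constant configurations. -/

set_option autoImplicit false
set_option linter.unusedSectionVars false

open scoped BigOperators ComplexConjugate

noncomputable section

namespace Pool.Agent.T9h50.PE

variable {α : Type} [Fintype α]

open Classical in
/-- the product vector `|a a ... a⟩` -/
def prodVec (a : α) (L : ℕ) : Conf α L → ℂ := fun s => if s = (fun _ => a) then 1 else 0

open Classical in
/-- `w |a...a⟩ + |b...b⟩` -/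
def catVec (a b : α) (w : ℂ) (L : ℕ) : Conf α L → ℂ :=
  fun s => if s = (fun _ => a) then w else if s = (fun _ => b) then 1 else 0

lemma contr_diag {S : Type} [Fintype S] (B : S → S → ℂ) (hB : Contr B) (x : S) : ‖B x x‖ ≤ 1 := by
  classical
  have h := hB (Pi.single x 1)
  unfold nrm at h
  have h1 : ∀ σ, ∑ τ, B σ τ * (Pi.single x 1 : S → ℂ) τ = B σ x := by
    intro σ
    rw [Finset.sum_eq_single x]
    · simp
    · intro τ _ hτ
      simp [hτ]
    · intro h
      exact absurd (Finset.mem_univ _) h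
  simp only [h1] at h
  have h2 : ∑ s, ‖(Pi.single x 1 : S → ℂ) s‖ ^ 2 = 1 := by
    rw [Finset.sum_eq_single x]
    · simp
    · intro τ _ hτ
      simp [hτ]
    · intro h
      exact absurd (Finset.mem_univ _) h
  rw [h2] at h
  have h3 : ‖B x x‖ ^ 2 ≤ ∑ σ, ‖B σ x‖ ^ 2 :=
    Finset.single_le_sum (f := fun σ => ‖B σ x‖ ^ 2) (fun _ _ => by positivity) (Finset.mem_univ x)
  have h4 : ‖B x x‖ ^ 2 ≤ 1 := h3.trans h
  nlinarith [norm_nonneg (B x x)]

lemma nrm_prodVec (a : α) (L : ℕ) [NeZero L] : nrm (prodVec a L) = 1 := by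
  classical
  unfold nrm prodVec
  rw [Finset.sum_eq_single (fun _ => a)]
  · simp
  · intro s _ hs
    simp [hs]
  · intro h
    exact absurd (Finset.mem_univ _) h

lemma nrm_catVec (a b : α) (hab : a ≠ b) (w : ℂ) (L : ℕ) [NeZero L] :
    nrm (catVec a b w L) = ‖w‖ ^ 2 + 1 := by
  classical
  have hne : (fun _ => a : Conf α L) ≠ (fun _ => b) := fun h => hab (congrFun h (0, 0))
  unfold nrm catVec
  rw [Finset.sum_eq_add (fun _ => a : Conf α L) (fun _ => b) hne]
  · simp [hne.symm]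
  · intro s _ hs
    simp [hs.1, hs.2]
  · intro h
    exact absurd (Finset.mem_univ _) h
  · intro h
    exact absurd (Finset.mem_univ _) h

lemma expec_prod (a : α) (L : ℕ) [NeZero L] (R : Finset (ℤ × ℤ)) (v : Site L)
    (B : (R → α) → (R → α) → ℂ) : expecR R (prodVec a L) v B = B (fun _ => a) (fun _ => a) := by
  classical
  unfold expecR prodVec
  rw [Finset.sum_eq_single (fun _ => a), Finset.sum_eq_single (fun _ => a)]
  · have e1 : res R (fun _ => a : Conf α L) v = fun _ => a := rfl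
    simp [e1]
  · intro s _ hs
    simp [hs]
  · intro h
    exact absurd (Finset.mem_univ _) h
  · intro s _ hs
    refine Finset.sum_eq_zero fun s' _ => ?_
    simp [hs]
  · intro h
    exact absurd (Finset.mem_univ _) h

lemma exists_off (L : ℕ) [NeZero L] (R : Finset (ℤ × ℤ)) (hR : R.card < L ^ 2) (v : Site L) :
    ∃ w : Site L, ∀ p ∈ R, w ≠ (v.1 + (p.1 : ZMod L), v.2 + (p.2 : ZMod L)) := by
  classical
  by_contra h
  push Not at h
  have h1 : (Finset.univ : Finset (Site L)) ⊆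
      R.image (fun p => (v.1 + (p.1 : ZMod L), v.2 + (p.2 : ZMod L))) := by
    intro w _
    obtain ⟨p, hp, hw⟩ := h w
    exact Finset.mem_image.2 ⟨p, hp, hw.symm⟩
  have h2 := (Finset.card_le_card h1).trans Finset.card_image_le
  rw [Finset.card_univ, Fintype.card_prod, ZMod.card] at h2
  nlinarith

lemma expec_cat (a b : α) (hab : a ≠ b) (w : ℂ) (L : ℕ) [NeZero L] (R : Finset (ℤ × ℤ))
    (hR : R.card < L ^ 2) (v : Site L) (B : (R → α) → (R → α) → ℂ) :
    expecR R (catVec a b w L) v B =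
      ((‖w‖ ^ 2 : ℝ) : ℂ) * B (fun _ => a) (fun _ => a) + B (fun _ => b) (fun _ => b) := by
  classical
  have hne : (fun _ => a : Conf α L) ≠ (fun _ => b) := fun h => hab (congrFun h (0, 0))
  obtain ⟨w₀, hw₀⟩ := exists_off L R hR v
  unfold expecR
  have hz : ∀ s : Conf α L, s ≠ (fun _ => a) ∧ s ≠ (fun _ => b) → catVec a b w L s = 0 := by
    intro s hs
    unfold catVec
    rw [if_neg hs.1, if_neg hs.2]
  have ha : catVec a b w L (fun _ => a) = w := by
    unfold catVec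
    rw [if_pos rfl]
  have hb : catVec a b w L (fun _ => b) = 1 := by
    unfold catVec
    rw [if_neg hne.symm, if_pos rfl]
  have h1 : ∀ s : Conf α L, ∑ s' : Conf α L,
      (if (∀ w : Site L, (∀ p ∈ R, w ≠ (v.1 + (p.1 : ZMod L), v.2 + (p.2 : ZMod L))) → s w = s' w)
        then conj (catVec a b w L s) * B (res R s v) (res R s' v) * catVec a b w L s' else 0) =
      (if (∀ w : Site L, (∀ p ∈ R, w ≠ (v.1 + (p.1 : ZMod L), v.2 + (p.2 : ZMod L))) → s w = a)
        then conj (catVec a b w L s) * B (res R s v) (fun _ => a) * w else 0) +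
      (if (∀ w : Site L, (∀ p ∈ R, w ≠ (v.1 + (p.1 : ZMod L), v.2 + (p.2 : ZMod L))) → s w = b)
        then conj (catVec a b w L s) * B (res R s v) (fun _ => b) else 0) := by
    intro s
    rw [Finset.sum_eq_add (fun _ => a : Conf α L) (fun _ => b) hne]
    · rw [ha, hb, mul_one]
      rfl
    · intro s' _ hs'
      rw [hz s' hs']
      simp
    · intro h
      exact absurd (Finset.mem_univ _) h
    · intro h
      exact absurd (Finset.mem_univ _) h
  rw [Finset.sum_congr rfl fun s _ => h1 s]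
  rw [Finset.sum_eq_add (fun _ => a : Conf α L) (fun _ => b) hne]
  · rw [ha, hb, if_pos (fun _ _ => rfl), if_neg (fun h => hab (h w₀ hw₀)),
      if_neg (fun h => hab (h w₀ hw₀).symm), if_pos (fun _ _ => rfl)]
    have e1 : res R (fun _ => a : Conf α L) v = fun _ => a := rfl
    have e2 : res R (fun _ => b : Conf α L) v = fun _ => b := rfl
    rw [e1, e2, Complex.ofReal_pow, ← Complex.conj_mul']
    simp
    ring
  · intro s _ hs
    rw [hz s hs]
    simp
  · intro h
    exact absurd (Finset.mem_univ _) h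
  · intro h
    exact absurd (Finset.mem_univ _) h

lemma close_cat_a (a b : α) (hab : a ≠ b) (w : ℂ) (L : ℕ) [NeZero L] (R : Finset (ℤ × ℤ))
    (hR : R.card < L ^ 2) (ε : ℝ) (hε : 2 / (‖w‖ ^ 2 + 1) ≤ ε) :
    Close R (prodVec a L) (catVec a b w L) ε := by
  intro u v B hB
  rw [expec_prod, expec_cat a b hab w L R hR, nrm_prodVec, nrm_catVec a b hab]
  have h0 : (0 : ℝ) < ‖w‖ ^ 2 + 1 := by positivity
  have h1 : (((‖w‖ ^ 2 + 1 : ℝ) : ℂ)) ≠ 0 := by exact_mod_cast h0.ne'
  have h2 : B (fun _ => a) (fun _ => a) / ((1 : ℝ) : ℂ) - (((‖w‖ ^ 2 : ℝ) : ℂ) * B (fun _ => a)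
      (fun _ => a) + B (fun _ => b) (fun _ => b)) / ((‖w‖ ^ 2 + 1 : ℝ) : ℂ) =
      (B (fun _ => a) (fun _ => a) - B (fun _ => b) (fun _ => b)) / ((‖w‖ ^ 2 + 1 : ℝ) : ℂ) := by
    push_cast at h1 ⊢
    field_simp
    ring
  rw [h2, norm_div, Complex.norm_real, Real.norm_of_nonneg h0.le]
  refine le_trans ?_ hε
  gcongr
  have h3 := contr_diag B hB (fun _ => a)
  have h4 := contr_diag B hB (fun _ => b)
  exact (norm_sub_le _ _).trans (by linarith)

lemma close_cat_b (a b : α) (hab : a ≠ b) (w : ℂ) (L : ℕ) [NeZero L] (R : Finset (ℤ × ℤ))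
    (hR : R.card < L ^ 2) (ε : ℝ) (hε : 2 * ‖w‖ ^ 2 ≤ ε) :
    Close R (prodVec b L) (catVec a b w L) ε := by
  intro u v B hB
  rw [expec_prod, expec_cat a b hab w L R hR, nrm_prodVec, nrm_catVec a b hab]
  have h0 : (0 : ℝ) < ‖w‖ ^ 2 + 1 := by positivity
  have h1 : (((‖w‖ ^ 2 + 1 : ℝ) : ℂ)) ≠ 0 := by exact_mod_cast h0.ne'
  have h2 : B (fun _ => b) (fun _ => b) / ((1 : ℝ) : ℂ) - (((‖w‖ ^ 2 : ℝ) : ℂ) * B (fun _ => a)
      (fun _ => a) + B (fun _ => b) (fun _ => b)) / ((‖w‖ ^ 2 + 1 : ℝ) : ℂ) =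
      ((‖w‖ ^ 2 : ℝ) : ℂ) * (B (fun _ => b) (fun _ => b) - B (fun _ => a) (fun _ => a)) /
        ((‖w‖ ^ 2 + 1 : ℝ) : ℂ) := by
    push_cast at h1 ⊢
    field_simp
    ring
  rw [h2, norm_div, norm_mul, Complex.norm_real, Complex.norm_real, Real.norm_of_nonneg h0.le,
    Real.norm_of_nonneg (by positivity)]
  refine le_trans ?_ hε
  have h3 := contr_diag B hB (fun _ => a)
  have h4 := contr_diag B hB (fun _ => b)
  have h5 : ‖B (fun _ => b) (fun _ => b) - B (fun _ => a) (fun _ => a)‖ ≤ 2 :=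
    (norm_sub_le _ _).trans (by linarith)
  rw [div_le_iff₀ h0]
  have h6 : 0 ≤ ‖w‖ ^ 2 := by positivity
  calc ‖w‖ ^ 2 * ‖B (fun _ => b) (fun _ => b) - B (fun _ => a) (fun _ => a)‖ ≤ ‖w‖ ^ 2 * 2 := by
        gcongr
    _ ≤ 2 * ‖w‖ ^ 2 * (‖w‖ ^ 2 + 1) := by nlinarith

end Pool.Agent.T9h50.PE
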