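import Pool.Agent.T9h50.PE.Defs

/-! A tensor of bond dimension `3` whose state on the `L × L` torus is
`(2 cos (π θ L))^L |a...a⟩ + |b...b⟩`. -/

set_option autoImplicit false
set_option linter.unusedSectionVars false

open scoped BigOperators ComplexConjugate

noncomputable section

namespace Pool.Agent.T9h50.PE

variable {α : Type} [Fintype α]

/-- propagation on the cycle -/
lemma zmod_all {L : ℕ} [NeZero L] (P : ZMod L → Prop) (h : ∀ x, P x → P (x - 1)) (x₀ : ZMod L)
    (h0 : P x₀) (y : ZMod L) : P y := by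
  have h1 : ∀ n : ℕ, P (x₀ - n) := by
    intro n
    induction n with
    | zero => simpa using h0
    | succ n ih =>
      have := h _ ih
      push_cast
      rwa [show x₀ - (n + 1 : ZMod L) = x₀ - n - 1 by ring]
  have h2 := h1 (x₀ - y).val
  rwa [ZMod.natCast_zmod_val, sub_sub_cancel] at h2

/-- the weight of a horizontal label -/
def ph (θ : ℝ) (l : Fin 3) : ℂ :=
  if l = 1 then Complex.exp (Complex.I * (Real.pi * θ)) else Complex.exp (-(Complex.I * (Real.pi * θ)))

open Classical in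
/-- the tensor -/
def catT (a b : α) (θ : ℝ) : Tensor α 3 := fun s l r dn up =>
  if s = b ∧ l = 0 ∧ r = 0 ∧ dn = 0 ∧ up = 0 then 1
  else if s = a ∧ dn = 1 ∧ up = 1 ∧ l = r ∧ l ≠ 0 then ph θ l else 0

/-- the row function -/
def rowG (θ : ℝ) {L : ℕ} [NeZero L] (k : ZMod L → Fin 3) : ℂ :=
  ∏ x : ZMod L, (if k (x - 1) = k x ∧ k (x - 1) ≠ 0 then ph θ (k (x - 1)) else 0)

lemma row_sum (θ : ℝ) (L : ℕ) [NeZero L] :
    ∑ k : ZMod L → Fin 3, rowG θ k = ((2 * Real.cos (Real.pi * θ * L) : ℝ) : ℂ) := by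
  classical
  have h1 : ∀ k : ZMod L → Fin 3, k ≠ (fun _ => 1) ∧ k ≠ (fun _ => 2) → rowG θ k = 0 := by
    intro k hk
    by_contra h
    unfold rowG at h
    rw [← ne_eq, Finset.prod_ne_zero_iff] at h
    have h2 : ∀ x, k (x - 1) = k x ∧ k (x - 1) ≠ 0 := by
      intro x
      have := h x (Finset.mem_univ _)
      by_contra h3
      rw [if_neg h3] at this
      exact this rfl
    have h3 : ∀ y, k y = k 0 := zmod_all (fun y => k y = k 0) (fun x hx => (h2 x).1.trans hx) 0 rfl
    have h4 : k 0 ≠ 0 := by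
      have := (h2 1).2
      rwa [sub_self] at this
    have h5 : k 0 = 1 ∨ k 0 = 2 := by
      revert h4
      generalize k 0 = j
      revert j
      decide
    rcases h5 with h5 | h5
    · exact hk.1 (funext fun y => (h3 y).trans h5)
    · exact hk.2 (funext fun y => (h3 y).trans h5)
  have hne : (fun _ => 1 : ZMod L → Fin 3) ≠ (fun _ => 2) := by
    intro h
    have := congrFun h 0
    revert this
    decide
  rw [Finset.sum_eq_add (fun _ => 1 : ZMod L → Fin 3) (fun _ => 2) hne (fun k _ hk => h1 k hk)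
    (fun h => absurd (Finset.mem_univ _) h) (fun h => absurd (Finset.mem_univ _) h)]
  have e1 : rowG θ (fun _ : ZMod L => (1 : Fin 3)) =
      Complex.exp (Complex.I * (Real.pi * θ * L)) := by
    unfold rowG
    simp only [ph, if_true, ne_eq, true_and]
    rw [if_pos (by decide), Finset.prod_const, Finset.card_univ, ZMod.card, ← Complex.exp_nat_mul]
    congr 1
    ring
  have e2 : rowG θ (fun _ : ZMod L => (2 : Fin 3)) =
      Complex.exp (-(Complex.I * (Real.pi * θ * L))) := by
    unfold rowG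
    have d1 : (2 : Fin 3) ≠ 0 := by decide
    have d2 : (2 : Fin 3) ≠ 1 := by decide
    simp only [ph, d1, d2, ne_eq, not_false_eq_true, and_self, if_true, if_false]
    rw [Finset.prod_const, Finset.card_univ, ZMod.card, ← Complex.exp_nat_mul]
    congr 1
    ring
  rw [e1, e2]
  push_cast
  rw [Complex.two_cos]
  congr 2 <;> ring

lemma catT_cases {L : ℕ} [NeZero L] (a b : α) (θ : ℝ) (s : Conf α L) (hor ver : Site L → Fin 3)
    (h : ∏ v : Site L, catT a b θ (s v) (hor (v.1 - 1, v.2)) (hor v) (ver (v.1, v.2 - 1)) (ver v)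
      ≠ 0) :
    ((∀ v, s v = b) ∧ (∀ v, hor v = 0) ∧ ∀ v, ver v = 0) ∨
    ((∀ v, s v = a) ∧ (∀ v, ver v = 1) ∧ ∀ v : Site L, hor (v.1 - 1, v.2) = hor v ∧
      hor (v.1 - 1, v.2) ≠ 0) := by
  classical
  rw [Finset.prod_ne_zero_iff] at h
  have h1 : ∀ v : Site L, (s v = b ∧ hor (v.1 - 1, v.2) = 0 ∧ hor v = 0 ∧ ver (v.1, v.2 - 1) = 0 ∧
      ver v = 0) ∨ (s v = a ∧ ver (v.1, v.2 - 1) = 1 ∧ ver v = 1 ∧ hor (v.1 - 1, v.2) = hor v ∧
      hor (v.1 - 1, v.2) ≠ 0) := by
    intro v
    have h2 := h v (Finset.mem_univ _)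
    unfold catT at h2
    split_ifs at h2 with h3 h4
    · exact Or.inl h3
    · exact Or.inr h4
    · exact absurd rfl h2
  by_cases hA : ∀ v, hor v ≠ 0
  · right
    have h2 : ∀ v : Site L, (s v = a ∧ ver (v.1, v.2 - 1) = 1 ∧ ver v = 1 ∧
        hor (v.1 - 1, v.2) = hor v ∧ hor (v.1 - 1, v.2) ≠ 0) := fun v =>
      (h1 v).resolve_left fun h3 => hA v h3.2.2.1
    exact ⟨fun v => (h2 v).1, fun v => (h2 v).2.2.1, fun v => (h2 v).2.2.2⟩
  · left
    push Not at hA
    obtain ⟨v₀, hv₀⟩ := hA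
    have hB : ∀ v, hor v = 0 → s v = b ∧ hor (v.1 - 1, v.2) = 0 ∧ ver (v.1, v.2 - 1) = 0 ∧
        ver v = 0 := by
      intro v hv
      rcases h1 v with h3 | h3
      · exact ⟨h3.1, h3.2.1, h3.2.2.2⟩
      · exact absurd (h3.2.2.2.1.trans hv) h3.2.2.2.2
    have hrow : ∀ y, (∃ x, hor (x, y) = 0) → ∀ x, hor (x, y) = 0 := by
      rintro y ⟨x₀, hx₀⟩
      exact zmod_all (fun x => hor (x, y) = 0) (fun x hx => (hB (x, y) hx).2.1) x₀ hx₀
    have hcol : ∀ y, ∃ x, hor (x, y) = 0 := by
      refine zmod_all _ ?_ v₀.2 ⟨v₀.1, hv₀⟩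
      rintro y ⟨x, hx⟩
      refine ⟨x, ?_⟩
      have h3 := (hB (x, y) hx).2.2.1
      rcases h1 (x, y - 1) with h4 | h4
      · exact h4.2.2.1
      · simp only at h3 h4
        rw [h4.2.2.1] at h3
        exact absurd h3 (by decide)
    have hall : ∀ v, hor v = 0 := fun v => hrow v.2 (hcol v.2) v.1
    exact ⟨fun v => (hB v (hall v)).1, hall, fun v => (hB v (hall v)).2.2.2⟩

open Classical in
theorem peps_cat (a b : α) (hab : a ≠ b) (θ : ℝ) (L : ℕ) [NeZero L] (s : Conf α L) :
    peps (catT a b θ) L s = if s = (fun _ => a) then (((2 * Real.cos (Real.pi * θ * L)) ^ L : ℝ) : ℂ)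
      else if s = (fun _ => b) then 1 else 0 := by
  unfold peps
  split_ifs with h1 h2
  · -- all `a`
    subst h1
    have h3 : ∀ hor ver : Site L → Fin 3, ver ≠ (fun _ => 1) →
        ∏ v : Site L, catT a b θ a (hor (v.1 - 1, v.2)) (hor v) (ver (v.1, v.2 - 1)) (ver v) = 0 := by
      intro hor ver hver
      by_contra h
      rcases catT_cases a b θ (fun _ : Site L => a) hor ver h with h4 | h4
      · exact hab (h4.1 (0, 0))
      · exact hver (funext h4.2.1)
    have h4 : ∀ hor : Site L → Fin 3,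
        ∑ ver : Site L → Fin 3, ∏ v : Site L, catT a b θ a (hor (v.1 - 1, v.2)) (hor v)
          (ver (v.1, v.2 - 1)) (ver v) = ∏ y : ZMod L, rowG θ (fun x => hor (x, y)) := by
      intro hor
      rw [Finset.sum_eq_single (fun _ => 1) (fun ver _ hver => h3 hor ver hver)
        (fun h => absurd (Finset.mem_univ _) h)]
      unfold rowG
      rw [Fintype.prod_prod_type_right]
      refine Finset.prod_congr rfl fun y _ => Finset.prod_congr rfl fun x _ => ?_
      simp only [catT]
      rw [if_neg (fun h => hab h.1)]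
      simp
    rw [Finset.sum_congr rfl fun hor _ => h4 hor]
    have h5 : ∑ hor : Site L → Fin 3, ∏ y : ZMod L, rowG θ (fun x => hor (x, y)) =
        ∑ g : ZMod L → (ZMod L → Fin 3), ∏ y : ZMod L, rowG θ (g y) := by
      refine Fintype.sum_equiv ⟨fun hor y x => hor (x, y), fun g p => g p.2 p.1, fun _ => rfl,
        fun _ => rfl⟩ _ _ fun hor => rfl
    rw [h5]
    have h6 := (Finset.prod_univ_sum (fun _ : ZMod L => (Finset.univ : Finset (ZMod L → Fin 3)))
      (fun _ k => rowG θ k)).symm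
    rw [Fintype.piFinset_univ] at h6
    rw [h6, row_sum, Finset.prod_const, Finset.card_univ, ZMod.card]
    push_cast
    ring
  · -- all `b`
    subst h2
    have h3 : ∀ hor ver : Site L → Fin 3, (hor ≠ (fun _ => 0) ∨ ver ≠ (fun _ => 0)) →
        ∏ v : Site L, catT a b θ b (hor (v.1 - 1, v.2)) (hor v) (ver (v.1, v.2 - 1)) (ver v) = 0 := by
      intro hor ver hver
      by_contra h
      rcases catT_cases a b θ (fun _ : Site L => b) hor ver h with h4 | h4
      · rcases hver with h5 | h5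
        · exact h5 (funext h4.2.1)
        · exact h5 (funext h4.2.2)
      · exact hab (h4.1 (0, 0)).symm
    rw [Finset.sum_eq_single (fun _ => 0) (fun hor _ hhor => Finset.sum_eq_zero fun ver _ =>
      h3 hor ver (Or.inl hhor)) (fun h => absurd (Finset.mem_univ _) h)]
    refine (Finset.sum_eq_single (fun _ => 0) (fun ver _ hver => h3 (fun _ => 0) ver (Or.inr hver))
      (fun h => absurd (Finset.mem_univ _) h)).trans ?_
    simp [catT]
  · refine Finset.sum_eq_zero fun hor _ => Finset.sum_eq_zero fun ver _ => ?_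
    by_contra h
    rcases catT_cases a b θ s hor ver h with h4 | h4
    · exact h2 (funext h4.1)
    · exact h1 (funext h4.1)

end Pool.Agent.T9h50.PE
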