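import Pool.Agent.T9h50.PE.AE

/-! Sets of binary sequences of small exponential growth along a set of indices are null sets. -/

set_option autoImplicit false

open MeasureTheory
open scoped ENNReal

noncomputable section

namespace Pool.Agent.T9h50.PE

/-- the number of the elements of `𝓛` in `[1, N]` -/
def cnt (𝓛 : Set ℕ) (N : ℕ) : ℕ := (𝓛 ∩ Set.Icc 1 N).ncard

lemma cnt_mono (𝓛 : Set ℕ) {M N : ℕ} (h : M ≤ N) : cnt 𝓛 M ≤ cnt 𝓛 N := by
  refine Set.ncard_le_ncard (fun x hx => ⟨hx.1, hx.2.1, hx.2.2.trans h⟩) ?_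
  exact (Set.finite_Icc 1 N).subset Set.inter_subset_right

theorem null_of_expGrowth (𝓛 : Set ℕ) (hL : SuperLog 𝓛) (n : ℕ) (ρ : ℝ) (hρ : ρ < Real.log 2)
    (E : Set (ℕ → Bool)) (K : ℕ) (C : ℝ) (hC0 : 0 ≤ C)
    (hC : ∀ (N : ℕ) (W : Finset ℕ), (∀ L ∈ W, L ∈ 𝓛 ∧ n ≤ L ∧ 1 ≤ L ∧ L ≤ N) →
      ∀ S : Finset (W → Bool), (∀ τ ∈ S, ∃ c ∈ E, ∀ L : W, c L = τ L) →
        (S.card : ℝ) ≤ C * (N + 1 : ℝ) ^ K * Real.exp (ρ * cnt 𝓛 N)) : coin E = 0 := by
  classical
  have hl2 : 0 < Real.log 2 := Real.log_pos (by norm_num)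
  set d : ℝ := Real.log 2 - ρ with hd
  have hd0 : 0 < d := by rw [hd]; linarith
  have key : ∀ T : ℝ, 0 ≤ T → coin E ≤ ENNReal.ofReal (C * 2 ^ n * Real.exp (-T)) := by
    intro T hT
    set C₀ : ℝ := 4 * K / d + 2 * T / (d * Real.log 2) with hC₀
    have hC₀0 : 0 ≤ C₀ := by positivity
    obtain ⟨N, hN, h1⟩ := hL C₀
    have hfin : (𝓛 ∩ Set.Ici n ∩ Set.Icc 1 N).Finite :=
      (Set.finite_Icc 1 N).subset Set.inter_subset_right
    set W : Finset ℕ := hfin.toFinset with hW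
    have hWc : (𝓛 ∩ Set.Ici n ∩ Set.Icc 1 N).ncard = W.card := Set.ncard_eq_toFinset_card _ hfin
    have hWn : (cnt 𝓛 N : ℝ) ≤ W.card + n := by
      have h2 : (𝓛 ∩ Set.Icc 1 N) ⊆ (𝓛 ∩ Set.Ici n ∩ Set.Icc 1 N) ∪ (Finset.range n : Set ℕ) := by
        intro x hx
        by_cases hxn : n ≤ x
        · exact Or.inl ⟨⟨hx.1, hxn⟩, hx.2⟩
        · right
          simpa using hxn
      have h3 : cnt 𝓛 N ≤ (𝓛 ∩ Set.Ici n ∩ Set.Icc 1 N).ncard + n := by
        refine (Set.ncard_le_ncard h2 ?_).trans ((Set.ncard_union_le _ _).trans ?_)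
        · exact hfin.union (Finset.finite_toSet _)
        · rw [Set.ncard_coe_finset, Finset.card_range]
      rw [hWc] at h3
      exact_mod_cast h3
    have hWm : ∀ L ∈ W, L ∈ 𝓛 ∧ n ≤ L ∧ 1 ≤ L ∧ L ≤ N := by
      intro L hL
      rw [hW, Set.Finite.mem_toFinset] at hL
      exact ⟨hL.1.1, hL.1.2, hL.2.1, hL.2.2⟩
    let S : Finset (W → Bool) := Finset.univ.filter fun τ => ∃ c ∈ E, ∀ L : W, c L = τ L
    have hS := hC N W hWm S (fun τ hτ => (Finset.mem_filter.1 hτ).2)
    have hsub : E ⊆ ⋃ τ ∈ S, {c : ℕ → Bool | ∀ L ∈ W, c L = (fun n => if h : n ∈ W then τ ⟨n, h⟩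
        else false) L} := by
      intro c hc
      rw [Set.mem_iUnion₂]
      refine ⟨fun L => c L, Finset.mem_filter.2 ⟨Finset.mem_univ _, c, hc, fun L => rfl⟩, ?_⟩
      intro L hL
      simp [hL]
    have h2 : coin E ≤ S.card • (2⁻¹ : ℝ≥0∞) ^ W.card := by
      refine (measure_mono hsub).trans ((measure_biUnion_finset_le _ _).trans ?_)
      rw [← Finset.sum_const]
      exact Finset.sum_le_sum fun τ _ => (coin_cyl W _).le
    have h3 : (S.card • (2⁻¹ : ℝ≥0∞) ^ W.card) = ENNReal.ofReal (S.card * (2⁻¹ : ℝ) ^ W.card) := by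
      rw [ENNReal.ofReal_mul (by positivity), ENNReal.ofReal_natCast, nsmul_eq_mul,
        ENNReal.ofReal_pow (by positivity), ENNReal.ofReal_inv_of_pos (by norm_num)]
      norm_num
    rw [h3] at h2
    refine h2.trans (ENNReal.ofReal_le_ofReal ?_)
    -- real estimate
    have hlN : Real.log 2 ≤ Real.log N := Real.log_le_log (by norm_num) (by exact_mod_cast hN)
    have hN0 : (0 : ℝ) < N := by exact_mod_cast (by omega : 0 < N)
    have hN2 : (2 : ℝ) ≤ N := by exact_mod_cast hN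
    set a : ℝ := (cnt 𝓛 N : ℝ) with ha
    have h1' : C₀ * Real.log N ≤ a := h1
    have e1 : (2⁻¹ : ℝ) ^ W.card = Real.exp (-(W.card * Real.log 2)) := by
      rw [Real.exp_neg, mul_comm, Real.exp_mul, Real.exp_log (by norm_num), inv_pow,
        Real.rpow_natCast]
    have e2 : (N + 1 : ℝ) ^ K ≤ Real.exp (2 * K * Real.log N) := by
      have h4 : (N + 1 : ℝ) ≤ N ^ 2 := by nlinarith
      calc (N + 1 : ℝ) ^ K ≤ ((N : ℝ) ^ 2) ^ K := by gcongr
        _ = (N : ℝ) ^ (2 * K) := by rw [← pow_mul]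
        _ = Real.exp (2 * K * Real.log N) := by
            rw [mul_comm (2 * (K : ℝ)), Real.exp_mul, Real.exp_log hN0]
            rw [← Real.rpow_natCast]
            push_cast
            rfl
    have e3 : 2 * K * Real.log N ≤ a * d / 2 := by
      have h5 : 4 * K / d * Real.log N ≤ a := by
        refine le_trans ?_ h1'
        refine mul_le_mul_of_nonneg_right ?_ (hl2.le.trans hlN)
        rw [hC₀]
        have : 0 ≤ 2 * T / (d * Real.log 2) := by positivity
        linarith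
      rw [div_mul_eq_mul_div, div_le_iff₀ hd0] at h5
      linarith
    have e4 : T ≤ a * d / 2 := by
      have h5 : 2 * T / (d * Real.log 2) * Real.log 2 ≤ a := by
        refine le_trans ?_ h1'
        have h6 : 2 * T / (d * Real.log 2) ≤ C₀ := by
          rw [hC₀]
          have : 0 ≤ 4 * K / d := by positivity
          linarith
        exact mul_le_mul h6 hlN hl2.le hC₀0
      have h7 : 2 * T / (d * Real.log 2) * Real.log 2 = 2 * T / d := by
        field_simp
      rw [h7, div_le_iff₀ hd0] at h5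
      linarith
    have e5 : Real.exp (-(W.card * Real.log 2)) ≤ Real.exp (-(a * Real.log 2)) * 2 ^ n := by
      have h8 : (2 : ℝ) ^ n = Real.exp (n * Real.log 2) := by
        rw [mul_comm, Real.exp_mul, Real.exp_log (by norm_num), Real.rpow_natCast]
      rw [h8, ← Real.exp_add]
      refine Real.exp_le_exp.2 ?_
      nlinarith
    calc (S.card : ℝ) * (2⁻¹ : ℝ) ^ W.card
        ≤ (C * (N + 1 : ℝ) ^ K * Real.exp (ρ * a)) * (2⁻¹ : ℝ) ^ W.card := by gcongr
      _ ≤ (C * Real.exp (2 * K * Real.log N) * Real.exp (ρ * a)) *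
          (Real.exp (-(a * Real.log 2)) * 2 ^ n) := by
          rw [e1]; gcongr
      _ = C * 2 ^ n * Real.exp (2 * K * Real.log N + ρ * a + -(a * Real.log 2)) := by
          rw [Real.exp_add, Real.exp_add]; ring
      _ ≤ C * 2 ^ n * Real.exp (-T) := by
          gcongr
          rw [hd] at e3 e4
          linarith
  -- let `T → ∞`
  refine le_antisymm ?_ bot_le
  refine ENNReal.le_of_forall_pos_le_add ?_
  intro ε hε _
  rw [zero_add]
  by_cases hC1 : C = 0
  · have := key 0 le_rfl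
    rw [hC1] at this
    simp at this
    rw [this]
    exact bot_le
  · have hCpos : 0 < C := lt_of_le_of_ne hC0 (Ne.symm hC1)
    have hCn : 0 < C * 2 ^ n := by positivity
    have hεr : (0 : ℝ) < ε := hε
    refine (key (max 0 (Real.log (C * 2 ^ n / ε))) (le_max_left _ _)).trans ?_
    rw [← ENNReal.ofReal_coe_nnreal]
    refine ENNReal.ofReal_le_ofReal ?_
    have h8 : Real.exp (-(max 0 (Real.log (C * 2 ^ n / ε)))) ≤ ε / (C * 2 ^ n) := by
      rw [← Real.exp_log (show (0 : ℝ) < ε / (C * 2 ^ n) by positivity)]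
      refine Real.exp_le_exp.2 ?_
      have h9 : Real.log (ε / (C * 2 ^ n)) = -Real.log (C * 2 ^ n / ε) := by
        rw [← Real.log_inv, inv_div]
      rw [h9]
      exact neg_le_neg (le_max_right _ _)
    calc C * 2 ^ n * Real.exp (-(max 0 (Real.log (C * 2 ^ n / ε))))
        ≤ C * 2 ^ n * (ε / (C * 2 ^ n)) := by gcongr
      _ = ε := by field_simp

end Pool.Agent.T9h50.PE
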