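import Pool.Agent.T9h50.PE.Pert
import Pool.Agent.T9h50.PE.Exg
import Pool.Agent.T9h50.PE.Pat

/-! Counting the patterns of the ground states of interactions with gaps which are not too small. -/

set_option autoImplicit false
set_option linter.unusedSectionVars false

open MeasureTheory
open scoped BigOperators ComplexConjugate

noncomputable section

namespace Pool.Agent.T9h50.PE

variable {α : Type} [Fintype α]

/-- The lower bound for the gap at the size `L`: it is `Δ L^(-k) exp (-#(𝓛 ∩ [1, L]) / (4 b²))`. -/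
def gapFn (𝓛 : Set ℕ) (b : ℕ) (Δ : ℝ) (k L : ℕ) : ℝ :=
  Δ / (L : ℝ) ^ k * Real.exp (-((cnt 𝓛 L : ℝ) / (4 * (b : ℝ) ^ 2)))

lemma gapFn_nonneg (𝓛 : Set ℕ) (b : ℕ) (Δ : ℝ) (hΔ : 0 ≤ Δ) (k L : ℕ) : 0 ≤ gapFn 𝓛 b Δ k L := by
  unfold gapFn
  positivity

lemma nrm_nonneg {S : Type} [Fintype S] (f : S → ℂ) : 0 ≤ nrm f :=
  Finset.sum_nonneg fun _ _ => by positivity

lemma Gapped.mono {q L : ℕ} [NeZero L] {h : BConf α q → BConf α q → ℂ} {Ψ : Conf α L → ℂ} {γ γ' : ℝ}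
    (hg : Gapped h L Ψ γ) (hγ : γ' ≤ γ) : Gapped h L Ψ γ' := by
  obtain ⟨h1, E, h2, h3⟩ := hg
  refine ⟨h1, E, h2, fun φ hφ => le_trans ?_ (h3 φ hφ)⟩
  exact mul_le_mul_of_nonneg_right (by linarith) (nrm_nonneg φ)

/-- the interactions with the code -/
def code {q : ℕ} (η : ℝ) (h : BConf α q → BConf α q → ℂ) : BConf α q × BConf α q → ℤ × ℤ :=
  fun p => (⌊(h p.1 p.2).re / η⌋, ⌊(h p.1 p.2).im / η⌋)

lemma floor_close (x y η : ℝ) (hη : 0 < η) (h : ⌊x / η⌋ = ⌊y / η⌋) : |x - y| ≤ η := by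
  have h1 := Int.abs_sub_lt_one_of_floor_eq_floor h
  rw [← sub_div, abs_div, abs_of_pos hη, div_lt_one hη] at h1
  exact h1.le

lemma code_close {q : ℕ} (η : ℝ) (hη : 0 < η) (h h' : BConf α q → BConf α q → ℂ)
    (hc : code η h = code η h') (σ τ : BConf α q) : ‖h σ τ - h' σ τ‖ ≤ 2 * η := by
  have h1 := congrFun hc (σ, τ)
  have h2 := floor_close _ _ η hη (congrArg Prod.fst h1)
  have h3 := floor_close _ _ η hη (congrArg Prod.snd h1)
  refine (Complex.norm_le_abs_re_add_abs_im _).trans ?_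
  rw [Complex.sub_re, Complex.sub_im]
  simp only at h2 h3
  linarith

lemma floor_mem (x M η : ℝ) (hη : 0 < η) (h : |x| ≤ M) :
    ⌊x / η⌋ ∈ Finset.Icc (-(⌈M / η⌉ + 1)) (⌈M / η⌉ + 1) := by
  rw [abs_le] at h
  have h1 : x / η ≤ M / η := by gcongr; exact h.2
  have h2 : -(M / η) ≤ x / η := by
    rw [← neg_div]
    gcongr
    exact h.1
  rw [Finset.mem_Icc]
  constructor
  · rw [Int.le_floor]
    push_cast
    have := Int.le_ceil (M / η)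
    linarith
  · have h3 : ⌊x / η⌋ ≤ ⌈M / η⌉ := by
      have h4 : (⌊x / η⌋ : ℝ) ≤ (⌈M / η⌉ : ℝ) :=
        (Int.floor_le _).trans (h1.trans (Int.le_ceil _))
      exact_mod_cast h4
    omega

/-- the sequences which are followed by the ground states of the interactions with certain bounds -/
def Fol (P : α → Bool) (𝓛 : Set ℕ) (q k m M n : ℕ) : Set (ℕ → Bool) :=
  {c | ∃ h : BConf α q → BConf α q → ℂ, Herm h ∧
    (∀ σ τ, |(h σ τ).re| ≤ M ∧ |(h σ τ).im| ≤ M) ∧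
    ∀ (L : ℕ) [NeZero L], n ≤ L → L ∈ 𝓛 → ∃ Φ : Conf α L → ℂ,
      Gapped h L Φ (gapFn 𝓛 (Fintype.card (BConf α q)) (1 / (m + 1)) k L) ∧
      1 / (m + 1 : ℝ) ≤ (if c L then 1 else -1) * bias P Φ}

/-- one size: interactions with the same code have the same sign -/
lemma same_sign (P : α → Bool) {q L : ℕ} [NeZero L] (hq : q ≤ L) (h h' : BConf α q → BConf α q → ℂ)
    (hh : Herm h) (hh' : Herm h') (μ : ℝ) (hμ : 0 < μ) (hμ1 : μ ≤ 1) (γ η : ℝ) (hγ : 0 < γ)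
    (hη : ∀ σ τ, ‖h σ τ - h' σ τ‖ ≤ 2 * η)
    (hηγ : 2 * (2 * η * (L ^ 2 * Fintype.card (BConf α q))) ≤ μ ^ 2 / 4 * γ)
    (Φ Φ' : Conf α L → ℂ) (hΦ : Gapped h L Φ γ) (hΦ' : Gapped h' L Φ' γ) (b b' : Bool)
    (hb : μ ≤ (if b then 1 else -1) * bias P Φ) (hb' : μ ≤ (if b' then 1 else -1) * bias P Φ') :
    b = b' := by
  obtain ⟨χ, h1, h2, h3⟩ := ground_close hq h h' hh hh' (2 * η) hη Φ Φ' γ hΦ (hΦ'.mono hγ.le)
  have h4 : nrm χ ≤ μ ^ 2 / 4 := by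
    have h5 : γ * nrm χ ≤ γ * (μ ^ 2 / 4) := by linarith
    exact le_of_mul_le_mul_left h5 hγ
  have h5 := bias_close P Φ Φ' χ _ hΦ.1 h1 h2 (μ / 2) (by positivity)
  have h6 : nrm χ / (μ / 2) ≤ μ / 2 := by
    rw [div_le_iff₀ (by positivity)]
    nlinarith
  have h7 : |bias P Φ' - bias P Φ| < 2 * μ := by
    have : 2 * nrm χ ≤ μ / 2 := by nlinarith
    linarith
  rw [abs_lt] at h7
  by_contra hne
  cases b <;> cases b' <;> simp_all <;> linarith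

theorem fol_null (P : α → Bool) (𝓛 : Set ℕ) (h𝓛 : SuperLog 𝓛) (q k m M n : ℕ) (hqn : q ≤ n) :
    coin (Fol P 𝓛 q k m M n) = 0 := by
  classical
  set b := Fintype.card (BConf α q) with hb
  set μ : ℝ := 1 / (m + 1) with hμ
  have hμ0 : 0 < μ := by positivity
  have hμ1 : μ ≤ 1 := by
    rw [hμ, div_le_one (by positivity)]
    have : (0 : ℝ) ≤ m := Nat.cast_nonneg m
    linarith
  set C₁ : ℝ := 32 * M * (b + 1) / μ ^ 3 + 5 with hC₁
  have hC₁0 : 0 ≤ C₁ := by positivity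
  have hC₁5 : 5 ≤ C₁ := by
    rw [hC₁]
    have : 0 ≤ 32 * (M : ℝ) * (b + 1) / μ ^ 3 := by positivity
    linarith
  refine null_of_expGrowth 𝓛 h𝓛 n (1 / 2) (by
    have := Real.log_two_gt_d9
    linarith) _ ((k + 2) * 2 * b ^ 2) (C₁ ^ (2 * b ^ 2)) (by positivity) ?_
  intro N W hW S hS
  -- the case without box configurations
  have hexp : ∀ L ≤ N, Real.exp (-((cnt 𝓛 N : ℝ) / (4 * (b : ℝ) ^ 2))) ≤
      Real.exp (-((cnt 𝓛 L : ℝ) / (4 * (b : ℝ) ^ 2))) := by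
    intro L hL
    refine Real.exp_le_exp.2 (neg_le_neg ?_)
    have : (cnt 𝓛 L : ℝ) ≤ cnt 𝓛 N := by exact_mod_cast cnt_mono 𝓛 hL
    gcongr
  set e : ℝ := Real.exp (-((cnt 𝓛 N : ℝ) / (4 * (b : ℝ) ^ 2))) with he
  have he0 : 0 < e := Real.exp_pos _
  set η : ℝ := μ ^ 3 * e / (16 * (b + 1) * (N + 1 : ℝ) ^ (k + 2)) with hη
  have hη0 : 0 < η := by positivity
  -- choose interactions
  have hS' : ∀ τ : W → Bool, ∃ h : BConf α q → BConf α q → ℂ, τ ∈ S → (Herm h ∧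
      (∀ σ τ, |(h σ τ).re| ≤ M ∧ |(h σ τ).im| ≤ M) ∧
      ∀ (L : ℕ) [NeZero L] (hL : L ∈ W), ∃ Φ : Conf α L → ℂ,
        Gapped h L Φ (gapFn 𝓛 b μ k L) ∧ μ ≤ (if τ ⟨L, hL⟩ then 1 else -1) * bias P Φ) := by
    intro τ
    by_cases hτ : τ ∈ S
    · obtain ⟨c, ⟨h, h1, h2, h3⟩, hc⟩ := hS τ hτ
      refine ⟨h, fun _ => ⟨h1, h2, fun L _ hL => ?_⟩⟩
      obtain ⟨Φ, h4, h5⟩ := h3 L (hW L hL).2.1 (hW L hL).1
      refine ⟨Φ, h4, ?_⟩
      rw [← hc ⟨L, hL⟩]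
      exact h5
    · exact ⟨0, fun h => absurd h hτ⟩
  choose H hH using hS'
  set Z : ℤ := ⌈(M : ℝ) / η⌉ + 1 with hZ
  have hZ0 : 0 ≤ Z := by
    have : 0 ≤ ⌈(M : ℝ) / η⌉ := Int.ceil_nonneg (by positivity)
    omega
  let T : Finset (BConf α q × BConf α q → ℤ × ℤ) :=
    Fintype.piFinset fun _ => Finset.Icc (-Z) Z ×ˢ Finset.Icc (-Z) Z
  have hmem : ∀ τ ∈ S, code η (H τ) ∈ T := by
    intro τ hτ
    rw [Fintype.mem_piFinset]
    intro p
    rw [Finset.mem_product]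
    exact ⟨floor_mem _ _ _ hη0 ((hH τ hτ).2.1 p.1 p.2).1, floor_mem _ _ _ hη0 ((hH τ hτ).2.1 p.1 p.2).2⟩
  have hinj : Set.InjOn (fun τ => code η (H τ)) (S : Set (W → Bool)) := by
    intro τ hτ τ' hτ' hcode
    funext ⟨L, hL⟩
    obtain ⟨-, hnL, h1L, hLN⟩ := hW L hL
    haveI : NeZero L := ⟨by omega⟩
    obtain ⟨Φ, h4, h5⟩ := (hH τ hτ).2.2 L hL
    obtain ⟨Φ', h4', h5'⟩ := (hH τ' hτ').2.2 L hL
    have hL1 : (1 : ℝ) ≤ L := by exact_mod_cast h1L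
    have hLN' : (L : ℝ) ≤ N + 1 := by
      have : (L : ℝ) ≤ N := by exact_mod_cast hLN
      linarith
    have hγ : 0 < gapFn 𝓛 b μ k L := by
      unfold gapFn
      positivity
    refine same_sign P (hqn.trans hnL) (H τ) (H τ') (hH τ hτ).1 (hH τ' hτ').1 μ hμ0 hμ1
      (gapFn 𝓛 b μ k L) η hγ (code_close η hη0 _ _ hcode) ?_ Φ Φ' h4 h4' _ _ h5 h5'
    -- the estimate
    have g1 : μ * e / (N + 1 : ℝ) ^ k ≤ gapFn 𝓛 b μ k L := by
      have g0 : gapFn 𝓛 b μ k L =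
          μ * Real.exp (-((cnt 𝓛 L : ℝ) / (4 * (b : ℝ) ^ 2))) / (L : ℝ) ^ k := by
        unfold gapFn
        ring
      rw [g0]
      refine div_le_div₀ (by positivity) (mul_le_mul_of_nonneg_left (hexp L hLN) hμ0.le)
        (by positivity) (pow_le_pow_left₀ (by positivity) hLN' k)
    calc 2 * (2 * η * ((L : ℝ) ^ 2 * Fintype.card (BConf α q)))
        ≤ 2 * (2 * η * ((N + 1 : ℝ) ^ 2 * (b + 1))) := by
          have : (Fintype.card (BConf α q) : ℝ) ≤ b + 1 := by rw [← hb]; linarith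
          gcongr
      _ = μ ^ 2 / 4 * (μ * e / (N + 1 : ℝ) ^ k) := by
          rw [hη, pow_add]
          have : (0 : ℝ) < N + 1 := by positivity
          field_simp
          ring
      _ ≤ μ ^ 2 / 4 * gapFn 𝓛 b μ k L := by gcongr
  have hcard : S.card ≤ T.card := Finset.card_le_card_of_injOn _ hmem hinj
  have hT : T.card = (((2 * Z + 1).toNat) ^ 2) ^ (b ^ 2) := by
    simp only [T, Fintype.card_piFinset, Finset.card_product, Int.card_Icc, Finset.prod_const,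
      Finset.card_univ, Fintype.card_prod]
    rw [← hb]
    have : (Z + 1 - -Z) = 2 * Z + 1 := by ring
    rw [this, ← sq, ← sq]
  have hZr : (((2 * Z + 1).toNat : ℕ) : ℝ) ≤ C₁ * (N + 1 : ℝ) ^ (k + 2) *
      Real.exp ((cnt 𝓛 N : ℝ) / (4 * (b : ℝ) ^ 2)) := by
    have h1 : (((2 * Z + 1).toNat : ℕ) : ℝ) = 2 * (Z : ℝ) + 1 := by
      have : (((2 * Z + 1).toNat : ℤ) : ℝ) = ((2 * Z + 1 : ℤ) : ℝ) := by
        rw [Int.toNat_of_nonneg (by omega)]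
      rw [← Int.cast_natCast, this]
      push_cast
      ring
    have h2 : (Z : ℝ) ≤ M / η + 2 := by
      rw [hZ]
      push_cast
      have := (Int.ceil_lt_add_one ((M : ℝ) / η)).le
      linarith
    have h3 : (M : ℝ) / η = 16 * M * (b + 1) / μ ^ 3 * ((N + 1 : ℝ) ^ (k + 2) * e⁻¹) := by
      rw [hη]
      field_simp
    have h4 : e⁻¹ = Real.exp ((cnt 𝓛 N : ℝ) / (4 * (b : ℝ) ^ 2)) := by
      rw [he, ← Real.exp_neg, neg_neg]
    set X : ℝ := (N + 1 : ℝ) ^ (k + 2) * Real.exp ((cnt 𝓛 N : ℝ) / (4 * (b : ℝ) ^ 2)) with hX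
    have hX1 : 1 ≤ X := by
      have e1 : (1 : ℝ) ≤ (N + 1 : ℝ) ^ (k + 2) := one_le_pow₀ (by
        have : (0 : ℝ) ≤ N := Nat.cast_nonneg N
        linarith)
      have e2 : 1 ≤ Real.exp ((cnt 𝓛 N : ℝ) / (4 * (b : ℝ) ^ 2)) := Real.one_le_exp (by positivity)
      calc (1 : ℝ) = 1 * 1 := by ring
        _ ≤ X := by rw [hX]; gcongr
    rw [h1, mul_assoc C₁, ← hX, hC₁]
    rw [h4] at h3
    rw [← hX] at h3
    have h5 : (2 : ℝ) * Z + 1 ≤ 2 * (16 * M * (b + 1) / μ ^ 3 * X + 2) + 1 := by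
      rw [← h3]
      linarith
    have h6 : 2 * (16 * (M : ℝ) * (b + 1) / μ ^ 3 * X + 2) + 1 =
        32 * M * (b + 1) / μ ^ 3 * X + 5 * 1 := by ring
    rw [h6] at h5
    refine h5.trans ?_
    rw [add_mul]
    gcongr
  calc (S.card : ℝ) ≤ (T.card : ℝ) := by exact_mod_cast hcard
    _ = ((((2 * Z + 1).toNat : ℕ) : ℝ) ^ 2) ^ (b ^ 2) := by
        rw [hT]; push_cast; rfl
    _ ≤ ((C₁ * (N + 1 : ℝ) ^ (k + 2) *
        Real.exp ((cnt 𝓛 N : ℝ) / (4 * (b : ℝ) ^ 2))) ^ 2) ^ (b ^ 2) := by gcongr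
    _ = C₁ ^ (2 * b ^ 2) * (N + 1 : ℝ) ^ ((k + 2) * 2 * b ^ 2) *
        Real.exp ((cnt 𝓛 N : ℝ) / (4 * (b : ℝ) ^ 2)) ^ (2 * b ^ 2) := by
        rw [← pow_mul, mul_pow, mul_pow, ← pow_mul, mul_assoc (k + 2)]
    _ ≤ C₁ ^ (2 * b ^ 2) * (N + 1 : ℝ) ^ ((k + 2) * 2 * b ^ 2) * Real.exp (1 / 2 * cnt 𝓛 N) := by
        have h1 : Real.exp ((cnt 𝓛 N : ℝ) / (4 * (b : ℝ) ^ 2)) ^ (2 * b ^ 2) ≤
            Real.exp (1 / 2 * cnt 𝓛 N) := by
          rw [← Real.exp_nat_mul]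
          refine Real.exp_le_exp.2 ?_
          by_cases hb0 : b = 0
          · rw [hb0]
            simp
          · have : (b : ℝ) ≠ 0 := by exact_mod_cast hb0
            push_cast
            apply le_of_eq
            field_simp
            ring
        gcongr

end Pool.Agent.T9h50.PE
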