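import Pool.Agent.T9h50.PE.Defs
import Pool.Agent.H247R2.Warren

/-! The number of the sign patterns which a PEPS tensor can produce. -/

set_option autoImplicit false
set_option linter.unusedSectionVars false

open scoped BigOperators ComplexConjugate
open MvPolynomial

noncomputable section

namespace Pool.Agent.T9h50.PE

/-- `F` is given by real polynomials of degree at most `k` -/
def Pol {ι : Type} (k : ℕ) (F : (ι → ℝ) → ℂ) : Prop :=
  ∃ P Q : MvPolynomial ι ℝ, P.totalDegree ≤ k ∧ Q.totalDegree ≤ k ∧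
    ∀ x, F x = ⟨eval x P, eval x Q⟩

variable {ι : Type}

lemma Pol.mono {k l : ℕ} {F : (ι → ℝ) → ℂ} (h : Pol k F) (hkl : k ≤ l) : Pol l F := by
  obtain ⟨P, Q, h1, h2, h3⟩ := h
  exact ⟨P, Q, h1.trans hkl, h2.trans hkl, h3⟩

lemma Pol.const (k : ℕ) (c : ℂ) : Pol k (fun _ : ι → ℝ => c) :=
  ⟨C c.re, C c.im, by simp, by simp, fun x => by simp⟩

lemma Pol.add {k : ℕ} {F G : (ι → ℝ) → ℂ} (hF : Pol k F) (hG : Pol k G) :
    Pol k (fun x => F x + G x) := by
  obtain ⟨P, Q, h1, h2, h3⟩ := hF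
  obtain ⟨P', Q', h1', h2', h3'⟩ := hG
  refine ⟨P + P', Q + Q', (totalDegree_add _ _).trans (max_le h1 h1'),
    (totalDegree_add _ _).trans (max_le h2 h2'), fun x => ?_⟩
  change F x + G x = _
  rw [h3, h3']
  apply Complex.ext <;> simp

lemma Pol.mul {k l : ℕ} {F G : (ι → ℝ) → ℂ} (hF : Pol k F) (hG : Pol l G) :
    Pol (k + l) (fun x => F x * G x) := by
  obtain ⟨P, Q, h1, h2, h3⟩ := hF
  obtain ⟨P', Q', h1', h2', h3'⟩ := hG
  refine ⟨P * P' - Q * Q', P * Q' + Q * P', ?_, ?_, fun x => ?_⟩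
  · refine (totalDegree_sub _ _).trans (max_le ?_ ?_)
    · exact (totalDegree_mul _ _).trans (by omega)
    · exact (totalDegree_mul _ _).trans (by omega)
  · refine (totalDegree_add _ _).trans (max_le ?_ ?_)
    · exact (totalDegree_mul _ _).trans (by omega)
    · exact (totalDegree_mul _ _).trans (by omega)
  · change F x * G x = _
    rw [h3, h3']
    apply Complex.ext <;> simp

lemma Pol.sum {κ : Type} (s : Finset κ) {k : ℕ} {F : κ → (ι → ℝ) → ℂ} (h : ∀ i ∈ s, Pol k (F i)) :
    Pol k (fun x => ∑ i ∈ s, F i x) := by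
  classical
  induction s using Finset.induction_on with
  | empty => simpa using Pol.const k 0
  | insert a s ha ih =>
    have h1 := (h a (Finset.mem_insert_self a s)).add
      (ih fun i hi => h i (Finset.mem_insert_of_mem hi))
    simpa only [Finset.sum_insert ha] using h1

lemma Pol.prod {κ : Type} (s : Finset κ) {F : κ → (ι → ℝ) → ℂ} (h : ∀ i ∈ s, Pol 1 (F i)) :
    Pol s.card (fun x => ∏ i ∈ s, F i x) := by
  classical
  induction s using Finset.induction_on with
  | empty => simpa using Pol.const 0 1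
  | insert a s ha ih =>
    have h1 := (h a (Finset.mem_insert_self a s)).mul
      (ih fun i hi => h i (Finset.mem_insert_of_mem hi))
    rw [Finset.card_insert_of_notMem ha]
    simpa only [Finset.prod_insert ha, add_comm] using h1

lemma Pol.normSq {k : ℕ} {F : (ι → ℝ) → ℂ} (h : Pol k F) :
    ∃ P : MvPolynomial ι ℝ, P.totalDegree ≤ 2 * k ∧ ∀ x, ‖F x‖ ^ 2 = eval x P := by
  obtain ⟨P, Q, h1, h2, h3⟩ := h
  refine ⟨P ^ 2 + Q ^ 2, ?_, fun x => ?_⟩
  · refine (totalDegree_add _ _).trans (max_le ?_ ?_)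
    · exact (totalDegree_pow _ _).trans (by omega)
    · exact (totalDegree_pow _ _).trans (by omega)
  · rw [h3, ← Complex.normSq_eq_norm_sq, Complex.normSq_mk]
    simp [sq]

variable {α : Type} [Fintype α]

/-- the labels of the real parameters of a tensor -/
abbrev Par (α : Type) (D : ℕ) := (α × Fin D × Fin D × Fin D × Fin D) × Bool

/-- the tensor with given real parameters -/
def tens {D : ℕ} (x : Par α D → ℝ) : Tensor α D :=
  fun s l r u n => ⟨x ((s, l, r, u, n), true), x ((s, l, r, u, n), false)⟩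

lemma tens_surj {D : ℕ} (A : Tensor α D) : ∃ x, tens x = A :=
  ⟨fun p => if p.2 then (A p.1.1 p.1.2.1 p.1.2.2.1 p.1.2.2.2.1 p.1.2.2.2.2).re
    else (A p.1.1 p.1.2.1 p.1.2.2.1 p.1.2.2.2.1 p.1.2.2.2.2).im, by
    funext s l r u n
    apply Complex.ext <;> simp [tens]⟩

lemma peps_pol (D L : ℕ) [NeZero L] (s : Conf α L) :
    Pol (L ^ 2) (fun x : Par α D → ℝ => peps (tens x) L s) := by
  unfold peps
  refine Pol.sum _ fun hor _ => Pol.sum _ fun ver _ => ?_
  have h := Pol.prod (ι := Par α D) (Finset.univ : Finset (Site L))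
    (F := fun v x => tens x (s v) (hor (v.1 - 1, v.2)) (hor v) (ver (v.1, v.2 - 1)) (ver v))
    (fun v _ => by
      refine ⟨X ((s v, hor (v.1 - 1, v.2), hor v, ver (v.1, v.2 - 1), ver v), true),
        X ((s v, hor (v.1 - 1, v.2), hor v, ver (v.1, v.2 - 1), ver v), false), ?_, ?_, ?_⟩
      · rw [totalDegree_X]
      · rw [totalDegree_X]
      · intro x
        simp [tens])
  refine h.mono ?_
  rw [Finset.card_univ, Fintype.card_prod, ZMod.card, sq]

/-- the weight of the configurations with the property `P` at the site `0` minus the weight of the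
others -/
def bias {L : ℕ} [NeZero L] (P : α → Bool) (Φ : Conf α L → ℂ) : ℝ :=
  ∑ s : Conf α L, (if P (s (0, 0)) then 1 else -1) * ‖Φ s‖ ^ 2

lemma bias_pol (P : α → Bool) (D L : ℕ) [NeZero L] :
    ∃ f : MvPolynomial (Par α D) ℝ, f.totalDegree ≤ 2 * L ^ 2 ∧
      ∀ x, bias P (peps (tens x) L) = eval x f := by
  choose f hf1 hf2 using fun s : Conf α L => (peps_pol D L s).normSq
  refine ⟨∑ s, C (if P (s (0, 0)) then 1 else -1) * f s, ?_, fun x => ?_⟩
  · refine totalDegree_finsetSum_le fun s _ => ?_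
    refine (totalDegree_mul _ _).trans ?_
    rw [totalDegree_C, zero_add]
    exact hf1 s
  · unfold bias
    rw [map_sum]
    refine Finset.sum_congr rfl fun s _ => ?_
    rw [map_mul, eval_C, ← hf2 s x]

/-- the sign of the bias is `τ` -/
def Sgn (τ : Bool) (r : ℝ) : Prop := if τ then 0 < r else r < 0

/-- the number of the patterns of the bias at the sizes in `W` -/
theorem pattern_count (P : α → Bool) (D N : ℕ) (W : Finset ℕ) (hW : ∀ L ∈ W, 0 < L ∧ L ≤ N)
    (S : Finset (W → Bool))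
    (hS : ∀ τ ∈ S, ∃ A : Tensor α D, ∀ (L : ℕ) [NeZero L] (hL : L ∈ W),
      Sgn (τ ⟨L, hL⟩) (bias P (peps A L))) :
    S.card ≤ (8 * W.card * N ^ 2 + 1) ^ (2 * Fintype.card α * D ^ 4) := by
  classical
  have hf : ∀ L : W, ∃ f : MvPolynomial (Par α D) ℝ, f.totalDegree ≤ 2 * N ^ 2 ∧
      ∀ [NeZero (L : ℕ)] x, bias P (peps (tens x) (L : ℕ)) = eval x f := by
    intro L
    have : NeZero (L : ℕ) := ⟨by have := (hW L L.2).1; omega⟩
    obtain ⟨f, h1, h2⟩ := bias_pol P D (L : ℕ)
    refine ⟨f, h1.trans ?_, fun x => h2 x⟩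
    have := (hW L L.2).2
    gcongr
  choose f hf1 hf2 using hf
  -- sign vectors
  let e : (W → Bool) → (W → SignType) := fun τ L => if τ L then 1 else -1
  have he : Function.Injective e := by
    intro τ τ' h
    funext L
    have h1 := congrFun h L
    simp only [e] at h1
    cases h2 : τ L <;> cases h3 : τ' L <;> simp [h2, h3] at h1 ⊢
  have h1 := Pool.Agent.H247R2.Warren.sign_count f (2 * N ^ 2) hf1 (S.image e) (by
    intro σ hσ
    rw [Finset.mem_image] at hσ
    obtain ⟨τ, hτ, rfl⟩ := hσ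
    obtain ⟨A, hA⟩ := hS τ hτ
    obtain ⟨x, rfl⟩ := tens_surj A
    refine ⟨x, fun L => ?_⟩
    have : NeZero (L : ℕ) := ⟨by have := (hW L L.2).1; omega⟩
    have h2 := hA L L.2
    rw [hf2 L x] at h2
    simp only [e]
    unfold Sgn at h2
    split_ifs at h2 ⊢ with h3
    · exact sign_pos h2
    · exact sign_neg h2)
  rw [Finset.card_image_of_injective _ he] at h1
  refine h1.trans (le_of_eq ?_)
  simp only [Fintype.card_coe, Fintype.card_prod, Fintype.card_fin, Fintype.card_bool]
  congr 1 <;> ring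

end Pool.Agent.T9h50.PE
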