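import Mathlib

/-! A twisted translation along a cycle of length `T`: the bottom of the spectrum. -/

set_option autoImplicit false

open scoped BigOperators ComplexConjugate

noncomputable section

namespace Pool.Agent.T9h50.PE

/-- the number `exp (2 π i x)` -/
def ex (x : ℝ) : ℂ := Complex.exp (2 * Real.pi * x * Complex.I)

lemma ex_add (x y : ℝ) : ex (x + y) = ex x * ex y := by
  unfold ex
  rw [← Complex.exp_add]
  congr 1
  push_cast
  ring

lemma ex_zero : ex 0 = 1 := by simp [ex]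

lemma ex_neg_mul (x : ℝ) : ex (-x) * ex x = 1 := by
  rw [← ex_add, neg_add_cancel, ex_zero]

lemma norm_ex (x : ℝ) : ‖ex x‖ = 1 := by
  unfold ex
  rw [show 2 * (Real.pi : ℂ) * x * Complex.I = ((2 * Real.pi * x : ℝ) : ℂ) * Complex.I by push_cast; ring]
  exact Complex.norm_exp_ofReal_mul_I _

lemma conj_ex (x : ℝ) : conj (ex x) = ex (-x) := by
  unfold ex
  rw [← Complex.exp_conj]
  congr 1
  simp only [map_mul, Complex.conj_ofReal, Complex.conj_I, map_ofNat]
  push_cast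
  ring

lemma ex_int (k : ℤ) : ex k = 1 := by
  unfold ex
  rw [Complex.exp_eq_one_iff]
  exact ⟨k, by push_cast; ring⟩

lemma ex_nat_mul (n : ℕ) (x : ℝ) : ex (n * x) = ex x ^ n := by
  induction n with
  | zero => simp [ex_zero]
  | succ n ih =>
    rw [pow_succ, ← ih, ← ex_add]
    congr 1
    push_cast
    ring

lemma norm_one_sub_ex (x : ℝ) : ‖1 - ex x‖ ^ 2 = 2 - 2 * Real.cos (2 * Real.pi * x) := by
  have h : ex x = ⟨Real.cos (2 * Real.pi * x), Real.sin (2 * Real.pi * x)⟩ := by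
    unfold ex
    rw [show 2 * (Real.pi : ℂ) * x * Complex.I = ((2 * Real.pi * x : ℝ) : ℂ) * Complex.I by
      push_cast; ring]
    apply Complex.ext
    · rw [Complex.exp_ofReal_mul_I_re]
    · rw [Complex.exp_ofReal_mul_I_im]
  rw [← Complex.normSq_eq_norm_sq, h, Complex.normSq_apply]
  simp only [Complex.sub_re, Complex.one_re, Complex.sub_im, Complex.one_im]
  nlinarith [Real.sin_sq_add_cos_sq (2 * Real.pi * x)]

/-- sums of characters -/
lemma sum_ex (T : ℕ) (k l : ℕ) (hk : k < T) (hl : l < T) :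
    ∑ m ∈ Finset.range T, ex (m * ((k : ℝ) - l) / T) = if k = l then (T : ℂ) else 0 := by
  have hT : (T : ℝ) ≠ 0 := by
    have : 0 < T := by omega
    positivity
  split_ifs with h
  · subst h
    simp [ex_zero]
  · set z := ex (((k : ℝ) - l) / T) with hz
    have h1 : ∀ m ∈ Finset.range T, ex (m * ((k : ℝ) - l) / T) = z ^ m := by
      intro m _
      rw [hz, ← ex_nat_mul]
      congr 1
      ring
    rw [Finset.sum_congr rfl h1]
    have h2 : z ^ T = 1 := by
      rw [hz, ← ex_nat_mul]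
      have : (T : ℝ) * (((k : ℝ) - l) / T) = ((k - l : ℤ) : ℝ) := by
        field_simp
        push_cast
        ring
      rw [this, ex_int]
    have h3 : z ≠ 1 := by
      intro h4
      rw [hz, ex, Complex.exp_eq_one_iff] at h4
      obtain ⟨n, hn⟩ := h4
      have h5 : (((k : ℝ) - l) / T : ℝ) = n := by
        have h6 : (2 * Real.pi * Complex.I : ℂ) ≠ 0 := by
          simp [Real.pi_ne_zero]
        have h7 : ((((k : ℝ) - l) / T : ℝ) : ℂ) * (2 * Real.pi * Complex.I) =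
            (n : ℂ) * (2 * Real.pi * Complex.I) := by
          rw [← hn]; ring
        have h8 := mul_right_cancel₀ h6 h7
        exact_mod_cast h8
      rw [div_eq_iff hT] at h5
      have h9 : (k : ℤ) - l = n * T := by exact_mod_cast h5
      have h10 : (T : ℤ) ∣ (k : ℤ) - l := ⟨n, by rw [h9]; ring⟩
      have h11 : (k : ℤ) - l = 0 := by
        apply Int.eq_zero_of_abs_lt_dvd h10
        rw [abs_lt]
        constructor <;> omega
      apply h
      omega
    have h12 := geom_sum_mul z T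
    rw [h2, sub_self] at h12
    exact (mul_eq_zero.1 h12).resolve_right (sub_ne_zero.2 h3)

/-- Parseval's identity on the cycle -/
lemma parseval (T : ℕ) (hT : 0 < T) (δ : ℝ) (a : ℕ → ℂ) :
    ∑ m ∈ Finset.range T, ‖∑ k ∈ Finset.range T, ex ((δ + m) * k / T) * a k‖ ^ 2 =
      T * ∑ k ∈ Finset.range T, ‖a k‖ ^ 2 := by
  have hT' : (T : ℝ) ≠ 0 := by positivity
  have key : ∑ m ∈ Finset.range T, ((‖∑ k ∈ Finset.range T, ex ((δ + m) * k / T) * a k‖ ^ 2 : ℝ) : ℂ)
      = T * ∑ k ∈ Finset.range T, ((‖a k‖ ^ 2 : ℝ) : ℂ) := by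
    have h1 : ∀ m ∈ Finset.range T,
        ((‖∑ k ∈ Finset.range T, ex ((δ + m) * k / T) * a k‖ ^ 2 : ℝ) : ℂ) =
        ∑ k ∈ Finset.range T, ∑ l ∈ Finset.range T,
          ex (m * ((k : ℝ) - l) / T) * (ex (δ * ((k : ℝ) - l) / T) * (a k * conj (a l))) := by
      intro m _
      rw [Complex.ofReal_pow, ← Complex.mul_conj', map_sum, Finset.sum_mul_sum]
      refine Finset.sum_congr rfl fun k _ => Finset.sum_congr rfl fun l _ => ?_
      rw [map_mul, conj_ex]
      have h2 : ex (m * ((k : ℝ) - l) / T) * ex (δ * ((k : ℝ) - l) / T) =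
          ex ((δ + m) * k / T) * ex (-((δ + m) * l / T)) := by
        rw [← ex_add, ← ex_add]
        congr 1
        field_simp
        ring
      rw [← mul_assoc (ex (m * ((k : ℝ) - l) / T)), h2]
      ring
    rw [Finset.sum_congr rfl h1, Finset.sum_comm, Finset.mul_sum]
    refine Finset.sum_congr rfl fun k hk => ?_
    rw [Finset.sum_comm]
    have h3 : ∀ l ∈ Finset.range T, ∑ m ∈ Finset.range T,
        ex (m * ((k : ℝ) - l) / T) * (ex (δ * ((k : ℝ) - l) / T) * (a k * conj (a l))) =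
        if k = l then (T : ℂ) * (a k * conj (a k)) else 0 := by
      intro l hl
      rw [← Finset.sum_mul, sum_ex T k l (Finset.mem_range.1 hk) (Finset.mem_range.1 hl)]
      split_ifs with h
      · subst h
        simp [ex_zero]
      · simp
    rw [Finset.sum_congr rfl h3, Finset.sum_ite_eq, if_pos hk, Complex.mul_conj', Complex.ofReal_pow]
  have h4 : ((∑ m ∈ Finset.range T, ‖∑ k ∈ Finset.range T, ex ((δ + m) * k / T) * a k‖ ^ 2 : ℝ) : ℂ)
      = ((T * ∑ k ∈ Finset.range T, ‖a k‖ ^ 2 : ℝ) : ℂ) := by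
    push_cast at key ⊢
    exact key
  exact_mod_cast h4

lemma cos_ge (T : ℕ) (hT : 0 < T) (δ : ℝ) (hδ : |δ| ≤ 1 / 2) (m : ℕ) (hm : m < T) :
    Real.cos (2 * Real.pi * ((δ + m) / T)) ≤ Real.cos (2 * Real.pi * (δ / T)) ∧
    (|δ| < 1 / 2 → m ≠ 0 →
      Real.cos (2 * Real.pi * ((δ + m) / T)) < Real.cos (2 * Real.pi * (δ / T))) := by
  have hT' : (0 : ℝ) < T := by positivity
  have h1 : Real.cos (2 * Real.pi * (δ / T)) - Real.cos (2 * Real.pi * ((δ + m) / T)) =
      2 * (Real.sin (Real.pi * ((2 * δ + m) / T)) * Real.sin (Real.pi * (m / T))) := by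
    have := Real.cos_sub_cos (2 * Real.pi * (δ / T)) (2 * Real.pi * ((δ + m) / T))
    rw [this]
    have e1 : (2 * Real.pi * (δ / T) + 2 * Real.pi * ((δ + m) / T)) / 2 =
        Real.pi * ((2 * δ + m) / T) := by
      field_simp; ring
    have e2 : (2 * Real.pi * (δ / T) - 2 * Real.pi * ((δ + m) / T)) / 2 = -(Real.pi * (m / T)) := by
      field_simp; ring
    rw [e1, e2, Real.sin_neg]
    ring
  rcases Nat.eq_zero_or_pos m with h0 | h0
  · subst h0
    simp
  have hm1 : (1 : ℝ) ≤ m := by exact_mod_cast h0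
  have hm2 : (m : ℝ) ≤ T - 1 := by
    have : m + 1 ≤ T := hm
    have : (m : ℝ) + 1 ≤ T := by exact_mod_cast this
    linarith
  rw [abs_le] at hδ
  have h2 : 0 ≤ (2 * δ + m) / T := by
    apply div_nonneg _ hT'.le
    linarith [hδ.1]
  have h3 : (2 * δ + m) / T ≤ 1 := by
    rw [div_le_one hT']
    linarith [hδ.2]
  have h4 : 0 < (m : ℝ) / T := by positivity
  have h5 : (m : ℝ) / T < 1 := by
    rw [div_lt_one hT']
    linarith
  have h6 : 0 < Real.sin (Real.pi * (m / T)) := by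
    apply Real.sin_pos_of_pos_of_lt_pi
    · positivity
    · nlinarith [Real.pi_pos]
  have h7 : 0 ≤ Real.sin (Real.pi * ((2 * δ + m) / T)) := by
    apply Real.sin_nonneg_of_nonneg_of_le_pi
    · positivity
    · nlinarith [Real.pi_pos]
  refine ⟨?_, fun h8 _ => ?_⟩
  · nlinarith [mul_nonneg h7 h6.le]
  · rw [abs_lt] at h8
    have h9 : 0 < (2 * δ + m) / T := by
      apply div_pos _ hT'
      linarith [h8.1]
    have h10 : (2 * δ + m) / T < 1 := by
      rw [div_lt_one hT']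
      linarith [h8.2]
    have h11 : 0 < Real.sin (Real.pi * ((2 * δ + m) / T)) := by
      apply Real.sin_pos_of_pos_of_lt_pi
      · positivity
      · nlinarith [Real.pi_pos]
    nlinarith [mul_pos h11 h6]

variable {G : Type} [Fintype G]

/-- the iterates of the twisted translation -/
def WW (F : Equiv.Perm G) (ω : G → ℂ) (k : ℕ) (f : G → ℂ) (g : G) : ℂ :=
  conj (∏ j ∈ Finset.range k, ω ((F ^ j) g)) * f ((F ^ k) g)

lemma WW_zero (F : Equiv.Perm G) (ω : G → ℂ) (f : G → ℂ) (g : G) : WW F ω 0 f g = f g := by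
  simp [WW]

/-- the twisted translation -/
def UU (F : Equiv.Perm G) (ω : G → ℂ) (f : G → ℂ) (g : G) : ℂ := conj (ω g) * f (F g)

lemma WW_UU (F : Equiv.Perm G) (ω : G → ℂ) (k : ℕ) (f : G → ℂ) (g : G) :
    WW F ω k (UU F ω f) g = WW F ω (k + 1) f g := by
  unfold WW UU
  rw [Finset.prod_range_succ, map_mul, pow_succ', Equiv.Perm.mul_apply]
  ring

lemma WW_norm (F : Equiv.Perm G) (ω : G → ℂ) (hω : ∀ g, ‖ω g‖ = 1) (k : ℕ) (f : G → ℂ) :
    ∑ g, ‖WW F ω k f g‖ ^ 2 = ∑ g, ‖f g‖ ^ 2 := by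
  have h1 : ∀ g, ‖WW F ω k f g‖ ^ 2 = ‖f ((F ^ k) g)‖ ^ 2 := by
    intro g
    unfold WW
    rw [norm_mul, RCLike.norm_conj, norm_prod, Finset.prod_eq_one fun j _ => hω _, one_mul]
  rw [Finset.sum_congr rfl fun g _ => h1 g]
  exact Equiv.sum_comp (F ^ k) (fun g => ‖f g‖ ^ 2)

/-- the Fourier components -/
def PP (F : Equiv.Perm G) (ω : G → ℂ) (T : ℕ) (δ : ℝ) (m : ℕ) (f : G → ℂ) (g : G) : ℂ :=
  ∑ k ∈ Finset.range T, ex ((δ + m) * k / T) * WW F ω k f g

lemma PP_parseval (F : Equiv.Perm G) (ω : G → ℂ) (hω : ∀ g, ‖ω g‖ = 1) (T : ℕ) (hT : 0 < T) (δ : ℝ)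
    (f : G → ℂ) :
    ∑ m ∈ Finset.range T, ∑ g, ‖PP F ω T δ m f g‖ ^ 2 = (T : ℝ) ^ 2 * ∑ g, ‖f g‖ ^ 2 := by
  rw [Finset.sum_comm]
  unfold PP
  have h1 : ∀ g, ∑ m ∈ Finset.range T,
      ‖∑ k ∈ Finset.range T, ex ((δ + m) * k / T) * WW F ω k f g‖ ^ 2 =
      T * ∑ k ∈ Finset.range T, ‖WW F ω k f g‖ ^ 2 := fun g => parseval T hT δ _
  rw [Finset.sum_congr rfl fun g _ => h1 g, ← Finset.mul_sum, Finset.sum_comm,
    Finset.sum_congr rfl fun k _ => WW_norm F ω hω k f, Finset.sum_const, Finset.card_range]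
  simp only [nsmul_eq_mul]
  ring

lemma PP_UU (F : Equiv.Perm G) (ω : G → ℂ) (T : ℕ) (hT : 0 < T) (δ : ℝ)
    (hF : ∀ g, (F ^ T) g = g) (hμ : ∀ g, ∏ j ∈ Finset.range T, ω ((F ^ j) g) = ex δ)
    (m : ℕ) (f : G → ℂ) (g : G) :
    PP F ω T δ m (UU F ω f) g = ex (-((δ + m) / T)) * PP F ω T δ m f g := by
  have hT' : (T : ℝ) ≠ 0 := by positivity
  unfold PP
  have h1 : ∀ k ∈ Finset.range T, ex ((δ + m) * k / T) * WW F ω k (UU F ω f) g =
      ex (-((δ + m) / T)) * (ex ((δ + m) * ((k + 1 : ℕ) : ℝ) / T) * WW F ω (k + 1) f g) := by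
    intro k _
    rw [WW_UU, ← mul_assoc, ← ex_add]
    congr 2
    push_cast
    field_simp
    ring
  rw [Finset.sum_congr rfl h1, ← Finset.mul_sum]
  congr 1
  have h2 := Finset.sum_range_succ' (fun k => ex ((δ + m) * (k : ℝ) / T) * WW F ω k f g) T
  have h3 := Finset.sum_range_succ (fun k => ex ((δ + m) * (k : ℝ) / T) * WW F ω k f g) T
  rw [h3] at h2
  have h4 : ex ((δ + m) * (T : ℝ) / T) * WW F ω T f g = f g := by
    unfold WW
    rw [hF, hμ, conj_ex, mul_div_assoc, div_self hT', mul_one, ex_add, ← mul_assoc]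
    have h5 : ex (m : ℝ) = 1 := by
      have := ex_int (m : ℤ)
      simpa using this
    rw [h5, mul_one, mul_comm (ex δ), ex_neg_mul, one_mul]
  rw [h4] at h2
  simp only [Nat.cast_zero, mul_zero, zero_div, ex_zero, one_mul, WW_zero] at h2
  exact (add_right_cancel h2).symm

/-- **The bottom of the spectrum of the twisted translation.** -/
theorem cycle_ineq (F : Equiv.Perm G) (ω : G → ℂ) (hω : ∀ g, ‖ω g‖ = 1) (T : ℕ) (hT : 0 < T)
    (δ : ℝ) (hδ : |δ| ≤ 1 / 2) (hF : ∀ g, (F ^ T) g = g)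
    (hμ : ∀ g, ∏ j ∈ Finset.range T, ω ((F ^ j) g) = ex δ) (f : G → ℂ) :
    (2 - 2 * Real.cos (2 * Real.pi * (δ / T))) * ∑ g, ‖f g‖ ^ 2 ≤
      ∑ g, ‖f g - conj (ω g) * f (F g)‖ ^ 2 ∧
    (|δ| < 1 / 2 → ∑ g, ‖f g - conj (ω g) * f (F g)‖ ^ 2 ≤
      (2 - 2 * Real.cos (2 * Real.pi * (δ / T))) * ∑ g, ‖f g‖ ^ 2 →
      ∀ g, conj (ω g) * f (F g) = ex (-(δ / T)) * f g) := by
  have hT' : (0 : ℝ) < T := by positivity
  set e : ℕ → ℝ := fun m => 2 - 2 * Real.cos (2 * Real.pi * ((δ + m) / T)) with he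
  set N : ℕ → ℝ := fun m => ∑ g, ‖PP F ω T δ m f g‖ ^ 2 with hN
  have hN0 : ∀ m, 0 ≤ N m := fun m => Finset.sum_nonneg fun _ _ => by positivity
  have h1 : (T : ℝ) ^ 2 * ∑ g, ‖f g‖ ^ 2 = ∑ m ∈ Finset.range T, N m :=
    (PP_parseval F ω hω T hT δ f).symm
  have h2 : (T : ℝ) ^ 2 * ∑ g, ‖f g - conj (ω g) * f (F g)‖ ^ 2 = ∑ m ∈ Finset.range T, e m * N m := by
    have h3 := (PP_parseval F ω hω T hT δ (fun g => f g - UU F ω f g)).symm
    have h4 : ∀ g, f g - conj (ω g) * f (F g) = f g - UU F ω f g := fun g => rfl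
    simp only [h4]
    rw [h3]
    refine Finset.sum_congr rfl fun m _ => ?_
    rw [hN, Finset.mul_sum]
    refine Finset.sum_congr rfl fun g _ => ?_
    have h5 : PP F ω T δ m (fun g => f g - UU F ω f g) g = (1 - ex (-((δ + m) / T))) *
        PP F ω T δ m f g := by
      rw [sub_mul, one_mul, ← PP_UU F ω T hT δ hF hμ m f g]
      unfold PP
      rw [← Finset.sum_sub_distrib]
      refine Finset.sum_congr rfl fun k _ => ?_
      unfold WW
      ring
    rw [h5, norm_mul, mul_pow, norm_one_sub_ex]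
    simp only [he]
    rw [mul_neg, Real.cos_neg]
  have h6 : ∀ m ∈ Finset.range T, e 0 ≤ e m := by
    intro m hm
    have := (cos_ge T hT δ hδ m (Finset.mem_range.1 hm)).1
    simp only [he, Nat.cast_zero, add_zero]
    linarith
  have he0 : e 0 = 2 - 2 * Real.cos (2 * Real.pi * (δ / T)) := by simp [he]
  rw [← he0]
  have hTT : 0 < (T : ℝ) ^ 2 := by positivity
  refine ⟨?_, fun h7 h8 => ?_⟩
  · have h9 : (T : ℝ) ^ 2 * (e 0 * ∑ g, ‖f g‖ ^ 2) ≤
        (T : ℝ) ^ 2 * ∑ g, ‖f g - conj (ω g) * f (F g)‖ ^ 2 := by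
      rw [h2, mul_left_comm, h1, Finset.mul_sum]
      exact Finset.sum_le_sum fun m hm => mul_le_mul_of_nonneg_right (h6 m hm) (hN0 m)
    exact le_of_mul_le_mul_left h9 hTT
  · have h9 : ∑ m ∈ Finset.range T, (e m - e 0) * N m ≤ 0 := by
      have h10 : (T : ℝ) ^ 2 * ∑ g, ‖f g - conj (ω g) * f (F g)‖ ^ 2 ≤
          (T : ℝ) ^ 2 * (e 0 * ∑ g, ‖f g‖ ^ 2) := mul_le_mul_of_nonneg_left h8 hTT.le
      rw [h2, mul_left_comm, h1, Finset.mul_sum] at h10
      rw [← sub_nonpos, ← Finset.sum_sub_distrib] at h10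
      refine le_trans (le_of_eq ?_) h10
      exact Finset.sum_congr rfl fun m _ => by ring
    have h11 : ∀ m ∈ Finset.range T, (e m - e 0) * N m = 0 := by
      have h12 : ∀ m ∈ Finset.range T, 0 ≤ (e m - e 0) * N m := fun m hm =>
        mul_nonneg (sub_nonneg.2 (h6 m hm)) (hN0 m)
      exact (Finset.sum_eq_zero_iff_of_nonneg h12).1 (le_antisymm h9 (Finset.sum_nonneg h12))
    have h13 : ∀ m ∈ Finset.range T, m ≠ 0 → ∀ g, PP F ω T δ m f g = 0 := by
      intro m hm hm0 g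
      have h14 := (cos_ge T hT δ hδ m (Finset.mem_range.1 hm)).2 h7 hm0
      have h15 : e m - e 0 ≠ 0 := by
        simp only [he, Nat.cast_zero, add_zero]
        linarith
      have h16 := (mul_eq_zero.1 (h11 m hm)).resolve_left h15
      have h17 := (Finset.sum_eq_zero_iff_of_nonneg (fun g _ => by positivity)).1 h16 g
        (Finset.mem_univ g)
      simpa using h17
    -- the vector `U f - z f` vanishes
    have h18 := PP_parseval F ω hω T hT δ (fun g => UU F ω f g - ex (-(δ / T)) * f g)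
    have h19 : ∀ m ∈ Finset.range T, ∑ g, ‖PP F ω T δ m
        (fun g => UU F ω f g - ex (-(δ / T)) * f g) g‖ ^ 2 = 0 := by
      intro m hm
      refine Finset.sum_eq_zero fun g _ => ?_
      have h20 : PP F ω T δ m (fun g => UU F ω f g - ex (-(δ / T)) * f g) g =
          (ex (-((δ + m) / T)) - ex (-(δ / T))) * PP F ω T δ m f g := by
        rw [sub_mul, ← PP_UU F ω T hT δ hF hμ m f g]
        unfold PP
        rw [Finset.mul_sum, ← Finset.sum_sub_distrib]
        refine Finset.sum_congr rfl fun k _ => ?_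
        unfold WW
        ring
      rw [h20]
      by_cases hm0 : m = 0
      · subst hm0
        simp
      · rw [h13 m hm hm0 g]
        simp
    rw [Finset.sum_eq_zero h19] at h18
    have h21 : ∑ g, ‖UU F ω f g - ex (-(δ / T)) * f g‖ ^ 2 = 0 := by
      have := (mul_eq_zero.1 h18.symm).resolve_left hTT.ne'
      exact this
    intro g
    have h22 := (Finset.sum_eq_zero_iff_of_nonneg (fun g _ => by positivity)).1 h21 g
      (Finset.mem_univ g)
    have h23 : UU F ω f g - ex (-(δ / T)) * f g = 0 := by simpa using h22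
    exact sub_eq_zero.1 h23

end Pool.Agent.T9h50.PE
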