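import Mathlib

/-!
# Translation invariant Hamiltonians and PEPS on the `L × L` torus

Definitions for `MP_0f69bf_mp`. The basis states of a site are labelled by a finite type `α` (the
local dimension is the number of elements of `α`).
-/

set_option autoImplicit false

open scoped BigOperators ComplexConjugate

noncomputable section

namespace Pool.Agent.T9h50.PE

/-- Sites of the `L × L` torus. -/
abbrev Site (L : ℕ) := ZMod L × ZMod L

/-- Configurations (basis states) of the torus; vectors are functions `Conf α L → ℂ`. -/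
abbrev Conf (α : Type) (L : ℕ) := Site L → α

/-- Configurations of a `q × q` box. -/
abbrev BConf (α : Type) (q : ℕ) := Fin q × Fin q → α

/-- Squared norm of a vector. -/
def nrm {S : Type} [Fintype S] (f : S → ℂ) : ℝ := ∑ s, ‖f s‖ ^ 2

/-- The matrix `B` has operator norm at most `1`. -/
def Contr {S : Type} [Fintype S] (B : S → S → ℂ) : Prop :=
  ∀ f : S → ℂ, nrm (fun σ => ∑ τ, B σ τ * f τ) ≤ nrm f

/-- The restriction of `s` to the `q × q` box with corner `v`. -/
def box {α : Type} {L : ℕ} (q : ℕ) (s : Conf α L) (v : Site L) : BConf α q :=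
  fun p => s (v.1 + ((p.1 : ℕ) : ZMod L), v.2 + ((p.2 : ℕ) : ZMod L))

/-- The configuration `s` with its content on the `q × q` box with corner `v` replaced by `τ`. -/
def put {α : Type} {L q : ℕ} (s : Conf α L) (v : Site L) (τ : BConf α q) : Conf α L :=
  fun w => if h : (w.1 - v.1).val < q ∧ (w.2 - v.2).val < q then
    τ (⟨(w.1 - v.1).val, h.1⟩, ⟨(w.2 - v.2).val, h.2⟩) else s w

/-- The restriction of `s` to the translate by `v` of the region `R ⊂ ℤ²`. -/
def res {α : Type} {L : ℕ} (R : Finset (ℤ × ℤ)) (s : Conf α L) (v : Site L) : R → α :=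
  fun p => s (v.1 + ((p : ℤ × ℤ).1 : ZMod L), v.2 + ((p : ℤ × ℤ).2 : ZMod L))

open Classical in
/-- `⟨Ψ, B_v Ψ⟩`, the matrix `B` acting on the translate by `v` of the region `R`: the sum of
`conj (Ψ s) * B (s on v + R) (s' on v + R) * Ψ s'` over all pairs `s`, `s'` which agree off
`v + R`. -/
def expecR {α : Type} [Fintype α] {L : ℕ} [NeZero L] (R : Finset (ℤ × ℤ)) (Ψ : Conf α L → ℂ)
    (v : Site L) (B : (R → α) → (R → α) → ℂ) : ℂ :=
  ∑ s : Conf α L, ∑ s' : Conf α L,
    if (∀ w : Site L, (∀ p ∈ R, w ≠ (v.1 + (p.1 : ZMod L), v.2 + (p.2 : ZMod L))) → s w = s' w)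
    then conj (Ψ s) * B (res R s v) (res R s' v) * Ψ s' else 0

/-- The reduced density matrices on `R` of the normalised vectors `Ψ`, `Ψ'` (at any positions) have
trace distance at most `ε`, that is `‖ρ - ρ'‖₁ ≤ ε`: the expectations of all matrices of norm at
most `1` differ by at most `ε`. -/
def Close {α : Type} [Fintype α] {L : ℕ} [NeZero L] (R : Finset (ℤ × ℤ)) (Ψ Ψ' : Conf α L → ℂ)
    (ε : ℝ) : Prop :=
  ∀ (u v : Site L) (B : (R → α) → (R → α) → ℂ), Contr B →
    ‖expecR R Ψ u B / (nrm Ψ : ℂ) - expecR R Ψ' v B / (nrm Ψ' : ℂ)‖ ≤ ε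

/-- A PEPS tensor with bond dimension `D`; indices: physical, left, right, down, up. -/
abbrev Tensor (α : Type) (D : ℕ) := α → Fin D → Fin D → Fin D → Fin D → ℂ

/-- The translation invariant PEPS vector of the tensor `A` on the `L × L` torus. -/
def peps {α : Type} {D : ℕ} (A : Tensor α D) (L : ℕ) [NeZero L] : Conf α L → ℂ :=
  fun s => ∑ hor : Site L → Fin D, ∑ ver : Site L → Fin D,
    ∏ v : Site L, A (s v) (hor (v.1 - 1, v.2)) (hor v) (ver (v.1, v.2 - 1)) (ver v)

/-- The Hamiltonian `H_L = ∑_v τ_v(h)` of an interaction `h` on `q × q` boxes. -/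
def ham {α : Type} [Fintype α] {q : ℕ} (h : BConf α q → BConf α q → ℂ) (L : ℕ) [NeZero L]
    (Ψ : Conf α L → ℂ) : Conf α L → ℂ :=
  fun s => ∑ v : Site L, ∑ τ : BConf α q, h (box q s v) τ * Ψ (put s v τ)

/-- The interaction is Hermitian. -/
def Herm {α : Type} {q : ℕ} (h : BConf α q → BConf α q → ℂ) : Prop :=
  ∀ σ τ, h τ σ = conj (h σ τ)

/-- The energy `⟨φ, H_L φ⟩`. -/
def en {α : Type} [Fintype α] {q : ℕ} (h : BConf α q → BConf α q → ℂ) (L : ℕ) [NeZero L]
    (φ : Conf α L → ℂ) : ℝ :=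
  (∑ s, conj (φ s) * ham h L φ s).re

/-- `Ψ` is a normalised ground state: it minimises the energy among the unit vectors. -/
def IsGround {α : Type} [Fintype α] {q : ℕ} (h : BConf α q → BConf α q → ℂ) (L : ℕ) [NeZero L]
    (Ψ : Conf α L → ℂ) : Prop :=
  nrm Ψ = 1 ∧ ∀ φ : Conf α L → ℂ, nrm φ = 1 → en h L Ψ ≤ en h L φ

/-- The ground state of `H_L` is unique, up to scalars. -/
def UniqueGround {α : Type} [Fintype α] {q : ℕ} (h : BConf α q → BConf α q → ℂ) (L : ℕ)
    [NeZero L] : Prop :=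
  ∃ Ψ : Conf α L → ℂ, IsGround h L Ψ ∧ ∀ Ψ', IsGround h L Ψ' → ∃ c : ℂ, Ψ' = c • Ψ

/-- The one-site region `{(0, 0)}`. -/
def origin : Finset (ℤ × ℤ) := {(0, 0)}

/-- For all large sizes `L` in the set `𝓛` the PEPS vector of the tensor `A` is nonzero and approximates the
reduced state of `Ψ L` on the region `R` up to `ε` in trace norm. -/
def ApproxOn {α : Type} [Fintype α] {D : ℕ} (𝓛 : Set ℕ) (R : Finset (ℤ × ℤ)) (A : Tensor α D)
    (Ψ : ∀ (L : ℕ) [NeZero L], Conf α L → ℂ) (ε : ℝ) : Prop :=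
  ∃ L₁ : ℕ, ∀ (L : ℕ) [NeZero L], L₁ ≤ L → L ∈ 𝓛 → nrm (peps A L) ≠ 0 ∧ Close R (Ψ L) (peps A L) ε

end Pool.Agent.T9h50.PE
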