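import Pool.Agent.T9h50.PE.Defs

/-! The energy of interactions which are sums of a potential and of hopping terms. -/

set_option autoImplicit false

open scoped BigOperators ComplexConjugate

noncomputable section

namespace Pool.Agent.T9h50.PE

section
variable {α : Type} {L q : ℕ} [NeZero L]

lemma box_put (hq : q ≤ L) (s : Conf α L) (v : Site L) (τ : BConf α q) : box q (put s v τ) v = τ := by
  funext p
  unfold box put
  have h1 : ((v.1 + ((p.1 : ℕ) : ZMod L)) - v.1).val = p.1 := by
    rw [add_sub_cancel_left, ZMod.val_natCast_of_lt (lt_of_lt_of_le p.1.2 hq)]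
  have h2 : ((v.2 + ((p.2 : ℕ) : ZMod L)) - v.2).val = p.2 := by
    rw [add_sub_cancel_left, ZMod.val_natCast_of_lt (lt_of_lt_of_le p.2.2 hq)]
  rw [dif_pos ⟨by simp only [h1]; exact p.1.2, by simp only [h2]; exact p.2.2⟩]
  congr 1
  exact Prod.ext (Fin.ext h1) (Fin.ext h2)

lemma put_box (s : Conf α L) (v : Site L) : put s v (box q s v) = s := by
  funext w
  unfold put box
  split_ifs with h
  · congr 1
    refine Prod.ext ?_ ?_
    · change v.1 + (((w.1 - v.1).val : ℕ) : ZMod L) = w.1
      rw [ZMod.natCast_zmod_val]
      ring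
    · change v.2 + (((w.2 - v.2).val : ℕ) : ZMod L) = w.2
      rw [ZMod.natCast_zmod_val]
      ring
  · rfl

lemma put_put (s : Conf α L) (v : Site L) (τ τ' : BConf α q) : put (put s v τ) v τ' = put s v τ' := by
  funext w
  unfold put
  split_ifs <;> rfl

end

section
variable {α : Type} [Fintype α] [DecidableEq α] {L q : ℕ} [NeZero L]

lemma reindex (hq : q ≤ L) (v : Site L) (w w' : BConf α q) (f : Conf α L → ℂ) :
    ∑ s : Conf α L, (if box q s v = w' then f s else 0) =
      ∑ s : Conf α L, (if box q s v = w then f (put s v w') else 0) := by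
  rw [← Finset.sum_filter, ← Finset.sum_filter]
  refine Finset.sum_bij' (fun s _ => put s v w) (fun s _ => put s v w') ?_ ?_ ?_ ?_ ?_
  · intro s _
    simp [box_put hq]
  · intro s _
    simp [box_put hq]
  · intro s hs
    rw [Finset.mem_filter] at hs
    change put (put s v w) v w' = s
    rw [put_put, ← hs.2, put_box]
  · intro s hs
    rw [Finset.mem_filter] at hs
    change put (put s v w') v w = s
    rw [put_put, ← hs.2, put_box]
  · intro s hs
    rw [Finset.mem_filter] at hs
    congr 1
    change s = put (put s v w) v w'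
    rw [put_put, ← hs.2, put_box]

/-- the vector of a hopping term -/
def aV (om : BConf α q → ℂ) (mB : BConf α q → BConf α q) (w σ : BConf α q) : ℂ :=
  (if σ = w then 1 else 0) - om w * (if σ = mB w then 1 else 0)

/-- potential plus hopping -/
def hop (D : BConf α q → ℝ) (dom : BConf α q → Prop) [DecidablePred dom] (om : BConf α q → ℂ)
    (mB : BConf α q → BConf α q) (σ τ : BConf α q) : ℂ :=
  (if σ = τ then (D σ : ℂ) else 0) +
    ∑ w, if dom w then aV om mB w σ * conj (aV om mB w τ) else 0

lemma hop_herm (D : BConf α q → ℝ) (dom : BConf α q → Prop) [DecidablePred dom] (om : BConf α q → ℂ)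
    (mB : BConf α q → BConf α q) : Herm (hop D dom om mB) := by
  intro σ τ
  unfold hop
  rw [map_add, map_sum]
  congr 1
  · by_cases h : σ = τ
    · subst h
      simp
    · rw [if_neg h, if_neg (Ne.symm h), map_zero]
  · refine Finset.sum_congr rfl fun w _ => ?_
    split_ifs
    · rw [map_mul, Complex.conj_conj, mul_comm]
    · rw [map_zero]

lemma hop_one (hq : q ≤ L) (om : BConf α q → ℂ) (mB : BConf α q → BConf α q) (v : Site L)
    (w : BConf α q) (φ : Conf α L → ℂ) :
    ∑ s : Conf α L, ∑ τ : BConf α q, conj (φ s) * ((aV om mB w (box q s v) * conj (aV om mB w τ)) *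
      φ (put s v τ)) =
    ∑ s : Conf α L, (if box q s v = w then
      ((‖φ s - conj (om w) * φ (put s v (mB w))‖ ^ 2 : ℝ) : ℂ) else 0) := by
  set A : Conf α L → ℂ := fun s => φ (put s v w) - conj (om w) * φ (put s v (mB w)) with hA
  have h1 : ∀ s : Conf α L, ∑ τ : BConf α q, conj (φ s) * ((aV om mB w (box q s v) *
      conj (aV om mB w τ)) * φ (put s v τ)) =
      (if box q s v = w then conj (φ s) * A s else 0) -
      om w * (if box q s v = mB w then conj (φ s) * A s else 0) := by
    intro s
    have h2 : ∑ τ : BConf α q, conj (aV om mB w τ) * φ (put s v τ) = A s := by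
      unfold aV
      simp only [map_sub, map_mul, sub_mul]
      rw [Finset.sum_sub_distrib, hA]
      congr 1
      · rw [Finset.sum_eq_single w]
        · simp
        · intro b _ hb
          simp [hb]
        · intro h
          exact absurd (Finset.mem_univ _) h
      · rw [Finset.sum_eq_single (mB w)]
        · simp
        · intro b _ hb
          simp [hb]
        · intro h
          exact absurd (Finset.mem_univ _) h
    have h3 : ∑ τ : BConf α q, conj (φ s) * ((aV om mB w (box q s v) *
        conj (aV om mB w τ)) * φ (put s v τ)) = conj (φ s) * aV om mB w (box q s v) *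
        ∑ τ : BConf α q, conj (aV om mB w τ) * φ (put s v τ) := by
      rw [Finset.mul_sum]
      refine Finset.sum_congr rfl fun τ _ => ?_
      ring
    rw [h3, h2]
    unfold aV
    split_ifs <;> ring
  rw [Finset.sum_congr rfl fun s _ => h1 s, Finset.sum_sub_distrib, ← Finset.mul_sum,
    reindex hq v w (mB w), Finset.mul_sum, ← Finset.sum_sub_distrib]
  refine Finset.sum_congr rfl fun s _ => ?_
  by_cases h : box q s v = w
  · simp only [if_pos h]
    have h4 : put s v w = s := by rw [← h, put_box]
    have h5 : A (put s v (mB w)) = A s := by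
      simp only [hA, put_put]
    have h6 : A s = φ s - conj (om w) * φ (put s v (mB w)) := by
      simp only [hA, h4]
    rw [h5, h6, ← Complex.normSq_eq_norm_sq, Complex.normSq_eq_conj_mul_self, map_sub, map_mul,
      Complex.conj_conj]
    ring
  · simp only [if_neg h]
    ring

/-- **The energy.** -/
theorem en_hop (hq : q ≤ L) (D : BConf α q → ℝ) (dom : BConf α q → Prop) [DecidablePred dom]
    (om : BConf α q → ℂ) (mB : BConf α q → BConf α q) (φ : Conf α L → ℂ) :
    en (hop D dom om mB) L φ =
      ∑ s : Conf α L, (∑ v : Site L, D (box q s v)) * ‖φ s‖ ^ 2 +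
      ∑ s : Conf α L, ∑ v : Site L, (if dom (box q s v) then
        ‖φ s - conj (om (box q s v)) * φ (put s v (mB (box q s v)))‖ ^ 2 else 0) := by
  have h1 : ∑ s, conj (φ s) * ham (hop D dom om mB) L φ s =
      ∑ v : Site L, (∑ s : Conf α L, ((D (box q s v) * ‖φ s‖ ^ 2 : ℝ) : ℂ) +
        ∑ w, if dom w then ∑ s : Conf α L, (if box q s v = w then
          ((‖φ s - conj (om w) * φ (put s v (mB w))‖ ^ 2 : ℝ) : ℂ) else 0) else 0) := by
    unfold ham
    simp only [Finset.mul_sum]
    rw [Finset.sum_comm]
    refine Finset.sum_congr rfl fun v _ => ?_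
    unfold hop
    simp only [add_mul, mul_add, Finset.sum_add_distrib]
    congr 1
    · refine Finset.sum_congr rfl fun s _ => ?_
      rw [Finset.sum_eq_single (box q s v)]
      · rw [if_pos rfl, put_box]
        have : ((‖φ s‖ ^ 2 : ℝ) : ℂ) = conj (φ s) * φ s := by
          rw [← Complex.normSq_eq_norm_sq, Complex.normSq_eq_conj_mul_self]
        rw [Complex.ofReal_mul, this]
        ring
      · intro b _ hb
        rw [if_neg (Ne.symm hb)]
        ring
      · intro h
        exact absurd (Finset.mem_univ _) h
    · simp only [Finset.sum_mul, Finset.mul_sum]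
      have h2 : ∀ s : Conf α L, ∑ τ : BConf α q, ∑ w : BConf α q, conj (φ s) *
          ((if dom w then aV om mB w (box q s v) * conj (aV om mB w τ) else 0) * φ (put s v τ)) =
          ∑ w : BConf α q, if dom w then ∑ τ : BConf α q, conj (φ s) *
            ((aV om mB w (box q s v) * conj (aV om mB w τ)) * φ (put s v τ)) else 0 := by
        intro s
        rw [Finset.sum_comm]
        refine Finset.sum_congr rfl fun w _ => ?_
        split_ifs
        · rfl
        · simp
      rw [Finset.sum_congr rfl fun s _ => h2 s, Finset.sum_comm]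
      refine Finset.sum_congr rfl fun w _ => ?_
      split_ifs
      · exact hop_one hq om mB v w φ
      · simp
  unfold en
  rw [h1]
  have h3 : ∀ v : Site L, (∑ w, if dom w then ∑ s : Conf α L, (if box q s v = w then
      ((‖φ s - conj (om w) * φ (put s v (mB w))‖ ^ 2 : ℝ) : ℂ) else 0) else 0) =
      ((∑ s : Conf α L, (if dom (box q s v) then
        ‖φ s - conj (om (box q s v)) * φ (put s v (mB (box q s v)))‖ ^ 2 else 0) : ℝ) : ℂ) := by
    intro v
    have h4 : ∀ w, (if dom w then ∑ s : Conf α L, (if box q s v = w then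
        ((‖φ s - conj (om w) * φ (put s v (mB w))‖ ^ 2 : ℝ) : ℂ) else 0) else 0) =
        ∑ s : Conf α L, if box q s v = w then (if dom w then
          ((‖φ s - conj (om w) * φ (put s v (mB w))‖ ^ 2 : ℝ) : ℂ) else 0) else 0 := by
      intro w
      split_ifs
      · rfl
      · simp
    rw [Finset.sum_congr rfl fun w _ => h4 w, Finset.sum_comm, Complex.ofReal_sum]
    refine Finset.sum_congr rfl fun s _ => ?_
    rw [Finset.sum_ite_eq]
    simp only [Finset.mem_univ, if_true]
    split_ifs <;> simp
  rw [Finset.sum_congr rfl fun v _ => by rw [h3 v, ← Complex.ofReal_sum, ← Complex.ofReal_add],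
    ← Complex.ofReal_sum, Complex.ofReal_re, Finset.sum_add_distrib]
  congr 1
  · rw [Finset.sum_comm]
    refine Finset.sum_congr rfl fun s _ => ?_
    rw [Finset.sum_mul]
  · rw [Finset.sum_comm]

end

end Pool.Agent.T9h50.PE
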