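import Pool.Agent.T9h50.PE.Tor

/-! The ground state of the interaction `hh θ` on the torus. -/

set_option autoImplicit false
set_option linter.unusedSectionVars false

open scoped BigOperators ComplexConjugate

noncomputable section

namespace Pool.Agent.T9h50.PE

section
variable {L : ℕ} [NeZero L]

/-- the place of the move of a legal row -/
def mx (hL : 5 ≤ L) (g : LRow L) : ZMod L := (nxt_spec hL g).choose

lemma mx_spec (hL : 5 ≤ L) (g : LRow L) : Mv (mx hL g) g.1 (FF hL g).1 := (nxt_spec hL g).choose_spec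

/-- the phase factor of the move of a legal row -/
def omR (hL : 5 ≤ L) (θ : ℝ) (p : Bool) (g : LRow L) : ℂ :=
  wt θ p (g.1 (mx hL g)).1 (g.1 (mx hL g + 1)).1

lemma norm_omR (hL : 5 ≤ L) (θ : ℝ) (p : Bool) (g : LRow L) : ‖omR hL θ p g‖ = 1 := norm_wt _ _ _ _

/-- one hopping term of the energy -/
def kin (θ : ℝ) (φ : Conf Sym L → ℂ) (s : Conf Sym L) (v : Site L) : ℝ :=
  if dom3 (box 3 s v) then
    ‖φ s - conj (wt θ (box 3 s v (0, 0)).1 (box 3 s v (0, 0)).2.1 (box 3 s v (1, 0)).2.1) *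
      φ (put s v (mB3 (box 3 s v)))‖ ^ 2 else 0

lemma kin_nonneg (θ : ℝ) (φ : Conf Sym L → ℂ) (s : Conf Sym L) (v : Site L) : 0 ≤ kin θ φ s v := by
  unfold kin
  split_ifs <;> positivity

lemma en_hh (hL : 5 ≤ L) (θ : ℝ) (φ : Conf Sym L → ℂ) :
    en (hh θ) L φ = ∑ s : Conf Sym L, ((∑ v : Site L, potN (box 3 s v) : ℕ) : ℝ) * ‖φ s‖ ^ 2 +
      ∑ s : Conf Sym L, ∑ v : Site L, kin θ φ s v := by
  unfold hh
  rw [en_hop (by omega)]
  congr 1
  refine Finset.sum_congr rfl fun s _ => ?_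
  push_cast
  rfl

/-- the row `y` makes a move -/
def Fy (hL : 5 ≤ L) (y : ZMod L) : Equiv.Perm (ZMod L → LRow L) where
  toFun R := Function.update R y (FF hL (R y))
  invFun R := Function.update R y ((FF hL).symm (R y))
  left_inv R := by
    simp
  right_inv R := by
    simp

lemma Fy_apply (hL : 5 ≤ L) (y : ZMod L) (R : ZMod L → LRow L) :
    Fy hL y R = Function.update R y (FF hL (R y)) := rfl

lemma Fy_pow (hL : 5 ≤ L) (y : ZMod L) (n : ℕ) (R : ZMod L → LRow L) :
    ((Fy hL y) ^ n) R = Function.update R y (((FF hL) ^ n) (R y)) := by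
  induction n with
  | zero => simp
  | succ n ih =>
    rw [pow_succ', Equiv.Perm.mul_apply, ih, Fy_apply, pow_succ', Equiv.Perm.mul_apply]
    simp

lemma dom_cfg (p : Bool) (R : ZMod L → LRow L) (x y : ZMod L) :
    dom3 (box 3 (cfg p R) (x, y)) ↔
      (mv3 ((R y).1 x) ((R y).1 (x + 1)) ((R y).1 (x + 2))).isSome = true := by
  unfold dom3
  rw [box00, box10, box20]
  simp [cfg]

lemma kin_cfg (hL : 5 ≤ L) (θ : ℝ) (φ : Conf Sym L → ℂ) (p : Bool) (R : ZMod L → LRow L) :
    ∑ v : Site L, kin θ φ (cfg p R) v =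
      ∑ y, ‖φ (cfg p R) - conj (omR hL θ p (R y)) * φ (cfg p (Fy hL y R))‖ ^ 2 := by
  rw [Fintype.sum_prod_type_right]
  refine Finset.sum_congr rfl fun y _ => ?_
  have hm := mx_spec hL (R y)
  rw [Finset.sum_eq_single (mx hL (R y))]
  · obtain ⟨u, hu, hu'⟩ := id hm
    unfold kin
    rw [if_pos ((dom_cfg p R _ _).2 (by rw [hu]; rfl)), box00, box10]
    have h1 : put (cfg p R) (mx hL (R y), y) (mB3 (box 3 (cfg p R) (mx hL (R y), y))) =
        cfg p (Fy hL y R) := by
      rw [put_row hL (cfg p R) (mx hL (R y)) y u hu]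
      funext w
      obtain ⟨a, b⟩ := w
      simp only
      by_cases hb : b = y
      · subst hb
        rw [if_pos rfl]
        refine Prod.ext rfl ?_
        change set3 (R b).1 (mx hL (R b)) u a = ((Fy hL b R) b).1 a
        rw [Fy_apply, Function.update_self, hu']
      · rw [if_neg hb]
        refine Prod.ext rfl ?_
        change (R b).1 a = ((Fy hL y R) b).1 a
        rw [Fy_apply, Function.update_of_ne hb]
    rw [h1]
    rfl
  · intro x _ hx
    unfold kin
    rw [if_neg]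
    rw [dom_cfg]
    intro h
    obtain ⟨u, hu⟩ := Option.isSome_iff_exists.1 h
    have h2 : Mv x (R y).1 (set3 (R y).1 x u) := ⟨u, hu, rfl⟩
    exact hx (mv_unique _ (R y).2 _ _ _ _ h2 hm).1
  · intro h
    exact absurd (Finset.mem_univ _) h

/-- a move which leads to a good configuration starts from a good configuration -/
lemma pre_cfg (hL : 5 ≤ L) (s : Conf Sym L) (v : Site L) (hd : dom3 (box 3 s v)) (p : Bool)
    (R : ZMod L → LRow L) (h : put s v (mB3 (box 3 s v)) = cfg p R) : ∃ R', s = cfg p R' := by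
  obtain ⟨x, y⟩ := v
  have hd' := hd.2.2
  rw [box00, box10, box20] at hd'
  obtain ⟨u, hu⟩ := Option.isSome_iff_exists.1 hd'
  rw [put_row hL s x y u hu] at h
  have hy : set3 (rw' s y) x u = (R y).1 := by
    funext a
    have := congrArg Prod.snd (congrFun h (a, y))
    simpa [cfg] using this
  have hleg : Legal (rw' s y) := legal_vm hL (rw' s y) (R y).1 x ⟨u, hu, hy.symm⟩ (R y).2
  refine ⟨Function.update R y ⟨rw' s y, hleg⟩, ?_⟩
  funext w
  obtain ⟨a, b⟩ := w
  have h1 := congrFun h (a, b)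
  simp only at h1
  by_cases hb : b = y
  · subst hb
    rw [if_pos rfl] at h1
    refine Prod.ext ?_ ?_
    · have h2 := congrArg Prod.fst h1
      exact h2
    · change (s (a, b)).2 = ((Function.update R b ⟨rw' s b, hleg⟩) b).1 a
      rw [Function.update_self]
      rfl
  · rw [if_neg hb] at h1
    rw [h1]
    refine Prod.ext rfl ?_
    change (R b).1 a = ((Function.update R y ⟨rw' s y, hleg⟩) b).1 a
    rw [Function.update_of_ne hb]

open Classical in
/-- sums over the configurations -/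
lemma sum_split (g : Conf Sym L → ℝ) : ∑ s, g s = ∑ p, ∑ R, g (cfg p R) +
    ∑ s, (if ∀ p R, s ≠ cfg p R then g s else 0) := by
  have h1 : ∑ p, ∑ R, g (cfg p R) = ∑ s, (if ∃ p R, s = cfg p R then g s else 0) := by
    rw [← Fintype.sum_prod_type' (fun p R => g (cfg p R)), ← Finset.sum_filter]
    have h2 : (Finset.univ.filter fun s : Conf Sym L => ∃ p R, s = cfg p R) =
        Finset.univ.image (fun q : Bool × (ZMod L → LRow L) => cfg q.1 q.2) := by
      ext s
      simp only [Finset.mem_filter, Finset.mem_univ, true_and, Finset.mem_image, Prod.exists]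
      constructor
      · rintro ⟨p, R, h⟩
        exact ⟨p, R, h.symm⟩
      · rintro ⟨p, R, h⟩
        exact ⟨p, R, h.symm⟩
    rw [h2, Finset.sum_image fun a _ b _ h => cfg_inj h]
  rw [h1, ← Finset.sum_add_distrib]
  refine Finset.sum_congr rfl fun s _ => ?_
  by_cases h : ∃ p R, s = cfg p R
  · rw [if_pos h, if_neg, add_zero]
    push Not
    exact h
  · rw [if_neg h, if_pos, zero_add]
    push Not at h
    exact h

/-- the flux conditions -/
structure Flux (hL : 5 ≤ L) (θ : ℝ) (δ : Bool → ℝ) (w : Bool) : Prop where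
  prod : ∀ p, ∏ g, omR hL θ p g = ex (δ p)
  half : ∀ p, |δ p| ≤ 1 / 2
  lt : |δ w| < |δ (!w)|

/-- the kinetic energy of one row -/
def eT (L : ℕ) [NeZero L] (d : ℝ) : ℝ := 2 - 2 * Real.cos (2 * Real.pi * (d / TT L))

lemma eT_abs (d : ℝ) : eT L d = eT L |d| := by
  unfold eT
  rcases abs_choice d with h | h <;> rw [h]
  rw [neg_div, mul_neg, Real.cos_neg]

lemma eT_lt (hL : 5 ≤ L) (hodd : L % 2 = 1) (d d' : ℝ) (h : |d| < |d'|) (h' : |d'| ≤ 1 / 2) :
    eT L d < eT L d' := by
  rw [eT_abs d, eT_abs d']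
  have hT := TT_ge hL hodd
  have hT' : (10 : ℝ) ≤ TT L := by
    have : 10 ≤ TT L := by omega
    exact_mod_cast this
  unfold eT
  have h0 := abs_nonneg d
  have h1 : 2 * Real.pi * (|d| / TT L) < 2 * Real.pi * (|d'| / TT L) := by
    have := Real.pi_pos
    gcongr
  have h2 : 2 * Real.pi * (|d'| / TT L) ≤ Real.pi := by
    have h3 : |d'| / TT L ≤ 1 / 2 := by
      rw [div_le_iff₀ (by linarith)]
      linarith
    have := Real.pi_pos
    nlinarith
  have h3 : Real.cos (2 * Real.pi * (|d'| / TT L)) < Real.cos (2 * Real.pi * (|d| / TT L)) := by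
    apply Real.cos_lt_cos_of_nonneg_of_le_pi _ h2 h1
    have := Real.pi_pos
    positivity
  linarith

lemma eT_small (hL : 5 ≤ L) (hodd : L % 2 = 1) (d : ℝ) (h : |d| ≤ 1 / 2) : L * eT L d < 2 := by
  have hT := TT_ge hL hodd
  have hT' : (2 * L : ℝ) ≤ TT L := by exact_mod_cast hT
  have hL' : (5 : ℝ) ≤ L := by exact_mod_cast hL
  have h1 := Real.one_sub_sq_div_two_le_cos (x := 2 * Real.pi * (d / TT L))
  have h2 : |2 * Real.pi * (d / TT L)| ≤ 3.15 / (2 * L) := by
    rw [abs_mul, abs_div, abs_of_pos (show 0 < 2 * Real.pi by positivity), abs_of_pos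
      (show (0 : ℝ) < TT L by linarith)]
    have h3 : |d| / TT L ≤ (1 / 2) / (2 * L) := by gcongr
    calc 2 * Real.pi * (|d| / TT L) ≤ 2 * Real.pi * ((1 / 2) / (2 * L)) := by gcongr
      _ = Real.pi / (2 * L) := by ring
      _ ≤ 3.15 / (2 * L) := by
        have := Real.pi_lt_d2
        gcongr
  have h3 : (2 * Real.pi * (d / TT L)) ^ 2 ≤ (3.15 / (2 * L)) ^ 2 := by
    rw [← sq_abs]
    gcongr
  have h4 : eT L d ≤ (3.15 / (2 * L)) ^ 2 := by
    unfold eT
    linarith
  have h5 : (L : ℝ) * eT L d ≤ L * (3.15 / (2 * L)) ^ 2 := by gcongr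
  have h6 : (L : ℝ) * (3.15 / (2 * L)) ^ 2 = (3.15 / 2) ^ 2 / L := by
    field_simp
  have h7 : (3.15 / 2 : ℝ) ^ 2 / L < 2 := by
    rw [div_lt_iff₀ (by linarith)]
    norm_num
    linarith
  linarith

/-- the kinetic energy of the row `y` -/
def Ky (hL : 5 ≤ L) (θ : ℝ) (φ : Conf Sym L → ℂ) (p : Bool) (y : ZMod L) : ℝ :=
  ∑ R : ZMod L → LRow L, ‖φ (cfg p R) - conj (omR hL θ p (R y)) * φ (cfg p (Fy hL y R))‖ ^ 2

/-- the weight of the good configurations -/
def Np (φ : Conf Sym L → ℂ) (p : Bool) : ℝ := ∑ R : ZMod L → LRow L, ‖φ (cfg p R)‖ ^ 2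

lemma Ky_ge (hL : 5 ≤ L) (hodd : L % 2 = 1) (θ : ℝ) (δ : Bool → ℝ) (w : Bool) (hf : Flux hL θ δ w)
    (φ : Conf Sym L → ℂ) (p : Bool) (y : ZMod L) :
    eT L (δ p) * Np φ p ≤ Ky hL θ φ p y ∧
    (|δ p| < 1 / 2 → Ky hL θ φ p y ≤ eT L (δ p) * Np φ p → ∀ R : ZMod L → LRow L,
      conj (omR hL θ p (R y)) * φ (cfg p (Fy hL y R)) = ex (-(δ p / TT L)) * φ (cfg p R)) := by
  have hT : 0 < TT L := by
    have := TT_ge hL hodd
    omega
  have h1 := cycle_ineq (Fy hL y) (fun R => omR hL θ p (R y)) (fun R => norm_omR hL θ p _) (TT L) hT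
    (δ p) (hf.half p) (fun R => by rw [Fy_pow, FF_pow hL hodd, Function.update_eq_self])
    (fun R => by
      rw [← hf.prod p, ← prod_cycle hL hodd (omR hL θ p) (R y)]
      refine Finset.prod_congr rfl fun j _ => ?_
      rw [Fy_pow, Function.update_self]) (fun R => φ (cfg p R))
  exact h1

open Classical in
/-- the weight of the other configurations -/
def Nb (φ : Conf Sym L → ℂ) : ℝ := ∑ s, (if ∀ p R, s ≠ cfg p R then ‖φ s‖ ^ 2 else 0)

lemma Nb_nonneg (φ : Conf Sym L → ℂ) : 0 ≤ Nb φ := by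
  unfold Nb
  refine Finset.sum_nonneg fun s _ => ?_
  split_ifs <;> positivity

lemma Np_nonneg (φ : Conf Sym L → ℂ) (p : Bool) : 0 ≤ Np φ p :=
  Finset.sum_nonneg fun _ _ => by positivity

lemma nrm_split (φ : Conf Sym L → ℂ) (w : Bool) : nrm φ = Np φ w + Np φ (!w) + Nb φ := by
  unfold nrm
  rw [sum_split]
  unfold Nb
  congr 1
  rw [Fintype.sum_bool]
  cases w <;> unfold Np <;> simp [add_comm]

lemma en_ge (hL : 5 ≤ L) (hodd : L % 2 = 1) (θ : ℝ) (φ : Conf Sym L → ℂ) (w : Bool) :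
    (L * Np φ w + ∑ y, Ky hL θ φ w y) + (L * Np φ (!w) + ∑ y, Ky hL θ φ (!w) y) + (L + 2) * Nb φ ≤
      en (hh θ) L φ := by
  classical
  rw [en_hh hL, ← Finset.sum_add_distrib, sum_split]
  have h1 : ∀ p, ∑ R, (((∑ v : Site L, potN (box 3 (cfg p R) v) : ℕ) : ℝ) * ‖φ (cfg p R)‖ ^ 2 +
      ∑ v : Site L, kin θ φ (cfg p R) v) = L * Np φ p + ∑ y, Ky hL θ φ p y := by
    intro p
    rw [Finset.sum_add_distrib]
    congr 1
    · unfold Np
      rw [Finset.mul_sum]
      refine Finset.sum_congr rfl fun R _ => ?_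
      rw [pot_good]
    · have h3 : ∑ y, Ky hL θ φ p y = ∑ R : ZMod L → LRow L, ∑ y,
          ‖φ (cfg p R) - conj (omR hL θ p (R y)) * φ (cfg p (Fy hL y R))‖ ^ 2 := by
        unfold Ky
        exact Finset.sum_comm
      rw [h3]
      refine Finset.sum_congr rfl fun R _ => ?_
      rw [kin_cfg hL]
  have h2 : (L + 2) * Nb φ ≤ ∑ s, (if ∀ p R, s ≠ cfg p R then
      (((∑ v : Site L, potN (box 3 s v) : ℕ) : ℝ) * ‖φ s‖ ^ 2 + ∑ v : Site L, kin θ φ s v) else 0) := by
    unfold Nb
    rw [Finset.mul_sum]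
    refine Finset.sum_le_sum fun s _ => ?_
    split_ifs with h
    · have h3 := pot_bad hodd s h
      have h4 : ((L : ℝ) + 2) ≤ ((∑ v : Site L, potN (box 3 s v) : ℕ) : ℝ) := by exact_mod_cast h3
      have h5 : 0 ≤ ∑ v : Site L, kin θ φ s v := Finset.sum_nonneg fun v _ => kin_nonneg _ _ _ _
      have h6 : ((L : ℝ) + 2) * ‖φ s‖ ^ 2 ≤ ((∑ v : Site L, potN (box 3 s v) : ℕ) : ℝ) * ‖φ s‖ ^ 2 := by
        gcongr
      linarith
    · simp
  rw [Fintype.sum_bool, h1, h1]
  cases w <;> simp only [Bool.not_false, Bool.not_true] <;> linarith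

/-- the vectors which attain the minimum -/
def IsMin (hL : 5 ≤ L) (θ : ℝ) (δ : Bool → ℝ) (w : Bool) (φ : Conf Sym L → ℂ) : Prop :=
  (∀ s, φ s ≠ 0 → ∃ R, s = cfg w R) ∧ ∀ y R,
    conj (omR hL θ w (R y)) * φ (cfg w (Fy hL y R)) = ex (-(δ w / TT L)) * φ (cfg w R)

lemma en_bound (hL : 5 ≤ L) (hodd : L % 2 = 1) (θ : ℝ) (δ : Bool → ℝ) (w : Bool)
    (hf : Flux hL θ δ w) (φ : Conf Sym L → ℂ) :
    (L + L * eT L (δ w)) * nrm φ ≤ en (hh θ) L φ ∧
    (en (hh θ) L φ ≤ (L + L * eT L (δ w)) * nrm φ → IsMin hL θ δ w φ) := by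
  have h0 := en_ge hL hodd θ φ w
  have h1 : ∀ p, L * eT L (δ p) * Np φ p ≤ ∑ y, Ky hL θ φ p y := by
    intro p
    have : ∑ y : ZMod L, eT L (δ p) * Np φ p ≤ ∑ y, Ky hL θ φ p y :=
      Finset.sum_le_sum fun y _ => (Ky_ge hL hodd θ δ w hf φ p y).1
    simpa [mul_assoc] using this
  have h2 := h1 w
  have h3 := h1 (!w)
  have e1 := eT_lt hL hodd _ _ hf.lt (hf.half _)
  have e2 := eT_small hL hodd _ (hf.half w)
  have n1 := Np_nonneg φ w
  have n2 := Np_nonneg φ (!w)
  have n3 := Nb_nonneg φ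
  have hL' : (5 : ℝ) ≤ L := by exact_mod_cast hL
  have e3 : (L : ℝ) * eT L (δ w) < L * eT L (δ (!w)) := by
    have : (0 : ℝ) < L := by linarith
    nlinarith
  rw [nrm_split φ w]
  have m1 : L * eT L (δ w) * Np φ (!w) ≤ L * eT L (δ (!w)) * Np φ (!w) := by
    exact mul_le_mul_of_nonneg_right e3.le n2
  have m2 : L * eT L (δ w) * Nb φ ≤ 2 * Nb φ := mul_le_mul_of_nonneg_right e2.le n3
  refine ⟨by nlinarith, fun h => ?_⟩
  have k1 : (L * eT L (δ (!w)) - L * eT L (δ w)) * Np φ (!w) + (2 - L * eT L (δ w)) * Nb φ +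
      (∑ y, Ky hL θ φ w y - L * eT L (δ w) * Np φ w) ≤ 0 := by nlinarith
  have k2 : 0 ≤ (L * eT L (δ (!w)) - L * eT L (δ w)) * Np φ (!w) :=
    mul_nonneg (by linarith) n2
  have k3 : 0 ≤ (2 - L * eT L (δ w)) * Nb φ := mul_nonneg (by linarith) n3
  have k4 : Np φ (!w) = 0 := by
    have : (L * eT L (δ (!w)) - L * eT L (δ w)) * Np φ (!w) = 0 := by linarith
    exact (mul_eq_zero.1 this).resolve_left (by linarith)
  have k5 : Nb φ = 0 := by
    have : (2 - L * eT L (δ w)) * Nb φ = 0 := by linarith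
    exact (mul_eq_zero.1 this).resolve_left (by linarith)
  have k6 : ∑ y, Ky hL θ φ w y ≤ L * eT L (δ w) * Np φ w := by linarith
  refine ⟨fun s hs => ?_, fun y R => ?_⟩
  · by_contra h4
    push Not at h4
    by_cases h5 : ∃ R, s = cfg (!w) R
    · obtain ⟨R, rfl⟩ := h5
      unfold Np at k4
      rw [Finset.sum_eq_zero_iff_of_nonneg (fun _ _ => by positivity)] at k4
      have := k4 R (Finset.mem_univ _)
      exact hs (by simpa using this)
    · push Not at h5
      have h6 : ∀ p R, s ≠ cfg p R := by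
        intro p R
        by_cases h7 : p = w
        · rw [h7]; exact h4 R
        · have : p = !w := by cases p <;> cases w <;> simp_all
          rw [this]; exact h5 R
      classical
      unfold Nb at k5
      rw [Finset.sum_eq_zero_iff_of_nonneg (fun _ _ => by split_ifs <;> positivity)] at k5
      have := k5 s (Finset.mem_univ _)
      rw [if_pos h6] at this
      exact hs (by simpa using this)
  · refine (Ky_ge hL hodd θ δ w hf φ w y).2 (lt_of_lt_of_le hf.lt (hf.half _)) ?_ R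
    by_contra h4
    push Not at h4
    have h5 : ∑ y' : ZMod L, eT L (δ w) * Np φ w < ∑ y', Ky hL θ φ w y' :=
      Finset.sum_lt_sum (fun y' _ => (Ky_ge hL hodd θ δ w hf φ w y').1) ⟨y, Finset.mem_univ _, h4⟩
    simp only [Finset.sum_const, Finset.card_univ, ZMod.card, nsmul_eq_mul] at h5
    linarith

/-- the energy of such a vector -/
lemma en_min (hL : 5 ≤ L) (θ : ℝ) (δ : Bool → ℝ) (w : Bool) (φ : Conf Sym L → ℂ)
    (h : IsMin hL θ δ w φ) : en (hh θ) L φ = (L + L * eT L (δ w)) * nrm φ := by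
  rw [en_hh hL, ← Finset.sum_add_distrib]
  unfold nrm
  rw [Finset.mul_sum]
  refine Finset.sum_congr rfl fun s _ => ?_
  by_cases hs : ∃ R, s = cfg w R
  · obtain ⟨R, rfl⟩ := hs
    rw [pot_good, kin_cfg hL]
    have h1 : ∀ y : ZMod L, ‖φ (cfg w R) - conj (omR hL θ w (R y)) * φ (cfg w (Fy hL y R))‖ ^ 2 =
        eT L (δ w) * ‖φ (cfg w R)‖ ^ 2 := by
      intro y
      rw [h.2 y R]
      have : φ (cfg w R) - ex (-(δ w / TT L)) * φ (cfg w R) = (1 - ex (-(δ w / TT L))) * φ (cfg w R) := by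
        ring
      rw [this, norm_mul, mul_pow, norm_one_sub_ex]
      unfold eT
      rw [mul_neg, Real.cos_neg]
    rw [Finset.sum_congr rfl fun y _ => h1 y]
    simp only [Finset.sum_const, Finset.card_univ, ZMod.card, nsmul_eq_mul]
    ring
  · have h0 : φ s = 0 := by
      by_contra h1
      exact hs (h.1 s h1)
    have h2 : ∀ v : Site L, kin θ φ s v = 0 := by
      intro v
      unfold kin
      split_ifs with hd
      · have h3 : φ (put s v (mB3 (box 3 s v))) = 0 := by
          by_contra h4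
          obtain ⟨R, hR⟩ := h.1 _ h4
          exact hs (pre_cfg hL s v hd w R hR)
        rw [h0, h3]
        simp
      · rfl
    rw [Finset.sum_congr rfl fun v _ => h2 v, h0]
    simp

lemma IsMin.smul {hL : 5 ≤ L} {θ : ℝ} {δ : Bool → ℝ} {w : Bool} {φ : Conf Sym L → ℂ}
    (h : IsMin hL θ δ w φ) (c : ℂ) : IsMin hL θ δ w (fun s => c * φ s) := by
  refine ⟨fun s hs => h.1 s (right_ne_zero_of_mul hs), fun y R => ?_⟩
  have := h.2 y R
  calc conj (omR hL θ w (R y)) * (c * φ (cfg w (Fy hL y R)))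
      = c * (conj (omR hL θ w (R y)) * φ (cfg w (Fy hL y R))) := by ring
    _ = _ := by rw [this]; ring

lemma IsMin.sub {hL : 5 ≤ L} {θ : ℝ} {δ : Bool → ℝ} {w : Bool} {φ ψ : Conf Sym L → ℂ}
    (h : IsMin hL θ δ w φ) (h' : IsMin hL θ δ w ψ) : IsMin hL θ δ w (fun s => φ s - ψ s) := by
  refine ⟨fun s hs => ?_, fun y R => ?_⟩
  · by_cases h1 : φ s = 0
    · refine h'.1 s fun h2 => hs ?_
      change φ s - ψ s = 0
      rw [h1, h2, sub_zero]
    · exact h.1 s h1
  · simp only
    rw [mul_sub, mul_sub, h.2 y R, h'.2 y R]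

/-- such a vector is determined by one value -/
lemma IsMin.zero {hL : 5 ≤ L} (hodd : L % 2 = 1) {θ : ℝ} {δ : Bool → ℝ} {w : Bool}
    {φ : Conf Sym L → ℂ} (h : IsMin hL θ δ w φ) (R₀ : ZMod L → LRow L) (h0 : φ (cfg w R₀) = 0) :
    ∀ s, φ s = 0 := by
  classical
  have step : ∀ y R, φ (cfg w R) = 0 → φ (cfg w (Fy hL y R)) = 0 := by
    intro y R hR
    have := h.2 y R
    rw [hR, mul_zero] at this
    refine (mul_eq_zero.1 this).resolve_left ?_
    intro h1
    have h2 := norm_omR hL θ w (R y)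
    rw [← RCLike.norm_conj, h1] at h2
    simp at h2
  have step' : ∀ y n R, φ (cfg w R) = 0 → φ (cfg w (((Fy hL y) ^ n) R)) = 0 := by
    intro y n R hR
    induction n with
    | zero => simpa using hR
    | succ n ih =>
      rw [pow_succ', Equiv.Perm.mul_apply]
      exact step y _ ih
  have step'' : ∀ y (g : LRow L) R, φ (cfg w R) = 0 → φ (cfg w (Function.update R y g)) = 0 := by
    intro y g R hR
    obtain ⟨n, -, hn⟩ := FF_surj hL hodd (R y) g
    have := step' y n R hR
    rwa [Fy_pow, hn] at this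
  have key : ∀ (S : Finset (ZMod L)) (R : ZMod L → LRow L), (∀ y, y ∉ S → R y = R₀ y) →
      φ (cfg w R) = 0 := by
    intro S
    induction S using Finset.induction_on with
    | empty =>
      intro R hR
      have : R = R₀ := funext fun y => hR y (by simp)
      rw [this]
      exact h0
    | insert a S ha ih =>
      intro R hR
      have h1 := ih (Function.update R a (R₀ a)) (by
        intro y hy
        by_cases hya : y = a
        · rw [hya, Function.update_self]
        · rw [Function.update_of_ne hya]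
          exact hR y (by simp [hya, hy]))
      have h2 := step'' a (R a) _ h1
      rwa [Function.update_idem, Function.update_eq_self] at h2
  intro s
  by_contra hs
  obtain ⟨R, rfl⟩ := h.1 s hs
  exact hs (key Finset.univ R fun y hy => absurd (Finset.mem_univ y) hy)

open Classical in
/-- there is such a vector -/
lemma exists_min (hL : 5 ≤ L) (hodd : L % 2 = 1) (θ : ℝ) (δ : Bool → ℝ) (w : Bool)
    (hf : Flux hL θ δ w) : ∃ φ : Conf Sym L → ℂ, IsMin hL θ δ w φ ∧ nrm φ = 1 := by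
  have hT : 0 < TT L := by
    have := TT_ge hL hodd
    omega
  -- one row
  let g₀ : LRow L := ⟨St 0 true 0 .r (fun _ => true), St_legal hL hodd 0 true 0 (by omega) .r
    (Or.inl rfl) _⟩
  let χ : LRow L → ℂ := PP (FF hL) (omR hL θ w) (TT L) (δ w) 0 (fun g => if g = g₀ then 1 else 0)
  have hχ : ∀ g, conj (omR hL θ w g) * χ (FF hL g) = ex (-(δ w / TT L)) * χ g := by
    intro g
    have h1 := PP_UU (FF hL) (omR hL θ w) (TT L) hT (δ w) (FF_pow hL hodd)
      (fun g => by rw [prod_cycle hL hodd, hf.prod]) 0 (fun g => if g = g₀ then 1 else 0) g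
    have h2 : PP (FF hL) (omR hL θ w) (TT L) (δ w) 0
        (UU (FF hL) (omR hL θ w) (fun g => if g = g₀ then 1 else 0)) g =
        conj (omR hL θ w g) * χ (FF hL g) := by
      change _ = conj (omR hL θ w g) * PP (FF hL) (omR hL θ w) (TT L) (δ w) 0
        (fun g => if g = g₀ then 1 else 0) (FF hL g)
      unfold PP
      rw [Finset.mul_sum]
      refine Finset.sum_congr rfl fun k _ => ?_
      rw [WW_UU]
      unfold WW
      rw [Finset.prod_range_succ', pow_succ, Equiv.Perm.mul_apply]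
      have h3 : ∀ j, ((FF hL) ^ (j + 1)) g = ((FF hL) ^ j) (FF hL g) := by
        intro j
        rw [pow_succ, Equiv.Perm.mul_apply]
      simp only [h3, pow_zero, Equiv.Perm.one_apply, map_mul]
      ring
    rw [← h2, h1, Nat.cast_zero, add_zero]
  have hχ0 : χ g₀ = 1 := by
    change PP (FF hL) (omR hL θ w) (TT L) (δ w) 0 (fun g => if g = g₀ then 1 else 0) g₀ = 1
    unfold PP
    rw [Finset.sum_eq_single 0]
    · rw [WW_zero]
      simp [ex_zero]
    · intro k hk hk0
      unfold WW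
      have h1 : ((FF hL) ^ k) g₀ ≠ g₀ := by
        intro h2
        have h3 : ∀ n < TT L, ∃ m < k, ((FF hL) ^ n) g₀ = ((FF hL) ^ m) g₀ := by
          intro n _
          refine ⟨n % k, Nat.mod_lt _ (Nat.pos_of_ne_zero hk0), ?_⟩
          have h4 : ∀ q : ℕ, ((FF hL) ^ (k * q)) g₀ = g₀ := by
            intro q
            rw [pow_mul]
            induction q with
            | zero => simp
            | succ q ih => rw [pow_succ', Equiv.Perm.mul_apply, ih, h2]
          conv_lhs => rw [← Nat.mod_add_div n k, pow_add, Equiv.Perm.mul_apply, h4]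
        have h5 : (Finset.univ : Finset (LRow L)) ⊆
            (Finset.range k).image (fun m => ((FF hL) ^ m) g₀) := by
          intro g _
          obtain ⟨n, hn, hg⟩ := FF_surj hL hodd g₀ g
          obtain ⟨m, hm, hm'⟩ := h3 n hn
          rw [Finset.mem_image]
          exact ⟨m, Finset.mem_range.2 hm, by rw [← hm', hg]⟩
        have h6 := (Finset.card_le_card h5).trans Finset.card_image_le
        rw [Finset.card_range, Finset.card_univ] at h6
        have h7 := Finset.mem_range.1 hk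
        unfold TT at h7
        omega
      simp only [if_neg h1, mul_zero]
    · intro h
      exact absurd (Finset.mem_range.2 hT) h
  -- the product
  let Φ : Conf Sym L → ℂ := fun s => ∑ R : ZMod L → LRow L, if s = cfg w R then ∏ y, χ (R y) else 0
  have hΦ : ∀ R, Φ (cfg w R) = ∏ y, χ (R y) := by
    intro R
    change ∑ R' : ZMod L → LRow L, (if cfg w R = cfg w R' then ∏ y, χ (R' y) else 0) = _
    rw [Finset.sum_eq_single R]
    · rw [if_pos rfl]
    · intro R' _ hR'
      rw [if_neg]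
      intro h
      have h1 := cfg_inj (a₁ := (w, R)) (a₂ := (w, R')) h
      exact hR' (congrArg Prod.snd h1).symm
    · intro h
      exact absurd (Finset.mem_univ _) h
  have hmin : IsMin hL θ δ w Φ := by
    refine ⟨fun s hs => ?_, fun y R => ?_⟩
    · by_contra h
      push Not at h
      apply hs
      refine Finset.sum_eq_zero fun R _ => ?_
      rw [if_neg (h R)]
    · rw [hΦ, hΦ, ← Finset.mul_prod_erase Finset.univ _ (Finset.mem_univ y),
        ← Finset.mul_prod_erase Finset.univ (fun y => χ (R y)) (Finset.mem_univ y), Fy_apply,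
        Function.update_self]
      have h1 : ∏ y' ∈ Finset.univ.erase y, χ (Function.update R y (FF hL (R y)) y') =
          ∏ y' ∈ Finset.univ.erase y, χ (R y') := by
        refine Finset.prod_congr rfl fun y' hy' => ?_
        rw [Function.update_of_ne (Finset.ne_of_mem_erase hy')]
      rw [h1, ← mul_assoc, hχ, mul_assoc]
  have hpos : 0 < nrm Φ := by
    unfold nrm
    refine Finset.sum_pos' (fun _ _ => by positivity) ⟨cfg w (fun _ => g₀), Finset.mem_univ _, ?_⟩
    rw [hΦ]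
    simp [hχ0]
  refine ⟨fun s => ((Real.sqrt (nrm Φ))⁻¹ : ℝ) * Φ s, hmin.smul _, ?_⟩
  have h1 : nrm (fun s => (((Real.sqrt (nrm Φ))⁻¹ : ℝ) : ℂ) * Φ s) =
      ((Real.sqrt (nrm Φ))⁻¹) ^ 2 * nrm Φ := by
    unfold nrm
    rw [Finset.mul_sum]
    refine Finset.sum_congr rfl fun s _ => ?_
    rw [norm_mul, mul_pow, Complex.norm_real, Real.norm_eq_abs, sq_abs]
  rw [h1, inv_pow, Real.sq_sqrt hpos.le, inv_mul_cancel₀ hpos.ne']

/-- **The ground state.** -/
theorem ground (hL : 5 ≤ L) (hodd : L % 2 = 1) (θ : ℝ) (δ : Bool → ℝ) (w : Bool)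
    (hf : Flux hL θ δ w) : UniqueGround (hh θ) L ∧ ∀ Ψ, IsGround (hh θ) L Ψ →
      ∀ s, Ψ s ≠ 0 → (s (0, 0)).1 = w := by
  obtain ⟨φ, hφ, hφ1⟩ := exists_min hL hodd θ δ w hf
  have hen : en (hh θ) L φ = L + L * eT L (δ w) := by
    rw [en_min hL θ δ w φ hφ, hφ1, mul_one]
  have hgr : IsGround (hh θ) L φ := by
    refine ⟨hφ1, fun ψ hψ => ?_⟩
    have := (en_bound hL hodd θ δ w hf ψ).1
    rw [hψ, mul_one] at this
    rw [hen]
    exact this
  have hall : ∀ Ψ, IsGround (hh θ) L Ψ → IsMin hL θ δ w Ψ := by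
    intro Ψ hΨ
    refine (en_bound hL hodd θ δ w hf Ψ).2 ?_
    rw [hΨ.1, mul_one, ← hen]
    exact hΨ.2 φ hφ1
  refine ⟨⟨φ, hgr, fun Ψ' hΨ' => ?_⟩, fun Ψ hΨ s hs => ?_⟩
  · let g₀ : LRow L := ⟨St 0 true 0 .r (fun _ => true), St_legal hL hodd 0 true 0 (by omega) .r
      (Or.inl rfl) _⟩
    have h1 : φ (cfg w fun _ => g₀) ≠ 0 := by
      intro h2
      have h3 := hφ.zero hodd _ h2
      unfold nrm at hφ1
      rw [Finset.sum_congr rfl fun s _ => by rw [h3 s]] at hφ1
      simp at hφ1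
    refine ⟨Ψ' (cfg w fun _ => g₀) / φ (cfg w fun _ => g₀), ?_⟩
    have h4 := ((hall Ψ' hΨ').sub (hφ.smul (Ψ' (cfg w fun _ => g₀) / φ (cfg w fun _ => g₀)))).zero
      hodd (fun _ => g₀) (by field_simp; ring)
    funext s
    have := h4 s
    simp only at this
    rw [sub_eq_zero] at this
    rw [this]
    rfl
  · obtain ⟨R, rfl⟩ := (hall Ψ hΨ).1 s hs
    rfl

end

end Pool.Agent.T9h50.PE
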