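import Pool.Agent.T9h50.PE.Tran

/-! The legal rows form one cycle; the numbers of the rows with certain moves. -/

set_option autoImplicit false

noncomputable section

namespace Pool.Agent.T9h50.PE

section
variable {L : ℕ} [NeZero L]

lemma ok_cf (c : Bool) (m : ℕ) (d : Ty) (hd : d = .r ∨ d = .l) (u : ℕ → Bool) (k : ℕ) :
    okP (cf c m d u k) (cf c m d u (k + 1)) := by
  have hcol : (cf c m d u (k + 1)).2 = nc (cf c m d u k).1 (cf c m d u k).2 := by
    unfold cf nc
    rcases Nat.eq_zero_or_pos k with h | h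
    · subst h
      simp
    · have h1 : ¬ (k = 0) := by omega
      have h2 : ¬ (k + 1 = 0) := by omega
      have h3 : (if k = 0 then Ty.s else if k ≤ m then .z else if k = m + 1 then d else
        if u k then .i else .o) ≠ .s := by
        rcases hd with rfl | rfl <;> (split_ifs <;> simp_all)
      simp only [h3, if_false]
      by_cases h5 : k % 2 = 1
      · have h6 : ¬ (k + 1 = 0 ∨ (k + 1) % 2 = 1) := by omega
        rw [if_neg h6, if_pos (Or.inr h5)]
      · have h6 : (k + 1 = 0 ∨ (k + 1) % 2 = 1) := by omega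
        have h7 : ¬ (k = 0 ∨ k % 2 = 1) := by omega
        rw [if_pos h6, if_neg h7, Bool.not_not]
  refine ⟨?_, hcol⟩
  unfold cf
  rcases hd with rfl | rfl <;>
  · rcases Nat.eq_zero_or_pos k with h | h
    · subst h
      rcases Nat.eq_zero_or_pos m with h' | h'
      · subst h'
        simp [suc]
      · have : 0 + 1 ≤ m := by omega
        simp [this, suc]
    · rcases Nat.lt_trichotomy k (m + 1) with h1 | h1 | h1
      · have a1 : ¬ k = 0 := by omega
        have a2 : k ≤ m := by omega
        have a3 : ¬ k + 1 = 0 := by omega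
        rcases Nat.lt_or_ge k m with h2 | h2
        · have a4 : k + 1 ≤ m := by omega
          simp [a1, a2, a4, suc]
        · have a4 : k = m := by omega
          subst a4
          simp [a1, suc]
      · subst h1
        cases h2 : u (m + 1 + 1) <;> simp [h2, suc]
      · have a1 : ¬ k = 0 := by omega
        have a2 : ¬ k ≤ m := by omega
        have a3 : ¬ k = m + 1 := by omega
        have a4 : ¬ k + 1 ≤ m := by omega
        have a5 : ¬ k = m := by omega
        cases h2 : u (k + 1) <;> cases h3 : u k <;> simp [a1, a2, a3, a4, a5, h2, h3, suc]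

lemma ok_cf_last (hL : 5 ≤ L) (hodd : L % 2 = 1) (c : Bool) (m : ℕ) (hm : m + 2 ≤ L) (d : Ty)
    (hd : d = .r ∨ d = .l) (u : ℕ → Bool) :
    okP (cf c m d u (L - 1)) (cf c m d u 0) := by
  have a1 : ¬ L - 1 = 0 := by omega
  have a2 : ¬ L - 1 ≤ m := by omega
  have a3 : ¬ (L - 1 = 0 ∨ (L - 1) % 2 = 1) := by omega
  have h1 : ∃ t, (t = .r ∨ t = .l ∨ t = .o ∨ t = .i) ∧ cf c m d u (L - 1) = (t, !c) := by
    unfold cf
    rw [if_neg a1, if_neg a2, if_neg a3]
    refine ⟨_, ?_, rfl⟩
    split_ifs
    · rcases hd with rfl | rfl <;> simp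
    · simp
    · simp
  obtain ⟨t, ht, ht'⟩ := h1
  rw [ht']
  have h2 : cf c m d u 0 = (.s, c) := by unfold cf; simp
  rw [h2]
  rcases ht with rfl | rfl | rfl | rfl <;> simp [okP, suc, nc]

lemma St_legal (hL : 5 ≤ L) (hodd : L % 2 = 1) (x : ZMod L) (c : Bool) (m : ℕ) (hm : m + 2 ≤ L)
    (d : Ty) (hd : d = .r ∨ d = .l) (u : ℕ → Bool) : Legal (St x c m d u) := by
  refine ⟨fun y => ?_, x, ?_, fun y hy => ?_⟩
  · obtain ⟨k, hk, rfl⟩ : ∃ k < L, y = x + (k : ZMod L) :=
      ⟨(y - x).val, ZMod.val_lt _, by rw [ZMod.natCast_zmod_val]; ring⟩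
    have e1 : x + (k : ZMod L) + 1 = x + ((k + 1 : ℕ) : ZMod L) := by push_cast; ring
    unfold St
    rw [e1, rowf_at', rowf_at', Nat.mod_eq_of_lt hk]
    rcases Nat.lt_or_ge (k + 1) L with h | h
    · rw [Nat.mod_eq_of_lt h]
      exact ok_cf c m d hd u k
    · have h1 : k = L - 1 := by omega
      have h2 : (k + 1) % L = 0 := by rw [show k + 1 = L by omega, Nat.mod_self]
      rw [h2, h1]
      exact ok_cf_last hL hodd c m hm d hd u
  · change (rowf x (cf c m d u) x).1 = .s
    have := rowf_at x (cf c m d u) 0 (by omega)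
    rw [Nat.cast_zero, add_zero] at this
    rw [this]
    simp [cf]
  · change (rowf x (cf c m d u) y).1 = .s at hy
    unfold rowf at hy
    have h1 : (y - x).val = 0 := by
      by_contra h
      unfold cf at hy
      simp only [if_neg h] at hy
      rcases hd with rfl | rfl <;> (split_ifs at hy)
    rw [ZMod.val_eq_zero, sub_eq_zero] at h1
    exact h1

lemma chk10 : ∀ a b : Cell, (okP a b ∧ (a.1 = .s ∨ a.1 = .z) ∧ b.1 ≠ .s ∧ hd b.1 = false) →
    b.1 = .z := by decide +kernel

lemma chk11 : ∀ a b : Cell, (okP a b ∧ (a.1 = .r ∨ a.1 = .l ∨ a.1 = .o ∨ a.1 = .i) ∧ b.1 ≠ .s) →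
    b.1 = .o ∨ b.1 = .i := by decide +kernel

theorem legal_St (r : Row L) (hr : Legal r) :
    ∃ (x : ZMod L) (c : Bool) (m : ℕ) (d : Ty) (u : ℕ → Bool), m + 2 ≤ L ∧ (d = .r ∨ d = .l) ∧
      r = St x c m d u := by
  obtain ⟨h, h1, h2'⟩ := head_unique r hr
  have h2 : ∀ y, hd (r y).1 = true → y = h := fun y hy => h2' y hy
  obtain ⟨x, h3, h4'⟩ := hr.2
  have h4 : ∀ y, (r y).1 = .s → y = x := fun y hy => h4' y hy
  set n := (h - x).val with hn
  have hnL : n < L := ZMod.val_lt _
  have hxn : x + (n : ZMod L) = h := by rw [hn, ZMod.natCast_zmod_val]; ring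
  have hn0 : n ≠ 0 := by
    intro h5
    rw [h5, Nat.cast_zero, add_zero] at hxn
    rw [← hxn] at h1
    rw [h3] at h1
    exact absurd h1 (by decide)
  refine ⟨x, (r x).2, n - 1, (r h).1, fun k => decide ((r (x + (k : ZMod L))).1 = .i), by omega,
    hd_cases h1, ?_⟩
  have hdc := hd_cases h1
  have hne : ∀ k, k < L → k ≠ 0 → x + (k : ZMod L) ≠ x := by
    intro k hk hk0 h5
    have h6 : (k : ZMod L) = 0 := by
      have : x + (k : ZMod L) = x + 0 := by rw [h5, add_zero]
      exact add_left_cancel this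
    rw [ZMod.natCast_eq_zero_iff] at h6
    exact hk0 (Nat.eq_zero_of_dvd_of_lt h6 hk)
  have hnh : ∀ k, k < L → k ≠ n → hd (r (x + (k : ZMod L))).1 = false := by
    intro k hk hkn
    by_contra h5
    have h6 := h2 _ (by simpa using h5)
    rw [← hxn] at h6
    have h7 := add_left_cancel h6
    rw [ZMod.natCast_eq_natCast_iff', Nat.mod_eq_of_lt hk, Nat.mod_eq_of_lt hnL] at h7
    exact hkn h7
  have key : ∀ k, k < L → r (x + (k : ZMod L)) = cf (r x).2 (n - 1) (r h).1
      (fun k => decide ((r (x + (k : ZMod L))).1 = .i)) k := by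
    intro k
    induction k with
    | zero =>
      intro _
      rw [Nat.cast_zero, add_zero]
      unfold cf
      simp only [if_true, true_or]
      exact Prod.ext h3 rfl
    | succ k ih =>
      intro hk
      have ih' := ih (by omega)
      have e1 : x + (k : ZMod L) + 1 = x + ((k + 1 : ℕ) : ZMod L) := by push_cast; ring
      have ok := hr.1 (x + (k : ZMod L))
      rw [e1] at ok
      have ns : (r (x + ((k + 1 : ℕ) : ZMod L))).1 ≠ .s := fun h5 => hne (k + 1) hk (by omega) (h4 _ h5)
      have hcol : (r (x + ((k + 1 : ℕ) : ZMod L))).2 =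
          (cf (r x).2 (n - 1) (r h).1 (fun k => decide ((r (x + (k : ZMod L))).1 = .i)) (k + 1)).2 := by
        rw [ok.2, ih']
        exact ((ok_cf (r x).2 (n - 1) (r h).1 hdc _ k).2).symm
      refine Prod.ext ?_ hcol
      rcases Nat.lt_trichotomy (k + 1) n with h5 | h5 | h5
      · have h6 : (r (x + (k : ZMod L))).1 = .s ∨ (r (x + (k : ZMod L))).1 = .z := by
          rw [ih']
          unfold cf
          rcases Nat.eq_zero_or_pos k with h7 | h7
          · left; simp [h7]
          · right
            have a1 : ¬ k = 0 := by omega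
            have a2 : k ≤ n - 1 := by omega
            simp [a1, a2]
        rw [chk10 _ _ ⟨ok, h6, ns, hnh (k + 1) hk (by omega)⟩]
        unfold cf
        have a1 : ¬ k + 1 = 0 := by omega
        have a2 : k + 1 ≤ n - 1 := by omega
        simp [a2]
      · have h6 : x + ((k + 1 : ℕ) : ZMod L) = h := by rw [h5, hxn]
        rw [h6]
        unfold cf
        have a1 : ¬ k + 1 = 0 := by omega
        have a2 : ¬ k + 1 ≤ n - 1 := by omega
        have a3 : k + 1 = n - 1 + 1 := by omega
        simp only [if_neg a1, if_neg a2, if_pos a3]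
      · have h6 : (r (x + (k : ZMod L))).1 = .r ∨ (r (x + (k : ZMod L))).1 = .l ∨
            (r (x + (k : ZMod L))).1 = .o ∨ (r (x + (k : ZMod L))).1 = .i := by
          rw [ih']
          unfold cf
          have a1 : ¬ k = 0 := by omega
          have a2 : ¬ k ≤ n - 1 := by omega
          simp only [if_neg a1, if_neg a2]
          split_ifs
          · rcases hdc with h7 | h7 <;> simp [h7]
          · simp
          · simp
        have h7 := chk11 _ _ ⟨ok, h6, ns⟩
        unfold cf
        have a1 : ¬ k + 1 = 0 := by omega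
        have a2 : ¬ k + 1 ≤ n - 1 := by omega
        have a3 : ¬ k + 1 = n - 1 + 1 := by omega
        simp only [if_neg a1, if_neg a2, if_neg a3, decide_eq_true_eq]
        rcases h7 with h7 | h7 <;> rw [h7] <;> simp
  funext y
  have h5 : y = x + ((y - x).val : ZMod L) := by rw [ZMod.natCast_zmod_val]; ring
  conv_lhs => rw [h5]
  rw [key _ (ZMod.val_lt _)]
  rfl

end

noncomputable instance LRow.fintype {L : ℕ} [NeZero L] : Fintype (LRow L) := Fintype.ofFinite _

section
variable {L : ℕ} [NeZero L]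

lemma sameCycle_of_eqv (hL : 5 ≤ L) {r r' : Row L} (h : Eqv r r') : (Legal r ↔ Legal r') ∧
    ∀ (hr : Legal r) (hr' : Legal r'), (FF hL).SameCycle ⟨r, hr⟩ ⟨r', hr'⟩ := by
  induction h with
  | rel r r' h =>
    obtain ⟨x, hx⟩ := h
    refine ⟨⟨legal_mv hL _ _ x hx, legal_vm hL _ _ x hx⟩, fun hr hr' => ⟨1, ?_⟩⟩
    rw [zpow_one]
    exact Subtype.ext (nxt_eq hL ⟨r, hr⟩ x r' hx)
  | refl r => exact ⟨Iff.rfl, fun hr hr' => Equiv.Perm.SameCycle.refl _ _⟩
  | symm r r' _ ih => exact ⟨ih.1.symm, fun hr hr' => (ih.2 hr' hr).symm⟩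
  | trans a b c _ _ ih1 ih2 =>
    exact ⟨ih1.1.trans ih2.1, fun ha hc => (ih1.2 ha (ih1.1.1 ha)).trans (ih2.2 (ih1.1.1 ha) hc)⟩

theorem sameCycle (hL : 5 ≤ L) (hodd : L % 2 = 1) (g g' : LRow L) : (FF hL).SameCycle g g' := by
  obtain ⟨x, c, m, d, u, hm, hd, h⟩ := legal_St g.1 g.2
  obtain ⟨x', c', m', d', u', hm', hd', h'⟩ := legal_St g'.1 g'.2
  have h1 := all_St hL hodd x x' c c' u u' m m' hm hm' d d' hd hd'
  rw [← h, ← h'] at h1
  exact (sameCycle_of_eqv hL h1).2 g.2 g'.2

lemma isCycleOn (hL : 5 ≤ L) (hodd : L % 2 = 1) :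
    (FF hL).IsCycleOn ((Finset.univ : Finset (LRow L)) : Set (LRow L)) := by
  refine ⟨?_, fun g _ g' _ => sameCycle hL hodd g g'⟩
  rw [Finset.coe_univ]
  exact Set.bijOn_univ.2 (FF hL).bijective

/-- the number of the legal rows -/
def TT (L : ℕ) [NeZero L] : ℕ := Fintype.card (LRow L)

lemma FF_pow (hL : 5 ≤ L) (hodd : L % 2 = 1) (g : LRow L) : ((FF hL) ^ (TT L)) g = g := by
  unfold TT
  rw [← Finset.card_univ]
  exact (isCycleOn hL hodd).pow_card_apply (Finset.mem_univ _)

lemma FF_surj (hL : 5 ≤ L) (hodd : L % 2 = 1) (g g' : LRow L) : ∃ n < TT L, ((FF hL) ^ n) g = g' := by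
  unfold TT
  rw [← Finset.card_univ]
  exact (isCycleOn hL hodd).exists_pow_eq (Finset.mem_univ _) (Finset.mem_univ _)

lemma prod_cycle (hL : 5 ≤ L) (hodd : L % 2 = 1) (w : LRow L → ℂ) (g : LRow L) :
    ∏ j ∈ Finset.range (TT L), w (((FF hL) ^ j) g) = ∏ g', w g' := by
  classical
  have h1 : (Finset.range (TT L)).image (fun j => ((FF hL) ^ j) g) = Finset.univ := by
    ext g'
    simp only [Finset.mem_image, Finset.mem_range, Finset.mem_univ, iff_true]
    exact FF_surj hL hodd g g'
  have h2 : Set.InjOn (fun j => ((FF hL) ^ j) g) (Finset.range (TT L) : Set ℕ) := by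
    apply Finset.card_image_iff.1
    rw [h1, Finset.card_univ, Finset.card_range]
    rfl
  rw [← h1, Finset.prod_image h2]

/-- the stop is followed by the head `l` -/
def IsB (r : Row L) : Prop := ∃ x, (r x).1 = .s ∧ (r (x + 1)).1 = .l

/-- the stop is preceded by the head `r` -/
def IsA (r : Row L) : Prop := ∃ x, (r x).1 = .r ∧ (r (x + 1)).1 = .s

/-- extension of a finite sequence of bits -/
def extB (L : ℕ) (v : Fin (L - 2) → Bool) (k : ℕ) : Bool :=
  if h : k - 2 < L - 2 then v ⟨k - 2, h⟩ else false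

lemma St_stop (hL : 5 ≤ L) (x : ZMod L) (c : Bool) (m : ℕ) (d : Ty) (u : ℕ → Bool) :
    St x c m d u x = (.s, c) := by
  have := rowf_at x (cf c m d u) 0 (by omega)
  rw [Nat.cast_zero, add_zero] at this
  unfold St
  rw [this]
  simp [cf]

lemma cntB (hL : 5 ≤ L) (hodd : L % 2 = 1) : Nat.card {g : LRow L // IsB g.1} = L * 2 ^ (L - 1) := by
  let Φ : ZMod L × Bool × (Fin (L - 2) → Bool) → {g : LRow L // IsB g.1} := fun p =>
    ⟨⟨St p.1 p.2.1 0 .l (extB L p.2.2), St_legal hL hodd _ _ 0 (by omega) .l (Or.inr rfl) _⟩,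
      p.1, by
        change (St p.1 p.2.1 0 .l (extB L p.2.2) p.1).1 = .s
        rw [St_stop hL], by
        have := rowf_at p.1 (cf p.2.1 0 .l (extB L p.2.2)) 1 (by omega)
        rw [Nat.cast_one] at this
        change (rowf p.1 (cf p.2.1 0 .l (extB L p.2.2)) (p.1 + 1)).1 = .l
        rw [this]
        simp [cf]⟩
  have hΦ : Function.Bijective Φ := by
    constructor
    · rintro ⟨x, c, v⟩ ⟨x', c', v'⟩ h
      have h1 : St x c 0 .l (extB L v) = St x' c' 0 .l (extB L v') := by
        have := congrArg (fun g => g.1.1) h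
        exact this
      have h2 : Legal (St x' c' 0 .l (extB L v')) := St_legal hL hodd _ _ 0 (by omega) .l (Or.inr rfl) _
      have hx : x = x' := by
        apply h2.2.unique
        · rw [← h1, St_stop hL]
        · rw [St_stop hL]
      subst hx
      have hc : c = c' := by
        have := congrFun h1 x
        rw [St_stop hL, St_stop hL] at this
        exact congrArg Prod.snd this
      subst hc
      have hv : v = v' := by
        funext k
        have h3 := congrFun h1 (x + ((k.1 + 2 : ℕ) : ZMod L))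
        unfold St at h3
        rw [rowf_at _ _ _ (by omega), rowf_at _ _ _ (by omega)] at h3
        have h4 := congrArg Prod.fst h3
        unfold cf extB at h4
        simp only [Nat.add_sub_cancel, k.2, dif_pos] at h4
        have a1 : ¬ k.1 + 2 = 0 := by omega
        have a2 : ¬ k.1 + 2 ≤ 0 := by omega
        have a3 : ¬ k.1 + 2 = 0 + 1 := by omega
        simp only [if_neg a2, if_neg a3, if_neg a1, Fin.eta] at h4
        cases h5 : v k <;> cases h6 : v' k <;> simp_all
      rw [hv]
    · rintro ⟨g, hg⟩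
      obtain ⟨x, c, m, d, u, hm, hd, h⟩ := legal_St g.1 g.2
      obtain ⟨y, hy1, hy2⟩ := hg
      have hyx : y = x := by
        apply g.2.2.unique hy1
        rw [h, St_stop hL]
      subst hyx
      rw [h] at hy2
      have h1 := rowf_at y (cf c m d u) 1 (by omega)
      rw [Nat.cast_one] at h1
      unfold St at hy2
      rw [h1] at hy2
      have hm0 : m = 0 := by
        by_contra h2
        have : 1 ≤ m := by omega
        simp [cf, this] at hy2
      subst hm0
      have hdl : d = .l := by simpa [cf] using hy2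
      subst hdl
      refine ⟨(y, c, fun k => u (k.1 + 2)), ?_⟩
      apply Subtype.ext
      apply Subtype.ext
      change St y c 0 .l (extB L fun k => u (k.1 + 2)) = g.1
      rw [h]
      refine St_congr _ _ _ _ _ _ fun k hk hkL => ?_
      unfold extB
      have h2 : k - 2 < L - 2 := by omega
      rw [dif_pos h2]
      change u (k - 2 + 2) = u k
      rw [show k - 2 + 2 = k by omega]
  rw [← Nat.card_congr (Equiv.ofBijective Φ hΦ)]
  rw [Nat.card_prod, Nat.card_prod, Nat.card_fun, Nat.card_zmod]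
  simp only [Nat.card_eq_fintype_card, Fintype.card_bool, Fintype.card_fin]
  congr 1
  rw [← pow_succ']
  congr 1
  omega

lemma cntA (hL : 5 ≤ L) (hodd : L % 2 = 1) : Nat.card {g : LRow L // IsA g.1} = L * 2 := by
  let Φ : ZMod L × Bool → {g : LRow L // IsA g.1} := fun p =>
    ⟨⟨St p.1 p.2 (L - 2) .r (fun _ => false), St_legal hL hodd _ _ (L - 2) (by omega) .r (Or.inl rfl) _⟩,
      p.1 + ((L - 1 : ℕ) : ZMod L), by
        change (rowf p.1 (cf p.2 (L - 2) .r (fun _ => false)) (p.1 + ((L - 1 : ℕ) : ZMod L))).1 = .r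
        rw [rowf_at _ _ _ (by omega)]
        have a1 : ¬ L - 1 = 0 := by omega
        have a2 : ¬ L - 1 ≤ L - 2 := by omega
        have a3 : L - 1 = L - 2 + 1 := by omega
        unfold cf
        simp only [if_neg a1, if_neg a2, if_pos a3], by
        have : p.1 + ((L - 1 : ℕ) : ZMod L) + 1 = p.1 := by
          rw [add_assoc]
          have : ((L - 1 : ℕ) : ZMod L) + 1 = ((L - 1 + 1 : ℕ) : ZMod L) := by push_cast; ring
          rw [this, show L - 1 + 1 = L by omega, ZMod.natCast_self, add_zero]
        rw [this]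
        change (St p.1 p.2 (L - 2) .r (fun _ => false) p.1).1 = .s
        rw [St_stop hL]⟩
  have hΦ : Function.Bijective Φ := by
    constructor
    · rintro ⟨x, c⟩ ⟨x', c'⟩ h
      have h1 : St x c (L - 2) .r (fun _ => false) = St x' c' (L - 2) .r (fun _ => false) := by
        have := congrArg (fun g => g.1.1) h
        exact this
      have h2 : Legal (St x' c' (L - 2) .r (fun _ => false)) :=
        St_legal hL hodd _ _ (L - 2) (by omega) .r (Or.inl rfl) _
      have hx : x = x' := by
        apply h2.2.unique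
        · rw [← h1, St_stop hL]
        · rw [St_stop hL]
      subst hx
      have hc : c = c' := by
        have := congrFun h1 x
        rw [St_stop hL, St_stop hL] at this
        exact congrArg Prod.snd this
      rw [hc]
    · rintro ⟨g, hg⟩
      obtain ⟨x, c, m, d, u, hm, hd, h⟩ := legal_St g.1 g.2
      obtain ⟨y, hy1, hy2⟩ := hg
      have hyx : y + 1 = x := by
        apply g.2.2.unique hy2
        rw [h, St_stop hL]
      have hy : y = x + ((L - 1 : ℕ) : ZMod L) := by
        rw [← hyx, add_assoc]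
        have : (1 : ZMod L) + ((L - 1 : ℕ) : ZMod L) = ((L - 1 + 1 : ℕ) : ZMod L) := by push_cast; ring
        rw [this, show L - 1 + 1 = L by omega, ZMod.natCast_self, add_zero]
      rw [h, hy] at hy1
      unfold St at hy1
      rw [rowf_at _ _ _ (by omega)] at hy1
      have hm0 : m = L - 2 := by
        by_contra h2
        have a1 : ¬ L - 1 = 0 := by omega
        have a2 : ¬ L - 1 ≤ m := by omega
        have a3 : ¬ L - 1 = m + 1 := by omega
        unfold cf at hy1
        simp only [if_neg a1, if_neg a2, if_neg a3] at hy1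
        split_ifs at hy1
      subst hm0
      have hdl : d = .r := by
        have a1 : ¬ L - 1 = 0 := by omega
        have a2 : ¬ L - 1 ≤ L - 2 := by omega
        have a3 : L - 1 = L - 2 + 1 := by omega
        unfold cf at hy1
        simpa only [if_neg a1, if_neg a2, if_pos a3] using hy1
      subst hdl
      refine ⟨(x, c), ?_⟩
      apply Subtype.ext
      apply Subtype.ext
      change St x c (L - 2) .r (fun _ => false) = g.1
      rw [h]
      exact St_congr _ _ _ _ _ _ fun k hk hkL => by omega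
  rw [← Nat.card_congr (Equiv.ofBijective Φ hΦ)]
  rw [Nat.card_prod, Nat.card_zmod]
  simp

lemma TT_ge (hL : 5 ≤ L) (hodd : L % 2 = 1) : 2 * L ≤ TT L := by
  have h1 := cntA hL hodd
  have h2 : Nat.card {g : LRow L // IsA g.1} ≤ Nat.card (LRow L) :=
    Nat.card_le_card_of_injective _ Subtype.val_injective
  rw [h1, Nat.card_eq_fintype_card] at h2
  unfold TT
  omega

end

end Pool.Agent.T9h50.PE
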