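import Pool.Agent.T9h50.PE.Count

/-! Closeness of one-site marginals determines the sign of the bias. -/

set_option autoImplicit false
set_option linter.unusedSectionVars false

open scoped BigOperators ComplexConjugate

noncomputable section

namespace Pool.Agent.T9h50.PE

variable {α : Type} [Fintype α]

/-- the origin as an element of the region -/
def o : ↥origin := ⟨(0, 0), by simp [origin]⟩

open Classical in
/-- the diagonal matrix with entries `g` -/
def diagB (g : α → ℂ) : (↥origin → α) → (↥origin → α) → ℂ :=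
  fun σ σ' => if σ = σ' then g (σ o) else 0

lemma diagB_contr (g : α → ℂ) (hg : ∀ a, ‖g a‖ ≤ 1) : Contr (diagB g) := by
  classical
  intro f
  unfold nrm
  refine Finset.sum_le_sum fun σ _ => ?_
  have h1 : ∑ τ, diagB g σ τ * f τ = g (σ o) * f σ := by
    rw [Finset.sum_eq_single σ]
    · simp [diagB]
    · intro τ _ hτ
      simp [diagB, Ne.symm hτ]
    · intro h
      exact absurd (Finset.mem_univ _) h
  change ‖∑ τ, diagB g σ τ * f τ‖ ^ 2 ≤ _
  rw [h1, norm_mul]
  have h2 := hg (σ o)
  have h3 : ‖g (σ o)‖ * ‖f σ‖ ≤ ‖f σ‖ := by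
    nlinarith [norm_nonneg (f σ)]
  have h4 : 0 ≤ ‖g (σ o)‖ * ‖f σ‖ := by positivity
  gcongr

lemma expec_diag {L : ℕ} [NeZero L] (g : α → ℂ) (Φ : Conf α L → ℂ) (v : Site L) :
    expecR origin Φ v (diagB g) = ∑ s : Conf α L, g (s v) * ((‖Φ s‖ ^ 2 : ℝ) : ℂ) := by
  classical
  unfold expecR
  refine Finset.sum_congr rfl fun s _ => ?_
  rw [Finset.sum_eq_single s]
  · rw [if_pos (fun _ _ => rfl)]
    have h1 : res origin s v o = s v := by
      simp [res, o]
    simp only [diagB, if_true, h1]
    rw [Complex.ofReal_pow, ← Complex.conj_mul']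
    ring
  · intro s' _ hs'
    split_ifs with h
    · have h1 : res origin s v ≠ res origin s' v := by
        intro h2
        apply hs'
        funext w
        by_cases hw : w = v
        · subst hw
          have h3 := congrFun h2 o
          simp only [res, o, Int.cast_zero, add_zero] at h3
          exact h3.symm
        · refine (h w fun p hp => ?_).symm
          simp only [origin, Finset.mem_singleton] at hp
          subst hp
          simpa using hw
      simp [diagB, h1]
    · rfl
  · intro h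
    exact absurd (Finset.mem_univ _) h

/-- the sign of a site -/
def sg (P : α → Bool) (a : α) : ℂ := if P a then 1 else -1

lemma expec_bias {L : ℕ} [NeZero L] (P : α → Bool) (Φ : Conf α L → ℂ) :
    expecR origin Φ (0, 0) (diagB (sg P)) = ((bias P Φ : ℝ) : ℂ) := by
  rw [expec_diag]
  unfold bias
  rw [Complex.ofReal_sum]
  refine Finset.sum_congr rfl fun s _ => ?_
  unfold sg
  split_ifs <;> simp

lemma bias_of_supp {L : ℕ} [NeZero L] (P : α → Bool) (τ : Bool) (Ψ : Conf α L → ℂ)
    (h : ∀ s, Ψ s ≠ 0 → P (s (0, 0)) = τ) : bias P Ψ = (if τ then 1 else -1) * nrm Ψ := by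
  unfold bias nrm
  rw [Finset.mul_sum]
  refine Finset.sum_congr rfl fun s _ => ?_
  by_cases h1 : Ψ s = 0
  · simp [h1]
  · rw [h s h1]

/-- if the one-site marginal of `Φ` is close to a marginal supported on `P = τ` then the bias of `Φ`
has the sign `τ` -/
theorem sgn_of_close {L : ℕ} [NeZero L] (P : α → Bool) (τ : Bool) (Ψ Φ : Conf α L → ℂ) (ε : ℝ)
    (hε : ε < 1) (hΨ : nrm Ψ ≠ 0) (h : ∀ s, Ψ s ≠ 0 → P (s (0, 0)) = τ) (hΦ : nrm Φ ≠ 0)
    (hc : Close origin Ψ Φ ε) : Sgn τ (bias P Φ) := by
  have h1 := hc (0, 0) (0, 0) (diagB (sg P)) (diagB_contr _ fun a => by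
    unfold sg; split_ifs <;> simp)
  rw [expec_bias, expec_bias, bias_of_supp P τ Ψ h] at h1
  have hpos : 0 < nrm Φ := lt_of_le_of_ne (Finset.sum_nonneg fun _ _ => by positivity) (Ne.symm hΦ)
  have h2 : |(if τ then (1 : ℝ) else -1) - bias P Φ / nrm Φ| ≤ ε := by
    have h3 : (((if τ then (1 : ℝ) else -1) * nrm Ψ : ℝ) : ℂ) / (nrm Ψ : ℂ)
        - ((bias P Φ : ℝ) : ℂ) / (nrm Φ : ℂ)
        = (((if τ then (1 : ℝ) else -1) - bias P Φ / nrm Φ : ℝ) : ℂ) := by
      push_cast
      have : (nrm Ψ : ℂ) ≠ 0 := by exact_mod_cast hΨ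
      field_simp
    rw [h3, Complex.norm_real] at h1
    exact h1
  unfold Sgn
  rw [abs_le] at h2
  split_ifs with hτ
  · rw [if_pos hτ] at h2
    have h4 : 0 < bias P Φ / nrm Φ := by linarith [h2.2]
    exact (div_pos_iff_of_pos_right hpos).1 h4
  · rw [if_neg hτ] at h2
    have h4 : bias P Φ / nrm Φ < 0 := by linarith [h2.1]
    by_contra h5
    push Not at h5
    exact absurd h4 (not_lt.2 (div_nonneg h5 hpos.le))

end Pool.Agent.T9h50.PE
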