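import Pool.Agent.T9h50.PE.En
import Pool.Agent.T9h50.PE.Sign

/-! Perturbation of ground states with a gap. -/

set_option autoImplicit false
set_option linter.unusedSectionVars false

open scoped BigOperators ComplexConjugate

noncomputable section

namespace Pool.Agent.T9h50.PE

variable {α : Type} [Fintype α] {q L : ℕ} [NeZero L]

/-- The form `⟨φ, H_L ψ⟩`. -/
def QQ (h : BConf α q → BConf α q → ℂ) (φ ψ : Conf α L → ℂ) : ℂ := ∑ s, conj (φ s) * ham h L ψ s

/-- `Ψ` is a unit vector and an eigenvector of `H_L`, and for its eigenvalue `E` and all vectors `φ`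
orthogonal to `Ψ` the energy is `⟨φ, H_L φ⟩ ≥ (E + γ) ‖φ‖²`: so `Ψ` is the unique ground state, and
there is a gap of at least `γ` above its energy. -/
def Gapped (h : BConf α q → BConf α q → ℂ) (L : ℕ) [NeZero L] (Ψ : Conf α L → ℂ) (γ : ℝ) : Prop :=
  nrm Ψ = 1 ∧ ∃ E : ℝ, (∀ s, ham h L Ψ s = E * Ψ s) ∧
    ∀ φ : Conf α L → ℂ, ∑ s, conj (Ψ s) * φ s = 0 → (E + γ) * nrm φ ≤ en h L φ

lemma ham_add (h : BConf α q → BConf α q → ℂ) (φ ψ : Conf α L → ℂ) (s : Conf α L) :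
    ham h L (fun s => φ s + ψ s) s = ham h L φ s + ham h L ψ s := by
  unfold ham
  simp only [mul_add, Finset.sum_add_distrib]

lemma ham_mul (h : BConf α q → BConf α q → ℂ) (c : ℂ) (φ : Conf α L → ℂ) (s : Conf α L) :
    ham h L (fun s => c * φ s) s = c * ham h L φ s := by
  unfold ham
  rw [Finset.mul_sum]
  refine Finset.sum_congr rfl fun v _ => ?_
  rw [Finset.mul_sum]
  exact Finset.sum_congr rfl fun τ _ => by ring

/-- the exchange of the contents of a box with a box configuration -/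
lemma swap_sum {M : Type} [AddCommMonoid M] (hq : q ≤ L) (v : Site L) (f : Conf α L → BConf α q → M) :
    ∑ s : Conf α L, ∑ τ : BConf α q, f (put s v τ) (box q s v) = ∑ s : Conf α L, ∑ τ, f s τ := by
  rw [← Fintype.sum_prod_type', ← Fintype.sum_prod_type']
  refine Finset.sum_bij' (fun p _ => (put p.1 v p.2, box q p.1 v))
    (fun p _ => (put p.1 v p.2, box q p.1 v)) (fun _ _ => Finset.mem_univ _)
    (fun _ _ => Finset.mem_univ _) ?_ ?_ ?_
  · rintro ⟨s, τ⟩ _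
    simp only [put_put, box_put hq, put_box]
  · rintro ⟨s, τ⟩ _
    simp only [put_put, box_put hq, put_box]
  · rintro ⟨s, τ⟩ _
    rfl

lemma QQ_conj (hq : q ≤ L) (h : BConf α q → BConf α q → ℂ) (hh : Herm h) (φ ψ : Conf α L → ℂ) :
    QQ h ψ φ = conj (QQ h φ ψ) := by
  unfold QQ ham
  simp only [map_sum, map_mul, Complex.conj_conj, Finset.mul_sum]
  rw [Finset.sum_comm]
  conv_rhs => rw [Finset.sum_comm]
  refine Finset.sum_congr rfl fun v _ => ?_
  rw [← swap_sum hq v (fun s τ => φ s * (conj (h (box q s v) τ) * conj (ψ (put s v τ))))]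
  refine Finset.sum_congr rfl fun s _ => ?_
  refine Finset.sum_congr rfl fun τ _ => ?_
  rw [box_put hq, put_put, put_box, ← hh τ (box q s v)]
  ring

lemma en_eq (h : BConf α q → BConf α q → ℂ) (φ : Conf α L → ℂ) : en h L φ = (QQ h φ φ).re := rfl

/-- the inner product -/
def ip (φ ψ : Conf α L → ℂ) : ℂ := ∑ s, conj (φ s) * ψ s

lemma ip_self (φ : Conf α L → ℂ) : ip φ φ = (nrm φ : ℂ) := by
  unfold ip nrm
  push_cast
  refine Finset.sum_congr rfl fun s _ => ?_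
  rw [← Complex.conj_mul']

lemma nrm_add (φ χ : Conf α L → ℂ) (a : ℂ) (h : ip φ χ = 0) :
    nrm (fun s => a * φ s + χ s) = ‖a‖ ^ 2 * nrm φ + nrm χ := by
  have h' : ip χ φ = 0 := by
    have : ip χ φ = conj (ip φ χ) := by
      unfold ip
      rw [map_sum]
      exact Finset.sum_congr rfl fun s _ => by rw [map_mul, Complex.conj_conj]; ring
    rw [this, h, map_zero]
  have h1 : ((nrm (fun s => a * φ s + χ s) : ℝ) : ℂ) = ((‖a‖ ^ 2 * nrm φ + nrm χ : ℝ) : ℂ) := by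
    rw [← ip_self]
    have h2 : ip (fun s => a * φ s + χ s) (fun s => a * φ s + χ s) =
        conj a * a * ip φ φ + conj a * ip φ χ + a * ip χ φ + ip χ χ := by
      unfold ip
      rw [Finset.mul_sum, Finset.mul_sum, Finset.mul_sum, ← Finset.sum_add_distrib,
        ← Finset.sum_add_distrib, ← Finset.sum_add_distrib]
      refine Finset.sum_congr rfl fun s _ => ?_
      rw [map_add, map_mul]
      ring
    rw [h2, h, h', ip_self, ip_self, Complex.conj_mul']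
    push_cast
    ring
  exact_mod_cast h1

/-- the energy of a vector in terms of its component along the ground state -/
lemma en_ge_gap (hq : q ≤ L) (h : BConf α q → BConf α q → ℂ) (hh : Herm h) (Ψ : Conf α L → ℂ) (γ : ℝ)
    (E : ℝ) (h1 : nrm Ψ = 1) (h2 : ∀ s, ham h L Ψ s = E * Ψ s)
    (h3 : ∀ φ : Conf α L → ℂ, ∑ s, conj (Ψ s) * φ s = 0 → (E + γ) * nrm φ ≤ en h L φ)
    (φ : Conf α L → ℂ) (hφ : nrm φ = 1) :
    ∃ χ : Conf α L → ℂ, (∀ s, φ s = ip Ψ φ * Ψ s + χ s) ∧ ‖ip Ψ φ‖ ^ 2 + nrm χ = 1 ∧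
      E + γ * nrm χ ≤ en h L φ := by
  set a := ip Ψ φ with ha
  set χ : Conf α L → ℂ := fun s => φ s - a * Ψ s with hχ
  have hdec : ∀ s, φ s = a * Ψ s + χ s := fun s => by simp [hχ]
  have horth : ip Ψ χ = 0 := by
    have : ip Ψ χ = ip Ψ φ - a * ip Ψ Ψ := by
      unfold ip
      rw [Finset.mul_sum, ← Finset.sum_sub_distrib]
      exact Finset.sum_congr rfl fun s _ => by simp only [hχ]; ring
    rw [this, ip_self, h1, ← ha]
    simp
  have hn : ‖a‖ ^ 2 + nrm χ = 1 := by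
    have := nrm_add Ψ χ a horth
    rw [h1, mul_one] at this
    rw [← this, ← hφ]
    congr 1
    funext s
    exact (hdec s).symm
  refine ⟨χ, hdec, hn, ?_⟩
  have hQ1 : QQ h χ Ψ = 0 := by
    unfold QQ
    have : ∀ s, conj (χ s) * ham h L Ψ s = E * conj (conj (Ψ s) * χ s) := by
      intro s
      rw [h2, map_mul, Complex.conj_conj]
      ring
    rw [Finset.sum_congr rfl fun s _ => this s, ← Finset.mul_sum, ← map_sum]
    change (E : ℂ) * conj (ip Ψ χ) = 0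
    rw [horth, map_zero, mul_zero]
  have hQ2 : QQ h Ψ χ = 0 := by
    rw [QQ_conj hq h hh, hQ1, map_zero]
  have hQ3 : QQ h Ψ Ψ = E := by
    unfold QQ
    have : ∀ s, conj (Ψ s) * ham h L Ψ s = E * (conj (Ψ s) * Ψ s) := by
      intro s
      rw [h2]
      ring
    rw [Finset.sum_congr rfl fun s _ => this s, ← Finset.mul_sum]
    change (E : ℂ) * ip Ψ Ψ = E
    rw [ip_self, h1]
    simp
  have hQ : QQ h φ φ = conj a * a * QQ h Ψ Ψ + conj a * QQ h Ψ χ + a * QQ h χ Ψ + QQ h χ χ := by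
    have hφ' : φ = fun s => (fun s => a * Ψ s) s + χ s := by
      funext s
      exact hdec s
    conv_lhs => rw [hφ']
    unfold QQ
    rw [Finset.mul_sum, Finset.mul_sum, Finset.mul_sum, ← Finset.sum_add_distrib,
      ← Finset.sum_add_distrib, ← Finset.sum_add_distrib]
    refine Finset.sum_congr rfl fun s _ => ?_
    rw [ham_add, ham_mul, map_add, map_mul]
    ring
  have hen : en h L φ = ‖a‖ ^ 2 * E + en h L χ := by
    rw [en_eq, hQ, hQ1, hQ2, hQ3, Complex.conj_mul', en_eq]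
    simp only [mul_zero, add_zero, Complex.add_re]
    congr 1
    have : ((‖a‖ : ℂ) ^ 2 * (E : ℂ)) = ((‖a‖ ^ 2 * E : ℝ) : ℂ) := by push_cast; ring
    rw [this, Complex.ofReal_re]
  have h4 := h3 χ horth
  have h5 : ‖a‖ ^ 2 = 1 - nrm χ := by linarith
  rw [hen, h5]
  linarith

/-- the energies of close interactions are close -/
lemma en_close (hq : q ≤ L) (h h' : BConf α q → BConf α q → ℂ) (η : ℝ)
    (hη : ∀ σ τ, ‖h σ τ - h' σ τ‖ ≤ η) (φ : Conf α L → ℂ) :
    |en h L φ - en h' L φ| ≤ η * (L ^ 2 * Fintype.card (BConf α q)) * nrm φ := by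
  have h1 : QQ h φ φ - QQ h' φ φ = ∑ v : Site L, ∑ s : Conf α L, ∑ τ : BConf α q,
      conj (φ s) * ((h (box q s v) τ - h' (box q s v) τ) * φ (put s v τ)) := by
    unfold QQ ham
    rw [← Finset.sum_sub_distrib, Finset.sum_comm]
    refine Finset.sum_congr rfl fun s _ => ?_
    rw [← mul_sub, ← Finset.sum_sub_distrib, Finset.mul_sum]
    refine Finset.sum_congr rfl fun v _ => ?_
    rw [← Finset.sum_sub_distrib, Finset.mul_sum]
    exact Finset.sum_congr rfl fun τ _ => by ring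
  have h2 : |en h L φ - en h' L φ| ≤ ‖QQ h φ φ - QQ h' φ φ‖ := by
    rw [en_eq, en_eq, ← Complex.sub_re]
    exact Complex.abs_re_le_norm _
  refine h2.trans ?_
  rw [h1]
  have h3 : ∀ v : Site L, ‖∑ s : Conf α L, ∑ τ : BConf α q,
      conj (φ s) * ((h (box q s v) τ - h' (box q s v) τ) * φ (put s v τ))‖ ≤
      η * Fintype.card (BConf α q) * nrm φ := by
    intro v
    have h4 : ∀ (s : Conf α L) (τ : BConf α q),
        ‖conj (φ s) * ((h (box q s v) τ - h' (box q s v) τ) * φ (put s v τ))‖ ≤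
        η * ((‖φ s‖ ^ 2 + ‖φ (put s v τ)‖ ^ 2) / 2) := by
      intro s τ
      rw [norm_mul, norm_mul, RCLike.norm_conj]
      have a1 := hη (box q s v) τ
      have a2 := norm_nonneg (h (box q s v) τ - h' (box q s v) τ)
      have a3 := norm_nonneg (φ s)
      have a4 := norm_nonneg (φ (put s v τ))
      calc ‖φ s‖ * (‖h (box q s v) τ - h' (box q s v) τ‖ * ‖φ (put s v τ)‖)
          = ‖h (box q s v) τ - h' (box q s v) τ‖ * (‖φ s‖ * ‖φ (put s v τ)‖) := by ring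
        _ ≤ η * (‖φ s‖ * ‖φ (put s v τ)‖) := by gcongr
        _ ≤ η * ((‖φ s‖ ^ 2 + ‖φ (put s v τ)‖ ^ 2) / 2) := by
            have : 0 ≤ η := a2.trans a1
            gcongr
            nlinarith [sq_nonneg (‖φ s‖ - ‖φ (put s v τ)‖)]
    calc ‖∑ s : Conf α L, ∑ τ : BConf α q,
        conj (φ s) * ((h (box q s v) τ - h' (box q s v) τ) * φ (put s v τ))‖
        ≤ ∑ s : Conf α L, ∑ τ : BConf α q, η * ((‖φ s‖ ^ 2 + ‖φ (put s v τ)‖ ^ 2) / 2) := by
          refine (norm_sum_le _ _).trans (Finset.sum_le_sum fun s _ => ?_)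
          exact (norm_sum_le _ _).trans (Finset.sum_le_sum fun τ _ => h4 s τ)
      _ = η / 2 * (∑ s : Conf α L, ∑ τ : BConf α q, ‖φ s‖ ^ 2 +
          ∑ s : Conf α L, ∑ τ : BConf α q, ‖φ (put s v τ)‖ ^ 2) := by
          rw [← Finset.sum_add_distrib, Finset.mul_sum]
          refine Finset.sum_congr rfl fun s _ => ?_
          rw [← Finset.sum_add_distrib, Finset.mul_sum]
          exact Finset.sum_congr rfl fun τ _ => by ring
      _ = η * Fintype.card (BConf α q) * nrm φ := by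
          rw [swap_sum hq v (fun s _ => ‖φ s‖ ^ 2)]
          simp only [Finset.sum_const, Finset.card_univ, nsmul_eq_mul]
          rw [← Finset.mul_sum]
          unfold nrm
          ring
  calc ‖∑ v : Site L, ∑ s : Conf α L, ∑ τ : BConf α q,
      conj (φ s) * ((h (box q s v) τ - h' (box q s v) τ) * φ (put s v τ))‖
      ≤ ∑ v : Site L, η * Fintype.card (BConf α q) * nrm φ :=
        (norm_sum_le _ _).trans (Finset.sum_le_sum fun v _ => h3 v)
    _ = η * (L ^ 2 * Fintype.card (BConf α q)) * nrm φ := by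
        rw [Finset.sum_const, Finset.card_univ, Fintype.card_prod, ZMod.card, nsmul_eq_mul]
        push_cast
        ring

/-- **Perturbation of the ground state**: the component of the second ground state orthogonal to the
first one is small. -/
theorem ground_close (hq : q ≤ L) (h h' : BConf α q → BConf α q → ℂ) (hh : Herm h) (hh' : Herm h')
    (η : ℝ) (hη : ∀ σ τ, ‖h σ τ - h' σ τ‖ ≤ η) (Ψ Ψ' : Conf α L → ℂ) (γ : ℝ)
    (hΨ : Gapped h L Ψ γ) (hΨ' : Gapped h' L Ψ' 0) :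
    ∃ χ : Conf α L → ℂ, (∀ s, Ψ' s = ip Ψ Ψ' * Ψ s + χ s) ∧ ‖ip Ψ Ψ'‖ ^ 2 + nrm χ = 1 ∧
      γ * nrm χ ≤ 2 * (η * (L ^ 2 * Fintype.card (BConf α q))) := by
  obtain ⟨h1, E, h2, h3⟩ := hΨ
  obtain ⟨h1', E', h2', h3'⟩ := hΨ'
  obtain ⟨χ, hχ, hn, hE⟩ := en_ge_gap hq h hh Ψ γ E h1 h2 h3 Ψ' h1'
  obtain ⟨χ', hχ', hn', hE'⟩ := en_ge_gap hq h' hh' Ψ' 0 E' h1' h2' h3' Ψ h1
  refine ⟨χ, hχ, hn, ?_⟩
  have e1 : en h L Ψ = E := by
    rw [en_eq]
    unfold QQ
    have : ∀ s, conj (Ψ s) * ham h L Ψ s = E * (conj (Ψ s) * Ψ s) := by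
      intro s
      rw [h2]
      ring
    rw [Finset.sum_congr rfl fun s _ => this s, ← Finset.mul_sum]
    change ((E : ℂ) * ip Ψ Ψ).re = E
    rw [ip_self, h1]
    simp
  have e2 : en h' L Ψ' = E' := by
    rw [en_eq]
    unfold QQ
    have : ∀ s, conj (Ψ' s) * ham h' L Ψ' s = E' * (conj (Ψ' s) * Ψ' s) := by
      intro s
      rw [h2']
      ring
    rw [Finset.sum_congr rfl fun s _ => this s, ← Finset.mul_sum]
    change ((E' : ℂ) * ip Ψ' Ψ').re = E'
    rw [ip_self, h1']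
    simp
  have c1 := en_close hq h h' η hη Ψ
  have c2 := en_close hq h h' η hη Ψ'
  rw [h1, mul_one, abs_le] at c1
  rw [h1', mul_one, abs_le] at c2
  linarith [c1.1, c1.2, c2.1, c2.2]

/-- the biases of close vectors are close -/
lemma bias_close (P : α → Bool) (Ψ Ψ' χ : Conf α L → ℂ) (a : ℂ) (h1 : nrm Ψ = 1)
    (h : ∀ s, Ψ' s = a * Ψ s + χ s) (hn : ‖a‖ ^ 2 + nrm χ = 1) (lam : ℝ) (hl : 0 < lam) :
    |bias P Ψ' - bias P Ψ| ≤ 2 * nrm χ + lam + nrm χ / lam := by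
  have hχ0 : 0 ≤ nrm χ := Finset.sum_nonneg fun _ _ => by positivity
  have ha : ‖a‖ ≤ 1 := by
    have : ‖a‖ ^ 2 ≤ 1 := by linarith
    nlinarith [norm_nonneg a]
  have key : ∀ s, |‖Ψ' s‖ ^ 2 - ‖Ψ s‖ ^ 2| ≤
      (1 - ‖a‖ ^ 2) * ‖Ψ s‖ ^ 2 + lam * ‖Ψ s‖ ^ 2 + (1 / lam + 1) * ‖χ s‖ ^ 2 := by
    intro s
    have e1 : ‖Ψ' s‖ ≤ ‖a‖ * ‖Ψ s‖ + ‖χ s‖ := by
      rw [h s]
      exact (norm_add_le _ _).trans (by rw [norm_mul])
    have e2 : ‖a‖ * ‖Ψ s‖ ≤ ‖Ψ' s‖ + ‖χ s‖ := by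
      have : a * Ψ s = Ψ' s - χ s := by rw [h s]; ring
      rw [← norm_mul, this]
      exact norm_sub_le _ _
    set x := ‖Ψ s‖ with hx
    set y := ‖χ s‖ with hy
    set z := ‖Ψ' s‖ with hz
    set b := ‖a‖ with hb
    have x0 : 0 ≤ x := norm_nonneg _
    have y0 : 0 ≤ y := norm_nonneg _
    have z0 : 0 ≤ z := norm_nonneg _
    have b0 : 0 ≤ b := norm_nonneg _
    have hbx : b * x ≤ x := by nlinarith
    have amgm : 2 * (x * y) ≤ lam * x ^ 2 + 1 / lam * y ^ 2 := by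
      have h5 : 0 ≤ (lam * x - y) ^ 2 / lam := by positivity
      have h6 : (lam * x - y) ^ 2 / lam = lam * x ^ 2 + 1 / lam * y ^ 2 - 2 * (x * y) := by
        field_simp
        ring
      linarith
    rw [abs_le]
    constructor
    · -- z² ≥ b² x² - 2 x y (if bx ≥ y)
      have h7 : b ^ 2 * x ^ 2 - 2 * (x * y) ≤ z ^ 2 := by
        by_cases h8 : y ≤ b * x
        · have h9 : b * x - y ≤ z := by linarith
          have h10 : (b * x - y) ^ 2 ≤ z ^ 2 := by
            have : 0 ≤ b * x - y := by linarith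
            gcongr
          nlinarith [mul_nonneg x0 y0, mul_nonneg b0 (mul_nonneg x0 y0), sq_nonneg y]
        · push Not at h8
          have h9 : b * x * (b * x) ≤ x * y := mul_le_mul hbx h8.le (by positivity) x0
          nlinarith [mul_nonneg x0 y0, sq_nonneg z]
      have h8 : 0 ≤ y ^ 2 := sq_nonneg y
      nlinarith
    · have h7 : z ^ 2 ≤ b ^ 2 * x ^ 2 + 2 * (x * y) + y ^ 2 := by
        have h8 : z ^ 2 ≤ (b * x + y) ^ 2 := by gcongr
        nlinarith [mul_nonneg x0 y0, mul_nonneg b0 (mul_nonneg x0 y0)]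
      have h8 : b ^ 2 ≤ 1 := by nlinarith
      nlinarith [mul_nonneg (sub_nonneg.2 h8) (sq_nonneg x)]
  have h2 : bias P Ψ' - bias P Ψ = ∑ s : Conf α L, (if P (s (0, 0)) then 1 else -1) *
      (‖Ψ' s‖ ^ 2 - ‖Ψ s‖ ^ 2) := by
    unfold bias
    rw [← Finset.sum_sub_distrib]
    exact Finset.sum_congr rfl fun s _ => by ring
  rw [h2]
  calc |∑ s : Conf α L, (if P (s (0, 0)) then 1 else -1) * (‖Ψ' s‖ ^ 2 - ‖Ψ s‖ ^ 2)|
      ≤ ∑ s : Conf α L, |‖Ψ' s‖ ^ 2 - ‖Ψ s‖ ^ 2| := by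
        refine (Finset.abs_sum_le_sum_abs _ _).trans (Finset.sum_le_sum fun s _ => ?_)
        rw [abs_mul]
        split_ifs <;> simp
    _ ≤ ∑ s : Conf α L, ((1 - ‖a‖ ^ 2) * ‖Ψ s‖ ^ 2 + lam * ‖Ψ s‖ ^ 2 +
        (1 / lam + 1) * ‖χ s‖ ^ 2) := Finset.sum_le_sum fun s _ => key s
    _ = (1 - ‖a‖ ^ 2) * nrm Ψ + lam * nrm Ψ + (1 / lam + 1) * nrm χ := by
        rw [Finset.sum_add_distrib, Finset.sum_add_distrib, ← Finset.mul_sum, ← Finset.mul_sum,
          ← Finset.mul_sum]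
        rfl
    _ = 2 * nrm χ + lam + nrm χ / lam := by
        rw [h1]
        have : 1 - ‖a‖ ^ 2 = nrm χ := by linarith
        rw [this]
        ring

/-- closeness of one-site states, quantitatively -/
theorem margin_of_close (P : α → Bool) (τ : Bool) (Ψ Φ : Conf α L → ℂ) (ε : ℝ)
    (hΨ : nrm Ψ ≠ 0) (h : ∀ s, Ψ s ≠ 0 → P (s (0, 0)) = τ) (hΦ : nrm Φ = 1)
    (hc : Close origin Ψ Φ ε) : 1 - ε ≤ (if τ then 1 else -1) * bias P Φ := by
  have h1 := hc (0, 0) (0, 0) (diagB (sg P)) (diagB_contr _ fun a => by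
    unfold sg; split_ifs <;> simp)
  rw [expec_bias, expec_bias, bias_of_supp P τ Ψ h, hΦ] at h1
  have h2 : |(if τ then (1 : ℝ) else -1) - bias P Φ| ≤ ε := by
    have h3 : (((if τ then (1 : ℝ) else -1) * nrm Ψ : ℝ) : ℂ) / (nrm Ψ : ℂ)
        - ((bias P Φ : ℝ) : ℂ) / ((1 : ℝ) : ℂ)
        = (((if τ then (1 : ℝ) else -1) - bias P Φ : ℝ) : ℂ) := by
      push_cast
      have : (nrm Ψ : ℂ) ≠ 0 := by exact_mod_cast hΨ
      field_simp
    rw [h3, Complex.norm_real] at h1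
    exact h1
  rw [abs_le] at h2
  split_ifs with hτ
  · rw [if_pos hτ] at h2
    linarith [h2.2]
  · rw [if_neg hτ] at h2
    linarith [h2.1]

end Pool.Agent.T9h50.PE
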