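import Mathlib

/-! The rows: one marker, one head and bits on a ring. -/

set_option autoImplicit false

noncomputable section

namespace Pool.Agent.T9h50.PE

/-- the cell types: `s` (stop), `z` (blank), `o`, `i` (the bits `0` and `1`), `r`, `l` (a head moving
to the right or to the left) -/
inductive Ty
  | s | z | o | i | r | l
  deriving DecidableEq

instance : Fintype Ty := ⟨{.s, .z, .o, .i, .r, .l}, by intro x; cases x <;> decide⟩

/-- a cell: a type and a colour -/
abbrev Cell := Ty × Bool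

/-- a row of a torus -/
abbrev Row (L : ℕ) := ZMod L → Cell

/-- the types which may follow a type on the right -/
def suc : Ty → Ty → Bool
  | .s, .z => true | .s, .r => true | .s, .l => true
  | .z, .z => true | .z, .r => true | .z, .l => true
  | .r, .o => true | .r, .i => true | .r, .s => true
  | .l, .o => true | .l, .i => true | .l, .s => true
  | .o, .o => true | .o, .i => true | .o, .s => true
  | .i, .o => true | .i, .i => true | .i, .s => true
  | _, _ => false

/-- the colour of the right neighbour: the colours alternate, except after a stop -/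
def nc (t : Ty) (c : Bool) : Bool := if t = .s then c else !c

/-- allowed pairs of neighbours -/
def okP (a b : Cell) : Prop := suc a.1 b.1 = true ∧ b.2 = nc a.1 a.2

instance (a b : Cell) : Decidable (okP a b) := by unfold okP; infer_instance

/-- legal rows: all pairs are allowed and there is one stop -/
def Legal {L : ℕ} (r : Row L) : Prop := (∀ y, okP (r y) (r (y + 1))) ∧ ∃! x, (r x).1 = .s

/-- the moves of the head, on the types of three consecutive cells -/
def stp : Ty → Ty → Ty → Option (Ty × Ty × Ty)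
  | .r, .o, t => some (.z, .r, t)
  | .r, .i, .o => some (.l, .i, .i)
  | .r, .i, .i => some (.l, .i, .o)
  | .r, .i, .s => some (.l, .i, .s)
  | .r, .s, .z => some (.z, .l, .s)
  | .z, .l, t => some (.l, .o, t)
  | .s, .l, .o => some (.s, .r, .i)
  | .s, .l, .i => some (.s, .r, .o)
  | _, _, _ => none

/-- the inverse moves -/
def pts : Ty → Ty → Ty → Option (Ty × Ty × Ty)
  | .z, .r, t => some (.r, .o, t)
  | .l, .i, .i => some (.r, .i, .o)
  | .l, .i, .o => some (.r, .i, .i)
  | .l, .i, .s => some (.r, .i, .s)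
  | .z, .l, .s => some (.r, .s, .z)
  | .l, .o, t => some (.z, .l, t)
  | .s, .r, .i => some (.s, .l, .o)
  | .s, .r, .o => some (.s, .l, .i)
  | _, _, _ => none

/-- the moves of the head on three consecutive cells; when the stop moves its colour changes -/
def mv3 (a b c : Cell) : Option (Cell × Cell × Cell) :=
  (stp a.1 b.1 c.1).map fun t =>
    ((t.1, a.2), (t.2.1, b.2), (t.2.2, if a.1 = .r ∧ b.1 = .s then !c.2 else c.2))

/-- the inverse moves on three consecutive cells -/
def vm3 (a b c : Cell) : Option (Cell × Cell × Cell) :=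
  (pts a.1 b.1 c.1).map fun t =>
    ((t.1, a.2), (t.2.1, b.2), (t.2.2, if a.1 = .z ∧ b.1 = .l then !c.2 else c.2))

/-- replace three consecutive cells -/
def set3 {L : ℕ} (r : Row L) (x : ZMod L) (u : Cell × Cell × Cell) : Row L :=
  fun y => if y = x then u.1 else if y = x + 1 then u.2.1 else if y = x + 2 then u.2.2 else r y

/-- the move at `x` -/
def Mv {L : ℕ} (x : ZMod L) (r r' : Row L) : Prop :=
  ∃ u, mv3 (r x) (r (x + 1)) (r (x + 2)) = some u ∧ r' = set3 r x u

lemma chk1 : ∀ a b c : Cell,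
    (mv3 a b c).all (fun u => decide (vm3 u.1 u.2.1 u.2.2 = some (a, b, c))) = true := by
  decide +kernel

lemma chk2 : ∀ a b c : Cell,
    (vm3 a b c).all (fun u => decide (mv3 u.1 u.2.1 u.2.2 = some (a, b, c))) = true := by
  decide +kernel

lemma all_imp {β : Type} {o : Option β} {p : β → Bool} (h : o.all p = true) {u : β} (hu : o = some u) :
    p u = true := by
  subst hu
  simpa using h

lemma mv3_vm3 (a b c : Cell) (u : Cell × Cell × Cell) (h : mv3 a b c = some u) :
    vm3 u.1 u.2.1 u.2.2 = some (a, b, c) := by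
  simpa using all_imp (chk1 a b c) h

lemma vm3_mv3 (a b c : Cell) (u : Cell × Cell × Cell) (h : vm3 a b c = some u) :
    mv3 u.1 u.2.1 u.2.2 = some (a, b, c) := by
  simpa using all_imp (chk2 a b c) h

/-- the conditions which keep a row legal when three cells are replaced -/
def LocOK (a b c : Cell) (u : Cell × Cell × Cell) : Prop :=
  okP a b → okP b c → ((∀ d, okP d a → okP d u.1) ∧ okP u.1 u.2.1 ∧ okP u.2.1 u.2.2 ∧
    (∀ e, okP c e → okP u.2.2 e)) ∧
  (((u.1.1 = .s ↔ a.1 = .s) ∧ (u.2.1.1 = .s ↔ b.1 = .s) ∧ (u.2.2.1 = .s ↔ c.1 = .s)) ∨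
    (b.1 = .s ∧ a.1 ≠ .s ∧ c.1 ≠ .s ∧ u.1.1 ≠ .s ∧ u.2.1.1 ≠ .s ∧ u.2.2.1 = .s) ∨
    (c.1 = .s ∧ a.1 ≠ .s ∧ b.1 ≠ .s ∧ u.1.1 ≠ .s ∧ u.2.1.1 = .s ∧ u.2.2.1 ≠ .s))

instance (a b c : Cell) (u : Cell × Cell × Cell) : Decidable (LocOK a b c u) := by
  unfold LocOK; infer_instance

lemma chk3 : ∀ a b c : Cell, (mv3 a b c).all (fun u => decide (LocOK a b c u)) = true := by
  decide +kernel

lemma chk4 : ∀ a b c : Cell, (vm3 a b c).all (fun u => decide (LocOK a b c u)) = true := by
  decide +kernel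

lemma loc_mv3 {a b c : Cell} {u : Cell × Cell × Cell} (h : mv3 a b c = some u) : LocOK a b c u := by
  simpa using all_imp (chk3 a b c) h

lemma loc_vm3 {a b c : Cell} {u : Cell × Cell × Cell} (h : vm3 a b c = some u) : LocOK a b c u := by
  simpa using all_imp (chk4 a b c) h

lemma ne_off {L : ℕ} (hL : 5 ≤ L) (x : ZMod L) (a b : ℕ) (ha : a < 5) (hb : b < 5) (hab : a ≠ b) :
    x + (a : ZMod L) ≠ x + (b : ZMod L) := by
  intro h
  have h1 : (a : ZMod L) = (b : ZMod L) := add_left_cancel h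
  rw [ZMod.natCast_eq_natCast_iff'] at h1
  rw [Nat.mod_eq_of_lt (by omega), Nat.mod_eq_of_lt (by omega)] at h1
  exact hab h1

section
variable {L : ℕ} (hL : 5 ≤ L)
include hL

lemma n01 (x : ZMod L) : x ≠ x + 1 := by simpa using ne_off hL x 0 1 (by norm_num) (by norm_num) (by norm_num)
lemma n02 (x : ZMod L) : x ≠ x + 2 := by simpa using ne_off hL x 0 2 (by norm_num) (by norm_num) (by norm_num)
lemma n03 (x : ZMod L) : x ≠ x + 3 := by simpa using ne_off hL x 0 3 (by norm_num) (by norm_num) (by norm_num)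
lemma n12 (x : ZMod L) : x + 1 ≠ x + 2 := by simpa using ne_off hL x 1 2 (by norm_num) (by norm_num) (by norm_num)

lemma set3_0 (r : Row L) (x : ZMod L) (u : Cell × Cell × Cell) : set3 r x u x = u.1 := by
  simp [set3]

lemma set3_1 (r : Row L) (x : ZMod L) (u : Cell × Cell × Cell) : set3 r x u (x + 1) = u.2.1 := by
  simp [set3, (n01 hL x).symm]

lemma set3_2 (r : Row L) (x : ZMod L) (u : Cell × Cell × Cell) : set3 r x u (x + 2) = u.2.2 := by
  simp [set3, (n02 hL x).symm, (n12 hL x).symm]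

lemma legal_set3 (r : Row L) (hr : Legal r) (x : ZMod L) (u : Cell × Cell × Cell)
    (hu : LocOK (r x) (r (x + 1)) (r (x + 2)) u) : Legal (set3 r x u) := by
  obtain ⟨h1, x₀, h2, h3⟩ := hr
  have e12 : x + 1 + 1 = x + 2 := by ring
  have e23 : x + 2 + 1 = x + 3 := by ring
  have k1 := h1 x
  have k2 := h1 (x + 1)
  rw [e12] at k2
  obtain ⟨⟨p1, p2, p3, p4⟩, p5⟩ := hu k1 k2
  have s0 := set3_0 hL r x u
  have s1 := set3_1 hL r x u
  have s2 := set3_2 hL r x u
  have s3 : ∀ y, y ≠ x → y ≠ x + 1 → y ≠ x + 2 → set3 r x u y = r y := by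
    intro y a b c
    simp [set3, a, b, c]
  refine ⟨fun y => ?_, ?_⟩
  · by_cases y0 : y = x
    · subst y0
      rw [s0, s1]
      exact p2
    by_cases y1 : y = x + 1
    · subst y1
      rw [e12, s1, s2]
      exact p3
    by_cases y2 : y = x + 2
    · subst y2
      have k3 := h1 (x + 2)
      rw [s2, e23]
      rw [e23] at k3
      rw [s3 (x + 3) (n03 hL x).symm]
      · exact p4 _ k3
      · have := ne_off hL x 3 1 (by norm_num) (by norm_num) (by norm_num)
        simpa using this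
      · have := ne_off hL x 3 2 (by norm_num) (by norm_num) (by norm_num)
        simpa using this
    by_cases y3 : y + 1 = x
    · rw [s3 y y0 y1 y2, y3, s0]
      have k0 := h1 y
      rw [y3] at k0
      exact p1 _ k0
    · rw [s3 y y0 y1 y2, s3 (y + 1) y3]
      · exact h1 y
      · intro h
        exact y0 (add_right_cancel h)
      · intro h
        rw [← e12] at h
        exact y1 (add_right_cancel h)
  · rcases p5 with p5 | p5 | p5
    · have hiff : ∀ y, (set3 r x u y).1 = .s ↔ (r y).1 = .s := by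
        intro y
        by_cases y0 : y = x
        · subst y0; rw [s0]; exact p5.1
        by_cases y1 : y = x + 1
        · subst y1; rw [s1]; exact p5.2.1
        by_cases y2 : y = x + 2
        · subst y2; rw [s2]; exact p5.2.2
        rw [s3 y y0 y1 y2]
      exact ⟨x₀, (hiff x₀).2 h2, fun y hy => h3 y ((hiff y).1 hy)⟩
    · have hx : x + 1 = x₀ := h3 _ p5.1
      refine ⟨x + 2, ?_, fun y hy => ?_⟩
      · change (set3 r x u (x + 2)).1 = .s
        rw [s2]; exact p5.2.2.2.2.2
      · change (set3 r x u y).1 = .s at hy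
        by_contra hne
        by_cases y0 : y = x
        · subst y0; rw [s0] at hy; exact p5.2.2.2.1 hy
        by_cases y1 : y = x + 1
        · subst y1; rw [s1] at hy; exact p5.2.2.2.2.1 hy
        rw [s3 y y0 y1 hne] at hy
        exact y1 ((h3 y hy).trans hx.symm)
    · have hx : x + 2 = x₀ := h3 _ p5.1
      refine ⟨x + 1, ?_, fun y hy => ?_⟩
      · change (set3 r x u (x + 1)).1 = .s
        rw [s1]; exact p5.2.2.2.2.1
      · change (set3 r x u y).1 = .s at hy
        by_contra hne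
        by_cases y0 : y = x
        · subst y0; rw [s0] at hy; exact p5.2.2.2.1 hy
        by_cases y2 : y = x + 2
        · subst y2; rw [s2] at hy; exact p5.2.2.2.2.2 hy
        rw [s3 y y0 hne y2] at hy
        exact y2 ((h3 y hy).trans hx.symm)

/-- the inverse of a move -/
lemma mv_inv (r r' : Row L) (x : ZMod L) (h : Mv x r r') :
    vm3 (r' x) (r' (x + 1)) (r' (x + 2)) = some (r x, r (x + 1), r (x + 2)) ∧
      r = set3 r' x (r x, r (x + 1), r (x + 2)) := by
  obtain ⟨u, h1, rfl⟩ := h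
  rw [set3_0 hL, set3_1 hL, set3_2 hL]
  refine ⟨mv3_vm3 _ _ _ u h1, ?_⟩
  funext y
  unfold set3
  split_ifs with a b c
  · rw [a]
  · rw [b]
  · rw [c]
  · rfl

lemma legal_mv (r r' : Row L) (x : ZMod L) (h : Mv x r r') (hr : Legal r) : Legal r' := by
  obtain ⟨u, h1, rfl⟩ := h
  exact legal_set3 hL r hr x u (loc_mv3 h1)

lemma legal_vm (r r' : Row L) (x : ZMod L) (h : Mv x r r') (hr' : Legal r') : Legal r := by
  obtain ⟨h1, h2⟩ := mv_inv hL r r' x h
  rw [h2]
  exact legal_set3 hL r' hr' x _ (loc_vm3 h1)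

end

/-- the heads -/
def hd (t : Ty) : Bool := match t with
  | .r => true
  | .l => true
  | _ => false

/-- indicator of the cells left of the head -/
def fI (a : Cell) : ℤ := if a.1 = .s ∨ a.1 = .z then 1 else 0
/-- indicator of the stop -/
def sI (a : Cell) : ℤ := if a.1 = .s then 1 else 0
/-- indicator of the heads -/
def hI (a : Cell) : ℤ := if hd a.1 then 1 else 0

lemma chk5 : ∀ a b : Cell, okP a b → fI b - fI a = sI b - hI b := by decide +kernel

lemma sum_shift {L : ℕ} [NeZero L] (f : ZMod L → ℤ) : ∑ y, (f (y + 1) - f y) = 0 := by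
  rw [Finset.sum_sub_distrib, sub_eq_zero]
  exact Equiv.sum_comp (Equiv.addRight (1 : ZMod L)) f

lemma sum_one_iff {L : ℕ} [NeZero L] (P : ZMod L → Prop) [DecidablePred P] :
    ∑ y, (if P y then (1 : ℤ) else 0) = 1 ↔ ∃! x, P x := by
  rw [Finset.sum_boole]
  have h1 : (((Finset.univ.filter P).card : ℕ) : ℤ) = 1 ↔ (Finset.univ.filter P).card = 1 := by
    norm_cast
  rw [h1, Finset.card_eq_one]
  constructor
  · rintro ⟨a, ha⟩
    refine ⟨a, ?_, fun y hy => ?_⟩
    · have : a ∈ Finset.univ.filter P := by rw [ha]; simp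
      simpa using this
    · have : y ∈ Finset.univ.filter P := by simpa using hy
      rw [ha] at this
      simpa using this
  · rintro ⟨a, ha, hb⟩
    refine ⟨a, ?_⟩
    ext y
    simp only [Finset.mem_filter, Finset.mem_univ, true_and, Finset.mem_singleton]
    exact ⟨fun h => hb y h, fun h => h ▸ ha⟩

lemma head_unique {L : ℕ} [NeZero L] (r : Row L) (hr : Legal r) : ∃! h, hd (r h).1 = true := by
  classical
  have h1 : ∑ y, (sI (r (y + 1)) - hI (r (y + 1))) = 0 := by
    rw [← sum_shift (fun y => fI (r y))]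
    exact Finset.sum_congr rfl fun y _ => (chk5 _ _ (hr.1 y)).symm
  have h0 : ∑ y, (sI (r (y + 1)) - hI (r (y + 1))) = ∑ y, (sI (r y) - hI (r y)) :=
    Equiv.sum_comp (Equiv.addRight (1 : ZMod L)) (fun y => sI (r y) - hI (r y))
  rw [h0, Finset.sum_sub_distrib, sub_eq_zero] at h1
  have h2 : ∑ y, sI (r y) = 1 := (sum_one_iff (fun y => (r y).1 = .s)).2 hr.2
  rw [h2] at h1
  exact (sum_one_iff (fun y => hd (r y).1 = true)).1 h1.symm

lemma chk6 : ∀ a b c : Cell, (mv3 a b c).isSome = true → a.1 = .r ∨ b.1 = .l := by decide +kernel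

lemma chk7 : ∀ a b c : Cell, (a.1 = .r ∧ okP a b ∧ okP b c ∧ hd c.1 = false) →
    (mv3 a b c).isSome = true := by decide +kernel

lemma chk8 : ∀ a b c : Cell, (b.1 = .l ∧ okP a b ∧ okP b c ∧ (a.1 ≠ .s ∨ c.1 ≠ .s)) →
    (mv3 a b c).isSome = true := by decide +kernel

lemma chk9 : ∀ a b c : Cell, (vm3 a b c).isSome = true → b.1 = .r ∨
    (a.1 = .l ∧ b.1 ≠ .s) ∨ (b.1 = .l ∧ c.1 = .s) := by decide +kernel

lemma hd_cases {t : Ty} (h : hd t = true) : t = .r ∨ t = .l := by
  cases t <;> simp_all [hd]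

/-- in a legal row exactly one move is possible -/
theorem mv_exists {L : ℕ} [NeZero L] (hL : 5 ≤ L) (r : Row L) (hr : Legal r) : ∃ x r', Mv x r r' := by
  obtain ⟨h, h1, h2⟩ := head_unique r hr
  obtain ⟨x₀, h3, h4⟩ := hr.2
  have key : ∀ x, (mv3 (r x) (r (x + 1)) (r (x + 2))).isSome = true → ∃ x r', Mv x r r' := by
    intro x hx
    obtain ⟨u, hu⟩ := Option.isSome_iff_exists.1 hx
    exact ⟨x, _, u, hu, rfl⟩
  have e12 : ∀ x : ZMod L, x + 1 + 1 = x + 2 := fun x => by ring
  rcases hd_cases h1 with h5 | h5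
  · refine key h (chk7 _ _ _ ⟨h5, hr.1 h, by rw [← e12]; exact hr.1 (h + 1), ?_⟩)
    by_contra h6
    exact n02 hL h (h2 (h + 2) (by simpa using h6)).symm
  · have e1 : h - 1 + 1 = h := by ring
    have e2 : h - 1 + 2 = h + 1 := by ring
    refine key (h - 1) (chk8 _ _ _ ⟨by rw [e1]; exact h5, hr.1 (h - 1), ?_, ?_⟩)
    · rw [e1, e2]
      exact hr.1 h
    · by_contra h6
      push Not at h6
      have h8 := (h4 _ h6.1).trans (h4 _ h6.2).symm
      exact n02 hL _ h8

theorem mv_unique {L : ℕ} [NeZero L] (r : Row L) (hr : Legal r) (x x' : ZMod L)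
    (r₁ r₂ : Row L) (h₁ : Mv x r r₁) (h₂ : Mv x' r r₂) : x = x' ∧ r₁ = r₂ := by
  obtain ⟨h, h1, h2'⟩ := head_unique r hr
  have h2 : ∀ y, hd (r y).1 = true → y = h := fun y hy => h2' y hy
  have hx : x = x' := by
    obtain ⟨u, hu, -⟩ := h₁
    obtain ⟨v, hv, -⟩ := h₂
    have h3 := chk6 _ _ _ (by rw [hu]; rfl : (mv3 (r x) (r (x + 1)) (r (x + 2))).isSome = true)
    have h4 := chk6 _ _ _ (by rw [hv]; rfl : (mv3 (r x') (r (x' + 1)) (r (x' + 2))).isSome = true)
    rcases h3 with h3 | h3 <;> rcases h4 with h4 | h4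
    · exact (h2 x (by rw [h3]; rfl)).trans (h2 x' (by rw [h4]; rfl)).symm
    · have e1 := h2 x (by rw [h3]; rfl)
      have e2 := h2 (x' + 1) (by rw [h4]; rfl)
      rw [e1] at h3
      rw [e2] at h4
      rw [h3] at h4
      exact absurd h4 (by decide)
    · have e1 := h2 (x + 1) (by rw [h3]; rfl)
      have e2 := h2 x' (by rw [h4]; rfl)
      rw [e1] at h3
      rw [e2] at h4
      rw [h3] at h4
      exact absurd h4 (by decide)
    · exact add_right_cancel ((h2 (x + 1) (by rw [h3]; rfl)).trans (h2 (x' + 1) (by rw [h4]; rfl)).symm)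
  subst hx
  obtain ⟨u, hu, rfl⟩ := h₁
  obtain ⟨v, hv, rfl⟩ := h₂
  rw [hu] at hv
  rw [Option.some.inj hv]
  exact ⟨rfl, rfl⟩

theorem vm_unique {L : ℕ} [NeZero L] (hL : 5 ≤ L) (r : Row L) (hr : Legal r) (x x' : ZMod L)
    (r₁ r₂ : Row L) (h₁ : Mv x r₁ r) (h₂ : Mv x' r₂ r) : x = x' ∧ r₁ = r₂ := by
  obtain ⟨h, h1, h2'⟩ := head_unique r hr
  have h2 : ∀ y, hd (r y).1 = true → y = h := fun y hy => h2' y hy
  obtain ⟨a1, a2⟩ := mv_inv hL _ _ _ h₁
  obtain ⟨b1, b2⟩ := mv_inv hL _ _ _ h₂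
  have hx : x = x' := by
    have h3 := chk9 _ _ _ (by rw [a1]; rfl : (vm3 (r x) (r (x + 1)) (r (x + 2))).isSome = true)
    have h4 := chk9 _ _ _ (by rw [b1]; rfl : (vm3 (r x') (r (x' + 1)) (r (x' + 2))).isSome = true)
    rcases h3 with h3 | ⟨h3, k3⟩ | ⟨h3, k3⟩ <;> rcases h4 with h4 | ⟨h4, k4⟩ | ⟨h4, k4⟩
    · exact add_right_cancel ((h2 (x + 1) (by rw [h3]; rfl)).trans (h2 (x' + 1) (by rw [h4]; rfl)).symm)
    · have e1 := h2 (x + 1) (by rw [h3]; rfl)
      have e2 := h2 x' (by rw [h4]; rfl)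
      rw [e1] at h3
      rw [e2] at h4
      rw [h3] at h4
      exact absurd h4 (by decide)
    · have e1 := h2 (x + 1) (by rw [h3]; rfl)
      have e2 := h2 (x' + 1) (by rw [h4]; rfl)
      rw [e1] at h3
      rw [e2] at h4
      rw [h3] at h4
      exact absurd h4 (by decide)
    · have e1 := h2 x (by rw [h3]; rfl)
      have e2 := h2 (x' + 1) (by rw [h4]; rfl)
      rw [e1] at h3
      rw [e2] at h4
      rw [h3] at h4
      exact absurd h4 (by decide)
    · exact (h2 x (by rw [h3]; rfl)).trans (h2 x' (by rw [h4]; rfl)).symm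
    · exfalso
      have e1 := h2 x (by rw [h3]; rfl)
      have e2 := h2 (x' + 1) (by rw [h4]; rfl)
      apply k3
      rw [e1, ← e2, show x' + 1 + 1 = x' + 2 by ring]
      exact k4
    · have e1 := h2 (x + 1) (by rw [h3]; rfl)
      have e2 := h2 (x' + 1) (by rw [h4]; rfl)
      rw [e1] at h3
      rw [e2] at h4
      rw [h3] at h4
      exact absurd h4 (by decide)
    · exfalso
      have e1 := h2 (x + 1) (by rw [h3]; rfl)
      have e2 := h2 x' (by rw [h4]; rfl)
      apply k4
      rw [e2, ← e1, show x + 1 + 1 = x + 2 by ring]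
      exact k3
    · exact add_right_cancel ((h2 (x + 1) (by rw [h3]; rfl)).trans (h2 (x' + 1) (by rw [h4]; rfl)).symm)
  subst hx
  rw [a1] at b1
  have := Option.some.inj b1
  rw [← this] at b2
  exact ⟨rfl, a2.trans b2.symm⟩

/-! ### the permutation of the legal rows -/

/-- the legal rows -/
abbrev LRow (L : ℕ) := {r : Row L // Legal r}

/-- the next row -/
def nxt {L : ℕ} [NeZero L] (hL : 5 ≤ L) (r : LRow L) : LRow L :=
  ⟨(mv_exists hL r.1 r.2).choose_spec.choose, legal_mv hL _ _ _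
    (mv_exists hL r.1 r.2).choose_spec.choose_spec r.2⟩

lemma nxt_spec {L : ℕ} [NeZero L] (hL : 5 ≤ L) (r : LRow L) : ∃ x, Mv x r.1 (nxt hL r).1 :=
  ⟨_, (mv_exists hL r.1 r.2).choose_spec.choose_spec⟩

lemma nxt_eq {L : ℕ} [NeZero L] (hL : 5 ≤ L) (r : LRow L) (x : ZMod L) (r' : Row L)
    (h : Mv x r.1 r') : (nxt hL r).1 = r' := by
  obtain ⟨x', hx'⟩ := nxt_spec hL r
  exact (mv_unique r.1 r.2 _ _ _ _ hx' h).2

lemma nxt_inj {L : ℕ} [NeZero L] (hL : 5 ≤ L) : Function.Injective (nxt (L := L) hL) := by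
  intro r₁ r₂ h
  obtain ⟨x, hx⟩ := nxt_spec hL r₁
  obtain ⟨x', hx'⟩ := nxt_spec hL r₂
  rw [h] at hx
  exact Subtype.ext (vm_unique hL _ (nxt hL r₂).2 _ _ _ _ hx hx').2

/-- the permutation of the legal rows -/
def FF {L : ℕ} [NeZero L] (hL : 5 ≤ L) : Equiv.Perm (LRow L) :=
  Equiv.ofBijective (nxt hL) (Finite.injective_iff_bijective.1 (nxt_inj hL))

end Pool.Agent.T9h50.PE
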