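import Pool.Agent.T9h50.PE.Orb
import Pool.Agent.T9h50.PE.Cyc
import Pool.Agent.T9h50.PE.En

/-! The interaction on the torus: configurations, rows and the potential. -/

set_option autoImplicit false
set_option linter.unusedSectionVars false

open scoped BigOperators ComplexConjugate

noncomputable section

namespace Pool.Agent.T9h50.PE

/-- the labels of a site: a phase and a cell -/
abbrev Sym := Bool × Cell

/-- the phase factor of a move -/
def wt (θ : ℝ) (p : Bool) (a b : Ty) : ℂ :=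
  if p = true then (if a = .r ∧ b = .s then ex (1 / 8) else 1)
  else (if a = .s ∧ b = .l then ex θ else 1)

lemma norm_wt (θ : ℝ) (p : Bool) (a b : Ty) : ‖wt θ p a b‖ = 1 := by
  unfold wt
  split_ifs <;> simp [norm_ex]

/-- the potential -/
def potN (σ : BConf Sym 3) : ℕ :=
  (if (σ (0, 0)).2.1 = .s then 1 else 0) +
  (if okP (σ (0, 0)).2 (σ (1, 0)).2 ∧ (σ (0, 0)).1 = (σ (1, 0)).1 then 0 else 3) +
  (if (σ (0, 0)).1 = (σ (0, 1)).1 then 0 else 3)

/-- the boxes with a move in the lower row -/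
def dom3 (σ : BConf Sym 3) : Prop :=
  (σ (0, 0)).1 = (σ (1, 0)).1 ∧ (σ (0, 0)).1 = (σ (2, 0)).1 ∧
    (mv3 (σ (0, 0)).2 (σ (1, 0)).2 (σ (2, 0)).2).isSome = true

instance : DecidablePred dom3 := fun σ => by unfold dom3; infer_instance

/-- the move -/
def mB3 (σ : BConf Sym 3) : BConf Sym 3 :=
  (mv3 (σ (0, 0)).2 (σ (1, 0)).2 (σ (2, 0)).2).elim σ
    (fun u p => ((σ p).1, if p = (0, 0) then u.1 else if p = (1, 0) then u.2.1 else
      if p = (2, 0) then u.2.2 else (σ p).2))

/-- the interaction -/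
def hh (θ : ℝ) : BConf Sym 3 → BConf Sym 3 → ℂ :=
  hop (fun σ => (potN σ : ℝ)) dom3 (fun σ => wt θ (σ (0, 0)).1 (σ (0, 0)).2.1 (σ (1, 0)).2.1) mB3

section
variable {L : ℕ} [NeZero L]

lemma box00 (s : Conf Sym L) (x y : ZMod L) : box 3 s (x, y) (0, 0) = s (x, y) := by simp [box]
lemma box10 (s : Conf Sym L) (x y : ZMod L) : box 3 s (x, y) (1, 0) = s (x + 1, y) := by simp [box]
lemma box20 (s : Conf Sym L) (x y : ZMod L) : box 3 s (x, y) (2, 0) = s (x + 2, y) := by simp [box]
lemma box01 (s : Conf Sym L) (x y : ZMod L) : box 3 s (x, y) (0, 1) = s (x, y + 1) := by simp [box]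

/-- the rows -/
def rw' (s : Conf Sym L) (y : ZMod L) : Row L := fun x => (s (x, y)).2

lemma val_small (a : ZMod L) (n : ℕ) (hn : n < L) : a.val = n ↔ a = (n : ZMod L) := by
  constructor
  · intro h
    rw [← h, ZMod.natCast_zmod_val]
  · intro h
    rw [h, ZMod.val_natCast_of_lt hn]

lemma put_row (hL : 5 ≤ L) (s : Conf Sym L) (x y : ZMod L) (u : Cell × Cell × Cell)
    (hu : mv3 (s (x, y)).2 (s (x + 1, y)).2 (s (x + 2, y)).2 = some u) :
    put s (x, y) (mB3 (box 3 s (x, y))) =
      fun w => if w.2 = y then ((s w).1, set3 (rw' s y) x u w.1) else s w := by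
  funext w
  obtain ⟨a, b⟩ := w
  have hm : mB3 (box 3 s (x, y)) = fun p => ((box 3 s (x, y) p).1, if p = (0, 0) then u.1 else
      if p = (1, 0) then u.2.1 else if p = (2, 0) then u.2.2 else (box 3 s (x, y) p).2) := by
    unfold mB3
    rw [box00, box10, box20, hu]
    rfl
  rw [hm]
  have v0 : ∀ a : ZMod L, (a - x).val = 0 ↔ a = x := by
    intro a
    rw [val_small _ 0 (by omega), Nat.cast_zero, sub_eq_zero]
  have v1 : ∀ a : ZMod L, (a - x).val = 1 ↔ a = x + 1 := by
    intro a
    rw [val_small _ 1 (by omega), Nat.cast_one, sub_eq_iff_eq_add, add_comm]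
  have v2 : ∀ a : ZMod L, (a - x).val = 2 ↔ a = x + 2 := by
    intro a
    rw [val_small _ 2 (by omega), Nat.cast_two, sub_eq_iff_eq_add, add_comm]
  have w0 : (b - y).val = 0 ↔ b = y := by
    rw [val_small _ 0 (by omega), Nat.cast_zero, sub_eq_zero]
  have hb : ∀ p : Fin 3 × Fin 3, (a - x).val = p.1 → (b - y).val = p.2 →
      box 3 s (x, y) p = s (a, b) := by
    intro p h1 h2
    unfold box
    congr 1
    refine Prod.ext ?_ ?_
    · change x + ((p.1 : ℕ) : ZMod L) = a
      rw [← h1, ZMod.natCast_zmod_val]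
      ring
    · change y + ((p.2 : ℕ) : ZMod L) = b
      rw [← h2, ZMod.natCast_zmod_val]
      ring
  unfold put
  simp only
  by_cases h : (a - x).val < 3 ∧ (b - y).val < 3
  · rw [dif_pos h, hb (⟨(a - x).val, h.1⟩, ⟨(b - y).val, h.2⟩) rfl rfl]
    by_cases hby : b = y
    · have hb0 : (b - y).val = 0 := w0.2 hby
      rw [if_pos hby]
      refine Prod.ext rfl ?_
      simp only [Prod.mk.injEq, Fin.ext_iff, hb0, Fin.val_zero, and_true, Fin.val_one, Fin.val_two,
        v0, v1, v2]
      unfold set3 rw'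
      rw [← hby]
    · have hb0 : (b - y).val ≠ 0 := fun h => hby (w0.1 h)
      rw [if_neg hby]
      simp only [Prod.mk.injEq, Fin.ext_iff, Fin.val_zero, hb0, and_false, if_false]
  · rw [dif_neg h]
    by_cases hby : b = y
    · have hb0 : (b - y).val = 0 := w0.2 hby
      rw [if_pos hby]
      have h3 : ¬ (a - x).val < 3 := fun h4 => h ⟨h4, by omega⟩
      have n0 : a ≠ x := fun h5 => h3 (by rw [(v0 a).2 h5]; norm_num)
      have n1 : a ≠ x + 1 := fun h5 => h3 (by rw [(v1 a).2 h5]; norm_num)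
      have n2 : a ≠ x + 2 := fun h5 => h3 (by rw [(v2 a).2 h5]; norm_num)
      unfold set3 rw'
      rw [if_neg n0, if_neg n1, if_neg n2, ← hby]
    · rw [if_neg hby]

/-- the configurations with legal rows and one phase -/
def cfg (p : Bool) (R : ZMod L → LRow L) : Conf Sym L := fun v => (p, (R v.2).1 v.1)

lemma cfg_inj : Function.Injective (fun q : Bool × (ZMod L → LRow L) => cfg q.1 q.2) := by
  rintro ⟨p, R⟩ ⟨p', R'⟩ h
  have h1 : p = p' := congrArg Prod.fst (congrFun h (0, 0))
  subst h1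
  have h2 : R = R' := by
    funext y
    apply Subtype.ext
    funext x
    exact congrArg Prod.snd (congrFun h (x, y))
  rw [h2]

lemma zmod_const {β : Type} (f : ZMod L → β) (h : ∀ x, f (x + 1) = f x) (x : ZMod L) : f x = f 0 := by
  have h1 : ∀ n : ℕ, f (n : ZMod L) = f 0 := by
    intro n
    induction n with
    | zero => simp
    | succ n ih => rw [Nat.cast_succ, h, ih]
  have := h1 x.val
  rwa [ZMod.natCast_zmod_val] at this

/-- the colours, modulo `2` -/
def colI (a : Cell) : ZMod 2 := if a.2 then 1 else 0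
/-- indicator of the stops, modulo `2` -/
def stI (a : Cell) : ZMod 2 := if a.1 = .s then 1 else 0

lemma chk12 : ∀ a b : Cell, okP a b → colI b - colI a = 1 - stI a := by decide +kernel

lemma stops_odd (hodd : L % 2 = 1) (r : Row L) (hr : ∀ x, okP (r x) (r (x + 1))) :
    (∑ x, (if (r x).1 = .s then 1 else 0)) % 2 = 1 := by
  have h1 : ∑ x, (colI (r (x + 1)) - colI (r x)) = 0 := by
    rw [Finset.sum_sub_distrib, sub_eq_zero]
    exact Equiv.sum_comp (Equiv.addRight (1 : ZMod L)) (fun x => colI (r x))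
  rw [Finset.sum_congr rfl fun x _ => chk12 _ _ (hr x), Finset.sum_sub_distrib, sub_eq_zero] at h1
  simp only [Finset.sum_const, Finset.card_univ, ZMod.card, nsmul_eq_mul, mul_one] at h1
  have h2 : (((∑ x, (if (r x).1 = .s then 1 else 0) : ℕ)) : ZMod 2) = (L : ZMod 2) := by
    rw [h1]
    push_cast
    exact Finset.sum_congr rfl fun x _ => rfl
  rw [ZMod.natCast_eq_natCast_iff'] at h2
  omega

lemma chk13 : ∀ n : ℕ, n % 2 = 1 → n < 3 → n = 1 := by omega

/-- the potential of one row -/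
def dr (s : Conf Sym L) (y : ZMod L) : ℕ :=
  ∑ x, ((if (s (x, y)).2.1 = .s then 1 else 0) +
    (if okP (s (x, y)).2 (s (x + 1, y)).2 ∧ (s (x, y)).1 = (s (x + 1, y)).1 then 0 else 3))

lemma dr_cases (hodd : L % 2 = 1) (s : Conf Sym L) (y : ZMod L) :
    3 ≤ dr s y ∨ (dr s y = 1 ∧ Legal (rw' s y) ∧ ∀ x, (s (x, y)).1 = (s (0, y)).1) := by
  by_cases h : ∀ x, okP (s (x, y)).2 (s (x + 1, y)).2 ∧ (s (x, y)).1 = (s (x + 1, y)).1
  · have h1 : dr s y = ∑ x, (if (rw' s y x).1 = .s then 1 else 0) := by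
      unfold dr
      refine Finset.sum_congr rfl fun x _ => ?_
      rw [if_pos (h x)]
      rfl
    have h2 := stops_odd hodd (rw' s y) fun x => (h x).1
    rw [← h1] at h2
    by_cases h3 : 3 ≤ dr s y
    · exact Or.inl h3
    · right
      have h4 : dr s y = 1 := chk13 _ h2 (by omega)
      refine ⟨h4, ⟨fun x => (h x).1, ?_⟩, ?_⟩
      · rw [h1] at h4
        have h5 : ∑ x, (if (rw' s y x).1 = .s then (1 : ℤ) else 0) = 1 := by
          have := congrArg (Nat.cast (R := ℤ)) h4
          push_cast at this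
          exact this
        exact (sum_one_iff _).1 h5
      · exact zmod_const (fun x => (s (x, y)).1) fun x => (h x).2.symm
  · left
    push Not at h
    obtain ⟨x, hx⟩ := h
    unfold dr
    refine le_trans ?_ (Finset.single_le_sum (fun _ _ => Nat.zero_le _) (Finset.mem_univ x))
    rw [if_neg (show ¬ (okP (s (x, y)).2 (s (x + 1, y)).2 ∧ (s (x, y)).1 = (s (x + 1, y)).1) from
      fun h => hx h.1 h.2)]
    omega

lemma pot_sum (s : Conf Sym L) : ∑ v : Site L, potN (box 3 s v) =
    ∑ y, dr s y + ∑ v : Site L, (if (s v).1 = (s (v.1, v.2 + 1)).1 then 0 else 3) := by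
  have h1 : ∀ v : Site L, potN (box 3 s v) =
      ((if (s v).2.1 = .s then 1 else 0) +
        (if okP (s v).2 (s (v.1 + 1, v.2)).2 ∧ (s v).1 = (s (v.1 + 1, v.2)).1 then 0 else 3)) +
      (if (s v).1 = (s (v.1, v.2 + 1)).1 then 0 else 3) := by
    rintro ⟨x, y⟩
    unfold potN
    rw [box00, box10, box01]
  rw [Finset.sum_congr rfl fun v _ => h1 v, Finset.sum_add_distrib]
  congr 1
  rw [Fintype.sum_prod_type_right]
  rfl

/-- the potential of a configuration which is not good -/
lemma pot_bad (hodd : L % 2 = 1) (s : Conf Sym L) (hs : ∀ p R, s ≠ cfg p R) :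
    L + 2 ≤ ∑ v : Site L, potN (box 3 s v) := by
  rw [pot_sum]
  have h1 : ∀ y, 1 ≤ dr s y := by
    intro y
    rcases dr_cases hodd s y with h | h
    · omega
    · omega
  by_cases h : ∃ y, 3 ≤ dr s y
  · obtain ⟨y₀, hy⟩ := h
    have h2 : ∑ y, (1 + if y = y₀ then 2 else 0) ≤ ∑ y, dr s y := by
      refine Finset.sum_le_sum fun y _ => ?_
      split_ifs with h3
      · rw [h3]; omega
      · exact h1 y
    rw [Finset.sum_add_distrib] at h2
    simp only [Finset.sum_const, Finset.card_univ, ZMod.card, smul_eq_mul, mul_one,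
      Finset.sum_ite_eq', Finset.mem_univ, if_true] at h2
    omega
  · push Not at h
    have h2 : ∀ y, dr s y = 1 ∧ Legal (rw' s y) ∧ ∀ x, (s (x, y)).1 = (s (0, y)).1 := by
      intro y
      rcases dr_cases hodd s y with h3 | h3
      · have := h y
        omega
      · exact h3
    have h3 : ∑ y, dr s y = L := by
      rw [Finset.sum_congr rfl fun y _ => (h2 y).1]
      simp
    rw [h3]
    by_cases h4 : ∀ v : Site L, (s v).1 = (s (v.1, v.2 + 1)).1
    · exfalso
      refine hs (s (0, 0)).1 (fun y => ⟨rw' s y, (h2 y).2.1⟩) ?_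
      funext v
      obtain ⟨x, y⟩ := v
      refine Prod.ext ?_ rfl
      change (s (x, y)).1 = (s (0, 0)).1
      rw [(h2 y).2.2 x]
      exact zmod_const (fun y => (s (0, y)).1) (fun y => (h4 (0, y)).symm) y
    · push Not at h4
      obtain ⟨v, hv⟩ := h4
      have h5 := Finset.single_le_sum (f := fun v : Site L =>
        if (s v).1 = (s (v.1, v.2 + 1)).1 then 0 else 3) (fun _ _ => Nat.zero_le _) (Finset.mem_univ v)
      simp only [if_neg hv] at h5
      omega

lemma pot_good (p : Bool) (R : ZMod L → LRow L) : ∑ v : Site L, potN (box 3 (cfg p R) v) = L := by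
  rw [pot_sum]
  have h1 : ∀ y, dr (cfg p R) y = 1 := by
    intro y
    have h2 : dr (cfg p R) y = ∑ x, (if ((R y).1 x).1 = .s then 1 else 0) := by
      unfold dr
      refine Finset.sum_congr rfl fun x _ => ?_
      rw [if_pos (show okP (cfg p R (x, y)).2 (cfg p R (x + 1, y)).2 ∧
        (cfg p R (x, y)).1 = (cfg p R (x + 1, y)).1 from ⟨(R y).2.1 x, rfl⟩)]
      rfl
    have h3 : ∑ x, (if ((R y).1 x).1 = .s then (1 : ℤ) else 0) = 1 :=
      (sum_one_iff _).2 (R y).2.2
    rw [h2]
    have h4 : ((∑ x, (if ((R y).1 x).1 = .s then 1 else 0) : ℕ) : ℤ) = ((1 : ℕ) : ℤ) := by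
      push_cast
      exact h3
    exact_mod_cast h4
  rw [Finset.sum_congr rfl fun y _ => h1 y]
  have h5 : ∀ v : Site L, (if (cfg p R v).1 = (cfg p R (v.1, v.2 + 1)).1 then 0 else 3) = 0 := by
    intro v
    rw [if_pos]
    rfl
  rw [Finset.sum_congr rfl fun v _ => h5 v]
  simp

end

end Pool.Agent.T9h50.PE
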