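import Pool.Agent.T9h50.PE.Row

/-! All legal rows are connected by moves. -/

set_option autoImplicit false

noncomputable section

namespace Pool.Agent.T9h50.PE

/-- a row given by the cells at distance `k` to the right of `x` -/
def rowf {L : ℕ} (x : ZMod L) (f : ℕ → Cell) : Row L := fun y => f (y - x).val

/-- the cell at distance `k` to the right of the stop, for the row with `m` blanks, the head `d` and
the bits `u k` -/
def cf (c : Bool) (m : ℕ) (d : Ty) (u : ℕ → Bool) (k : ℕ) : Cell :=
  (if k = 0 then .s else if k ≤ m then .z else if k = m + 1 then d else if u k then .i else .o,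
    if k = 0 ∨ k % 2 = 1 then c else !c)

/-- the row with the stop at `x` of the colour `c`, `m` blanks, the head `d` and the bits `u k` -/
def St {L : ℕ} (x : ZMod L) (c : Bool) (m : ℕ) (d : Ty) (u : ℕ → Bool) : Row L :=
  rowf x (cf c m d u)

lemma rowf_at {L : ℕ} [NeZero L] (x : ZMod L) (f : ℕ → Cell) (k : ℕ) (hk : k < L) :
    rowf x f (x + (k : ZMod L)) = f k := by
  unfold rowf
  rw [add_sub_cancel_left, ZMod.val_natCast_of_lt hk]

lemma rowf_at' {L : ℕ} [NeZero L] (x : ZMod L) (f : ℕ → Cell) (k : ℕ) :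
    rowf x f (x + (k : ZMod L)) = f (k % L) := by
  unfold rowf
  rw [add_sub_cancel_left, ZMod.val_natCast]

lemma rowf_congr {L : ℕ} [NeZero L] (x : ZMod L) (f g : ℕ → Cell) (h : ∀ k < L, f k = g k) :
    rowf x f = rowf x g := by
  funext y
  exact h _ (ZMod.val_lt _)

lemma St_congr {L : ℕ} [NeZero L] (x : ZMod L) (c : Bool) (m : ℕ) (d : Ty) (u u' : ℕ → Bool)
    (h : ∀ k, m + 1 < k → k < L → u k = u' k) : St x c m d u = St x c m d u' := by
  refine rowf_congr x _ _ fun k hk => ?_
  unfold cf
  by_cases h1 : m + 1 < k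
  · rw [h k h1 hk]
  · have : ¬ (k ≠ 0 ∧ ¬ k ≤ m ∧ k ≠ m + 1) := by omega
    split_ifs <;> first | rfl | (exfalso; omega)

lemma mv_rowf {L : ℕ} [NeZero L] (x : ZMod L) (f g : ℕ → Cell) (a : ℕ) (ha : a < L)
    (h : mv3 (f a) (f ((a + 1) % L)) (f ((a + 2) % L)) =
      some (g a, g ((a + 1) % L), g ((a + 2) % L)))
    (h' : ∀ k < L, k ≠ a → k ≠ (a + 1) % L → k ≠ (a + 2) % L → g k = f k) :
    Mv (x + (a : ZMod L)) (rowf x f) (rowf x g) := by
  refine ⟨(g a, g ((a + 1) % L), g ((a + 2) % L)), ?_, ?_⟩
  · rw [rowf_at x f a ha]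
    have e1 : x + (a : ZMod L) + 1 = x + ((a + 1 : ℕ) : ZMod L) := by push_cast; ring
    have e2 : x + (a : ZMod L) + 2 = x + ((a + 2 : ℕ) : ZMod L) := by push_cast; ring
    rw [e1, e2, rowf_at', rowf_at']
    exact h
  · funext y
    have e1 : x + (a : ZMod L) + 1 = x + ((a + 1 : ℕ) : ZMod L) := by push_cast; ring
    have e2 : x + (a : ZMod L) + 2 = x + ((a + 2 : ℕ) : ZMod L) := by push_cast; ring
    unfold set3
    rw [e1, e2]
    have key : ∀ n : ℕ, y = x + (n : ZMod L) → (y - x).val = n % L := by
      intro n hn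
      rw [hn, add_sub_cancel_left, ZMod.val_natCast]
    have key' : ∀ n : ℕ, (y - x).val = n % L → y = x + (n : ZMod L) := by
      intro n hn
      have : ((y - x).val : ZMod L) = (n : ZMod L) := by
        rw [hn, ZMod.natCast_mod]
      rw [ZMod.natCast_zmod_val] at this
      rw [← this]
      ring
    split_ifs with h0 h1 h2
    · have := key _ h0
      rw [Nat.mod_eq_of_lt ha] at this
      unfold rowf
      rw [this]
    · have := key _ h1
      unfold rowf
      rw [this]
    · have := key _ h2
      unfold rowf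
      rw [this]
    · unfold rowf
      refine h' _ (ZMod.val_lt _) (fun h3 => h0 (key' _ ?_)) (fun h3 => h1 (key' _ h3))
        (fun h3 => h2 (key' _ h3))
      rw [Nat.mod_eq_of_lt ha]
      exact h3

/-- one move -/
def MR {L : ℕ} (r r' : Row L) : Prop := ∃ x, Mv x r r'

/-- connected by moves -/
def Eqv {L : ℕ} (r r' : Row L) : Prop := Relation.EqvGen MR r r'

lemma Eqv.rfl' {L : ℕ} (r : Row L) : Eqv r r := Relation.EqvGen.refl _
lemma Eqv.symm' {L : ℕ} {r r' : Row L} (h : Eqv r r') : Eqv r' r := Relation.EqvGen.symm _ _ h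
lemma Eqv.trans' {L : ℕ} {r r' r'' : Row L} (h : Eqv r r') (h' : Eqv r' r'') : Eqv r r'' :=
  Relation.EqvGen.trans _ _ _ h h'

section
variable {L : ℕ} [NeZero L] (x : ZMod L) (c : Bool)

lemma m1 (m : ℕ) (u : ℕ → Bool) (hu : u (m + 2) = false) (hm : m + 3 ≤ L) :
    Eqv (St x c m .r u) (St x c (m + 1) .r u) := by
  refine Relation.EqvGen.rel _ _ ⟨_, mv_rowf x _ _ (m + 1) (by omega) ?_ ?_⟩
  · have e1 : (m + 1 + 1) % L = m + 2 := Nat.mod_eq_of_lt (by omega)
    rw [e1]
    have a1 : cf c m .r u (m + 1) = (.r, if (m + 1) % 2 = 1 then c else !c) := by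
      unfold cf; simp
    have a2 : cf c m .r u (m + 2) = (.o, if (m + 2) % 2 = 1 then c else !c) := by
      unfold cf; simp [hu]
    have b1 : cf c (m + 1) .r u (m + 1) = (.z, if (m + 1) % 2 = 1 then c else !c) := by
      unfold cf; simp
    have b2 : cf c (m + 1) .r u (m + 2) = (.r, if (m + 2) % 2 = 1 then c else !c) := by
      unfold cf; simp
    have b3 : cf c (m + 1) .r u ((m + 1 + 2) % L) = cf c m .r u ((m + 1 + 2) % L) := by
      rcases Nat.lt_or_ge (m + 3) L with h | h
      · rw [Nat.mod_eq_of_lt h]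
        unfold cf
        simp
      · have : m + 1 + 2 = L := by omega
        rw [this, Nat.mod_self]
        unfold cf
        simp
    rw [a1, a2, b1, b2, b3]
    simp [mv3, stp]
  · intro k hk h1 h2 h3
    have e1 : (m + 1 + 1) % L = m + 2 := Nat.mod_eq_of_lt (by omega)
    rw [e1] at h2
    unfold cf
    split_ifs <;> first | rfl | (exfalso; omega)

lemma m3 (m : ℕ) (u : ℕ → Bool) (hu : u (m + 2) = false) (hm : m + 3 ≤ L) :
    Eqv (St x c (m + 1) .l u) (St x c m .l u) := by
  refine Relation.EqvGen.rel _ _ ⟨_, mv_rowf x _ _ (m + 1) (by omega) ?_ ?_⟩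
  · have e1 : (m + 1 + 1) % L = m + 2 := Nat.mod_eq_of_lt (by omega)
    rw [e1]
    have a1 : cf c m .l u (m + 1) = (.l, if (m + 1) % 2 = 1 then c else !c) := by
      unfold cf; simp
    have a2 : cf c m .l u (m + 2) = (.o, if (m + 2) % 2 = 1 then c else !c) := by
      unfold cf; simp [hu]
    have b1 : cf c (m + 1) .l u (m + 1) = (.z, if (m + 1) % 2 = 1 then c else !c) := by
      unfold cf; simp
    have b2 : cf c (m + 1) .l u (m + 2) = (.l, if (m + 2) % 2 = 1 then c else !c) := by
      unfold cf; simp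
    have b3 : cf c (m + 1) .l u ((m + 1 + 2) % L) = cf c m .l u ((m + 1 + 2) % L) := by
      rcases Nat.lt_or_ge (m + 3) L with h | h
      · rw [Nat.mod_eq_of_lt h]
        unfold cf
        simp
      · have : m + 1 + 2 = L := by omega
        rw [this, Nat.mod_self]
        unfold cf
        simp
    rw [a1, a2, b1, b2, b3]
    simp [mv3, stp]
  · intro k hk h1 h2 h3
    have e1 : (m + 1 + 1) % L = m + 2 := Nat.mod_eq_of_lt (by omega)
    rw [e1] at h2
    unfold cf
    split_ifs <;> first | rfl | (exfalso; omega)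

lemma m2 (m : ℕ) (u : ℕ → Bool) (hu : u (m + 2) = true) (hm : m + 4 ≤ L) :
    Eqv (St x c m .r u) (St x c m .l (Function.update u (m + 3) (!(u (m + 3))))) := by
  refine Relation.EqvGen.rel _ _ ⟨_, mv_rowf x _ _ (m + 1) (by omega) ?_ ?_⟩
  · have e1 : (m + 1 + 1) % L = m + 2 := Nat.mod_eq_of_lt (by omega)
    have e2 : (m + 1 + 2) % L = m + 3 := Nat.mod_eq_of_lt (by omega)
    rw [e1, e2]
    have a1 : cf c m .r u (m + 1) = (.r, if (m + 1) % 2 = 1 then c else !c) := by
      unfold cf; simp
    have a2 : cf c m .r u (m + 2) = (.i, if (m + 2) % 2 = 1 then c else !c) := by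
      unfold cf; simp [hu]
    have a3 : cf c m .r u (m + 3) = (if u (m + 3) then .i else .o,
        if (m + 3) % 2 = 1 then c else !c) := by
      unfold cf; simp
    have b1 : cf c m .l (Function.update u (m + 3) (!(u (m + 3)))) (m + 1) =
        (.l, if (m + 1) % 2 = 1 then c else !c) := by
      unfold cf; simp
    have b2 : cf c m .l (Function.update u (m + 3) (!(u (m + 3)))) (m + 2) =
        (.i, if (m + 2) % 2 = 1 then c else !c) := by
      unfold cf; simp [Function.update_of_ne, hu]
    have b3 : cf c m .l (Function.update u (m + 3) (!(u (m + 3)))) (m + 3) =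
        (if u (m + 3) then .o else .i, if (m + 3) % 2 = 1 then c else !c) := by
      unfold cf
      simp only [Function.update_self]
      cases u (m + 3) <;> simp
    rw [a1, a2, a3, b1, b2, b3]
    cases u (m + 3) <;> simp [mv3, stp]
  · intro k hk h1 h2 h3
    have e1 : (m + 1 + 1) % L = m + 2 := Nat.mod_eq_of_lt (by omega)
    have e2 : (m + 1 + 2) % L = m + 3 := Nat.mod_eq_of_lt (by omega)
    rw [e1] at h2
    rw [e2] at h3
    unfold cf
    rw [Function.update_of_ne h3]
    split_ifs <;> first | rfl | (exfalso; omega)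

lemma m2' (m : ℕ) (u : ℕ → Bool) (hu : u (m + 2) = true) (hm : m + 3 = L) :
    Eqv (St x c m .r u) (St x c m .l u) := by
  refine Relation.EqvGen.rel _ _ ⟨_, mv_rowf x _ _ (m + 1) (by omega) ?_ ?_⟩
  · have e1 : (m + 1 + 1) % L = m + 2 := Nat.mod_eq_of_lt (by omega)
    have e2 : (m + 1 + 2) % L = 0 := by rw [show m + 1 + 2 = L by omega, Nat.mod_self]
    rw [e1, e2]
    have a1 : cf c m .r u (m + 1) = (.r, if (m + 1) % 2 = 1 then c else !c) := by
      unfold cf; simp
    have a2 : cf c m .r u (m + 2) = (.i, if (m + 2) % 2 = 1 then c else !c) := by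
      unfold cf; simp [hu]
    have a3 : cf c m .r u 0 = (.s, c) := by
      unfold cf; simp
    have b1 : cf c m .l u (m + 1) = (.l, if (m + 1) % 2 = 1 then c else !c) := by
      unfold cf; simp
    have b2 : cf c m .l u (m + 2) = (.i, if (m + 2) % 2 = 1 then c else !c) := by
      unfold cf; simp [hu]
    have b3 : cf c m .l u 0 = (.s, c) := by
      unfold cf; simp
    rw [a1, a2, a3, b1, b2, b3]
    simp [mv3, stp]
  · intro k hk h1 h2 h3
    have e1 : (m + 1 + 1) % L = m + 2 := Nat.mod_eq_of_lt (by omega)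
    rw [e1] at h2
    unfold cf
    split_ifs <;> first | rfl | (exfalso; omega)

lemma m4 (u : ℕ → Bool) (hL : 5 ≤ L) :
    Eqv (St x c 0 .l u) (St x c 0 .r (Function.update u 2 (!(u 2)))) := by
  refine Relation.EqvGen.rel _ _ ⟨_, mv_rowf x _ _ 0 (by omega) ?_ ?_⟩
  · have e1 : (0 + 1) % L = 1 := Nat.mod_eq_of_lt (by omega)
    have e2 : (0 + 2) % L = 2 := Nat.mod_eq_of_lt (by omega)
    rw [e1, e2]
    cases h : u 2 <;> simp [cf, mv3, stp, h]
  · intro k hk h1 h2 h3
    have e1 : (0 + 1) % L = 1 := Nat.mod_eq_of_lt (by omega)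
    have e2 : (0 + 2) % L = 2 := Nat.mod_eq_of_lt (by omega)
    rw [e1] at h2
    rw [e2] at h3
    unfold cf
    rw [Function.update_of_ne h3]
    split_ifs <;> first | rfl | (exfalso; omega)

lemma rowf_succ (f : ℕ → Cell) : rowf (x + 1) f = rowf x (fun k => f ((k + (L - 1)) % L)) := by
  funext y
  unfold rowf
  congr 1
  have h1 : y - (x + 1) = (((y - x).val + (L - 1) : ℕ) : ZMod L) := by
    have hL : 1 ≤ L := NeZero.one_le
    push_cast [Nat.cast_sub hL]
    rw [ZMod.natCast_zmod_val, ZMod.natCast_self]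
    ring
  rw [h1, ZMod.val_natCast]

lemma m5 (u u' : ℕ → Bool) (hL : 5 ≤ L) (hodd : L % 2 = 1) :
    Eqv (St x c (L - 2) .r u) (St (x + 1) (!c) (L - 2) .l u') := by
  unfold St
  rw [rowf_succ]
  refine Relation.EqvGen.rel _ _ ⟨_, mv_rowf x _ _ (L - 1) (by omega) ?_ ?_⟩
  · have e1 : (L - 1 + 1) % L = 0 := by rw [show L - 1 + 1 = L by omega, Nat.mod_self]
    have e2 : (L - 1 + 2) % L = 1 := by
      rw [show L - 1 + 2 = L + 1 by omega, Nat.add_mod_left, Nat.mod_eq_of_lt (by omega)]
    rw [e1, e2]
    have a1 : cf c (L - 2) .r u (L - 1) = (.r, !c) := by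
      unfold cf
      have h1 : ¬ (L - 1 = 0) := by omega
      have h2 : ¬ (L - 1 ≤ L - 2) := by omega
      have h3 : L - 1 = L - 2 + 1 := by omega
      have h4 : ¬ (L - 1 = 0 ∨ (L - 1) % 2 = 1) := by omega
      rw [if_neg h1, if_neg h2, if_pos h3, if_neg h4]
    have a2 : cf c (L - 2) .r u 0 = (.s, c) := by
      unfold cf; simp
    have a3 : cf c (L - 2) .r u 1 = (.z, c) := by
      unfold cf
      have h2 : (1 ≤ L - 2) := by omega
      simp [h2]
    have f1 : (L - 1 + (L - 1)) % L = L - 2 := by
      rw [show L - 1 + (L - 1) = L + (L - 2) by omega, Nat.add_mod_left, Nat.mod_eq_of_lt (by omega)]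
    have f2 : (0 + (L - 1)) % L = L - 1 := by rw [Nat.mod_eq_of_lt (by omega)]; omega
    have f3 : (1 + (L - 1)) % L = 0 := by rw [show 1 + (L - 1) = L by omega, Nat.mod_self]
    have b1 : cf (!c) (L - 2) .l u' (L - 2) = (.z, !c) := by
      unfold cf
      have h1 : ¬ (L - 2 = 0) := by omega
      have h4 : (L - 2 = 0 ∨ (L - 2) % 2 = 1) := by omega
      rw [if_neg h1, if_pos le_rfl, if_pos h4]
    have b2 : cf (!c) (L - 2) .l u' (L - 1) = (.l, c) := by
      unfold cf
      have h1 : ¬ (L - 1 = 0) := by omega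
      have h2 : ¬ (L - 1 ≤ L - 2) := by omega
      have h3 : L - 1 = L - 2 + 1 := by omega
      have h4 : ¬ (L - 1 = 0 ∨ (L - 1) % 2 = 1) := by omega
      rw [if_neg h1, if_neg h2, if_pos h3, if_neg h4, Bool.not_not]
    have b3 : cf (!c) (L - 2) .l u' 0 = (.s, !c) := by
      unfold cf; simp
    rw [a1, a2, a3, f1, f2, f3, b1, b2, b3]
    simp [mv3, stp]
  · intro k hk h1 h2 h3
    have e1 : (L - 1 + 1) % L = 0 := by rw [show L - 1 + 1 = L by omega, Nat.mod_self]
    have e2 : (L - 1 + 2) % L = 1 := by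
      rw [show L - 1 + 2 = L + 1 by omega, Nat.add_mod_left, Nat.mod_eq_of_lt (by omega)]
    rw [e1] at h2
    rw [e2] at h3
    have f1 : (k + (L - 1)) % L = k - 1 := by
      rw [show k + (L - 1) = L + (k - 1) by omega, Nat.add_mod_left, Nat.mod_eq_of_lt (by omega)]
    simp only [f1]
    unfold cf
    have g1 : ¬ (k - 1 = 0) := by omega
    have g2 : k - 1 ≤ L - 2 := by omega
    have g3 : ¬ (k = 0) := by omega
    have g4 : k ≤ L - 2 := by omega
    rw [if_neg g1, if_pos g2, if_neg g3, if_pos g4]
    by_cases g5 : k % 2 = 1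
    · have g6 : ¬ (k - 1 = 0 ∨ (k - 1) % 2 = 1) := by omega
      rw [if_neg g6, if_pos (Or.inr g5), Bool.not_not]
    · have g6 : (k - 1 = 0 ∨ (k - 1) % 2 = 1) := by omega
      have g7 : ¬ (k = 0 ∨ k % 2 = 1) := by omega
      rw [if_pos g6, if_neg g7]

/-- the two ends of the walk through the first bits -/
lemma ends (hL : 5 ≤ L) : ∀ j : ℕ, j + 3 ≤ L → ∀ u : ℕ → Bool,
    Eqv (St x c (j + 1) .r u) (St x c j .l (Function.update u (j + 2) true)) ∧
    Eqv (St x c (j + 1) .l u) (St x c j .r (Function.update u (j + 2) true)) := by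
  intro j
  induction j with
  | zero =>
    intro hj u
    have c1 : ∀ d, St x c (0 + 1) d u = St x c (0 + 1) d (Function.update u 2 false) := by
      intro d
      refine St_congr x c _ _ _ _ fun k hk _ => ?_
      rw [Function.update_of_ne (by omega)]
    have k4 : ∀ b, Eqv (St x c 0 .l (Function.update u 2 b)) (St x c 0 .r (Function.update u 2 !b)) := by
      intro b
      have := m4 x c (Function.update u 2 b) hL
      rwa [Function.update_self, Function.update_idem] at this
    constructor
    · rw [c1]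
      refine (m1 x c 0 _ (by simp) (by omega)).symm'.trans' ?_
      exact (k4 true).symm'
    · rw [c1]
      refine (m3 x c 0 _ (by simp) (by omega)).trans' ?_
      exact k4 false
  | succ j ih =>
    intro hj u
    have c1 : ∀ d, St x c (j + 1 + 1) d u = St x c (j + 1 + 1) d (Function.update u (j + 3) false) := by
      intro d
      refine St_congr x c _ _ _ _ fun k hk _ => ?_
      rw [Function.update_of_ne (by omega)]
    have k2 : ∀ b, Eqv (St x c j .r (Function.update (Function.update u (j + 3) b) (j + 2) true))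
        (St x c j .l (Function.update (Function.update u (j + 3) !b) (j + 2) true)) := by
      intro b
      have h1 := m2 x c j (Function.update (Function.update u (j + 3) b) (j + 2) true)
        (by simp) (by omega)
      have h2 : Function.update (Function.update (Function.update u (j + 3) b) (j + 2) true) (j + 3)
          (!(Function.update (Function.update u (j + 3) b) (j + 2) true (j + 3))) =
          Function.update (Function.update u (j + 3) !b) (j + 2) true := by
        funext k
        simp only [Function.update_apply]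
        split_ifs <;> first | rfl | (exfalso; omega)
      rwa [h2] at h1
    constructor
    · rw [c1]
      refine (m1 x c (j + 1) _ (by simp) (by omega)).symm'.trans' ?_
      refine (ih (by omega) _).1.trans' ?_
      refine (k2 true).symm'.trans' ?_
      exact (ih (by omega) _).2.symm'
    · rw [c1]
      refine (m3 x c (j + 1) _ (by simp) (by omega)).trans' ?_
      refine (ih (by omega) _).2.trans' ?_
      refine (k2 false).trans' ?_
      exact (ih (by omega) _).1.symm'

lemma collect (hL : 5 ≤ L) (u : ℕ → Bool) (i : ℕ) (d : Ty) (hd : d = .r ∨ d = .l) :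
    ∀ m : ℕ, i ≤ m → m + 2 ≤ L →
      Eqv (St x c i d u) (St x c m .r u) ∨ Eqv (St x c i d u) (St x c m .l u) := by
  intro m hm
  induction m, hm using Nat.le_induction with
  | base =>
    intro _
    rcases hd with rfl | rfl
    · exact Or.inl (Eqv.rfl' _)
    · exact Or.inr (Eqv.rfl' _)
  | succ m hm ih =>
    intro h
    have e1 := ends x c hL m (by omega) u
    cases hu : u (m + 2) with
    | true =>
      have hu' : Function.update u (m + 2) true = u := by
        rw [← hu, Function.update_eq_self]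
      rw [hu'] at e1
      rcases ih (by omega) with h1 | h1
      · exact Or.inr (h1.trans' e1.2.symm')
      · exact Or.inl (h1.trans' e1.1.symm')
    | false =>
      rcases ih (by omega) with h1 | h1
      · exact Or.inl (h1.trans' (m1 x c m u hu (by omega)))
      · exact Or.inr (h1.trans' (m3 x c m u hu (by omega)).symm')

/-- the rows with the stop at the same place and of the same colour are connected -/
lemma same_stop (hL : 5 ≤ L) (u : ℕ → Bool) (i : ℕ) (hi : i + 2 ≤ L) (d : Ty) (hd : d = .r ∨ d = .l) :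
    Eqv (St x c i d u) (St x c (L - 2) .l (fun _ => false)) := by
  have h0 : ∀ d u, St x c (L - 2) d u = St x c (L - 2) d (fun _ => false) := by
    intro d u
    exact St_congr x c _ _ _ _ fun k hk _ => by omega
  have h1 := ends x c hL (L - 3) (by omega) u
  have e1 : L - 3 + 1 = L - 2 := by omega
  have e2 : L - 3 + 2 = L - 1 := by omega
  rw [e1, e2] at h1
  have h2 := m2' x c (L - 3) (Function.update u (L - 1) true) (by rw [e2]; simp) (by omega)
  have h3 : Eqv (St x c (L - 2) .r u) (St x c (L - 2) .l u) :=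
    h1.1.trans' (h2.symm'.trans' h1.2.symm')
  rcases collect x c hL u i d hd (L - 2) (by omega) (by omega) with h4 | h4
  · have := h4.trans' h3
    rwa [h0 .l u] at this
  · rwa [h0 .l u] at h4

end

/-- all these rows are connected -/
theorem all_St {L : ℕ} [NeZero L] (hL : 5 ≤ L) (hodd : L % 2 = 1) (x x' : ZMod L) (c c' : Bool)
    (u u' : ℕ → Bool) (i i' : ℕ) (hi : i + 2 ≤ L) (hi' : i' + 2 ≤ L) (d d' : Ty)
    (hd : d = .r ∨ d = .l) (hd' : d' = .r ∨ d' = .l) :
    Eqv (St x c i d u) (St x' c' i' d' u') := by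
  have h1 : ∀ (x : ZMod L) (c : Bool), Eqv (St x c (L - 2) .l (fun _ => false))
      (St (x + 1) (!c) (L - 2) .l (fun _ => false)) := by
    intro x c
    exact (same_stop x c hL (fun _ => false) (L - 2) (by omega) .r (Or.inl rfl)).symm'.trans'
      (m5 x c _ _ hL hodd)
  have h2 : ∀ (n : ℕ) (x : ZMod L) (c : Bool), Eqv (St x c (L - 2) .l (fun _ => false))
      (St (x + n) (xor c (decide (n % 2 = 1))) (L - 2) .l (fun _ => false)) := by
    intro n
    induction n with
    | zero =>
      intro x c
      simp only [Nat.cast_zero, add_zero, Nat.zero_mod]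
      cases c <;> exact Eqv.rfl' _
    | succ n ih =>
      intro x c
      refine (ih x c).trans' ?_
      have h3 := h1 (x + n) (xor c (decide (n % 2 = 1)))
      have h4 : x + (n : ZMod L) + 1 = x + ((n + 1 : ℕ) : ZMod L) := by push_cast; ring
      have h5 : (!(xor c (decide (n % 2 = 1)))) = xor c (decide ((n + 1) % 2 = 1)) := by
        rcases Nat.mod_two_eq_zero_or_one n with h | h
        · have h' : (n + 1) % 2 = 1 := by omega
          simp [h, h']
        · have h' : (n + 1) % 2 = 0 := by omega
          simp [h, h']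
      rwa [h4, h5] at h3
  have h3 : ∀ (x : ZMod L) (c : Bool), Eqv (St x c (L - 2) .l (fun _ => false))
      (St x (!c) (L - 2) .l (fun _ => false)) := by
    intro x c
    have := h2 L x c
    simpa [hodd] using this
  have h4 : ∀ (x : ZMod L) (c c' : Bool), Eqv (St x c (L - 2) .l (fun _ => false))
      (St x c' (L - 2) .l (fun _ => false)) := by
    intro x c c'
    by_cases h : c = c'
    · rw [h]
      exact Eqv.rfl' _
    · have : c' = !c := by
        cases c <;> cases c' <;> simp_all
      rw [this]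
      exact h3 x c
  have h5 : Eqv (St x c (L - 2) .l (fun _ => false)) (St x' c' (L - 2) .l (fun _ => false)) := by
    have h6 := h2 (x' - x).val x c
    rw [ZMod.natCast_zmod_val, add_sub_cancel] at h6
    exact h6.trans' (h4 _ _ _)
  exact (same_stop x c hL u i hi d hd).trans' (h5.trans' (same_stop x' c' hL u' i' hi' d' hd').symm')

end Pool.Agent.T9h50.PE
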